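import Pool.Agent.Lib.MP_1a91b9_nuX.HQ.Qs
import Pool.Agent.Lib.MP_1a91b9_nuX.HU.Mk
import Pool.Agent.Lib.MP_1a91b9_nuX.HU.Coef
import Pool.Agent.Lib.MP_1a91b9_nuX.HU.Good

/-!
# The point of order `2 (1 + i)` of `y² = x³ + A x`
-/

set_option autoImplicit false

namespace Pool.Agent.Lib.MP_1a91b9_nuX.HQ

open NumberField IsDedekindDomain WeierstrassCurve Pool.Agent.Lib.MP_1a91b9_nuT DB HU
open Pool.Agent.Lib.MP_1a91b9_nuX.GL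

noncomputable section

variable [CD]

theorem gi (h1 : CD.tr = 0) (h2 : CD.nm = 1) : GI (ta : 𝓞 K) where
  sq := by
    have h3 := ta_quad
    rw [h1, h2] at h3
    push_cast at h3
    linear_combination h3
  gen := exists_coords

/-- the test point -/
theorem test_pt [DecidableEq Kb] (h1 : CD.tr = 0) (h2 : CD.nm = 1) {s : Kb} (hs : s ≠ 0)
    (hA : 4 * cA Kb = s ^ 4) : ∃ T : Pt Kb, xc T = s ^ 2 / 2 ∧ yc T = s ^ 3 / 2 ∧ T ≠ 0 ∧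
      sm Kb (2 * (1 + ta)) T = 0 ∧ (4 : ℕ) • T = 0 := by
  have hB : cB Kb = 0 := by
    change ((CD.B : ℤ) : Kb) = 0
    rw [B_zero h1 h2, Int.cast_zero]
  have hA' : cA Kb = s ^ 4 / 4 := by
    rw [← hA]
    ring
  have h0 : (s ^ 3 / 2) ^ 2 = (s ^ 2 / 2) ^ 3 + cA Kb * (s ^ 2 / 2) + cB Kb := by
    rw [hB, hA']
    ring
  have hy0 : s ^ 3 / 2 ≠ 0 := div_ne_zero (pow_ne_zero 3 hs) two_ne_zero
  obtain ⟨h', e1⟩ := mk_dbl (s ^ 2 / 2) (s ^ 3 / 2) h0 hy0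
  have ex : ((3 * (s ^ 2 / 2) ^ 2 + cA Kb) / (2 * (s ^ 3 / 2))) ^ 2 - s ^ 2 / 2 - s ^ 2 / 2 = 0 := by
    rw [hA']
    field_simp
    ring
  have ey : -((3 * (s ^ 2 / 2) ^ 2 + cA Kb) / (2 * (s ^ 3 / 2)) *
      ((((3 * (s ^ 2 / 2) ^ 2 + cA Kb) / (2 * (s ^ 3 / 2))) ^ 2 - s ^ 2 / 2 - s ^ 2 / 2) -
        s ^ 2 / 2) + s ^ 3 / 2) = 0 := by
    rw [ex, hA']
    field_simp
    ring
  have hz : (0 : Kb) ^ 2 = 0 ^ 3 + cA Kb * 0 + cB Kb := by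
    rw [hB]
    ring
  have e2 : mkPt (s ^ 2 / 2) (s ^ 3 / 2) h0 + mkPt (s ^ 2 / 2) (s ^ 3 / 2) h0 = mkPt 0 0 hz := by
    rw [e1, mk_inj]
    exact ⟨ex, ey⟩
  have e3 : mkPt (0 : Kb) 0 hz + mkPt 0 0 hz = 0 := mk_add_neg hz hz neg_zero.symm
  have e4 : sm Kb ta (mkPt (0 : Kb) 0 hz) = mkPt 0 0 hz := by
    obtain ⟨f⟩ := exists_kb
    obtain ⟨a1, a2⟩ := sm_unit f (taU h2) (mkPt (0 : Kb) 0 hz)
    rw [taU_val, xc_mk] at a1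
    rw [taU_val, yc_mk] at a2
    have hne : sm Kb ta (mkPt (0 : Kb) 0 hz) ≠ 0 := by
      intro h
      have h5 : sm Kb (((taU h2)⁻¹ : (𝓞 K)ˣ) : 𝓞 K) (sm Kb ta (mkPt (0 : Kb) 0 hz)) =
          mkPt 0 0 hz := by
        rw [← sm_mul, ← taU_val h2, ← Units.val_mul, inv_mul_cancel, Units.val_one, sm_one]
      rw [h, map_zero] at h5
      exact mk_ne_zero _ _ _ h5.symm
    have ht : algebraMap K Kb ((ta : 𝓞 K) : K) ≠ 0 := by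
      intro h
      have h5 := (gi h1 h2).sq
      have h6 := congrArg (fun a : 𝓞 K => algebraMap K Kb (a : K)) h5
      have h7 : algebraMap K Kb (((ta : 𝓞 K) ^ 2 : 𝓞 K) : K) = algebraMap K Kb (ta : K) ^ 2 := by
        rw [RingOfIntegers.coe_eq_algebraMap, map_pow, map_pow]
      have h8 : algebraMap K Kb ((-1 : 𝓞 K) : K) = -1 := by
        rw [RingOfIntegers.coe_eq_algebraMap, map_neg, map_one, map_neg, map_one]
      have h9 : algebraMap K Kb (((ta : 𝓞 K) ^ 2 : 𝓞 K) : K) = algebraMap K Kb ((-1 : 𝓞 K) : K) := h6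
      rw [h7, h8, h, zero_pow two_ne_zero] at h9
      norm_num at h9
    refine pt_ext hne (mk_ne_zero _ _ _) ?_ ?_
    · rw [xc_mk]
      exact (mul_eq_zero.1 a1).resolve_right (pow_ne_zero 2 ht)
    · rw [yc_mk]
      exact (mul_eq_zero.1 a2).resolve_right (pow_ne_zero 3 ht)
  have e5 : sm Kb (2 : 𝓞 K) (mkPt (s ^ 2 / 2) (s ^ 3 / 2) h0) = mkPt 0 0 hz := by
    have h5 := sm_nat (F := Kb) 2 (mkPt (s ^ 2 / 2) (s ^ 3 / 2) h0)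
    rw [Nat.cast_ofNat, two_smul, e2] at h5
    exact h5
  refine ⟨mkPt (s ^ 2 / 2) (s ^ 3 / 2) h0, rfl, rfl, mk_ne_zero _ _ _, ?_, ?_⟩
  · rw [mul_comm, sm_mul, e5, sm_add, sm_one, e4, e3]
  · have e6 : (4 : ℕ) • mkPt (s ^ 2 / 2) (s ^ 3 / 2) h0 =
        (mkPt (s ^ 2 / 2) (s ^ 3 / 2) h0 + mkPt (s ^ 2 / 2) (s ^ 3 / 2) h0) +
        (mkPt (s ^ 2 / 2) (s ^ 3 / 2) h0 + mkPt (s ^ 2 / 2) (s ^ 3 / 2) h0) := by
      abel
    rw [e6, e2, e3]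

end

end Pool.Agent.Lib.MP_1a91b9_nuX.HQ
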