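import Pool.Agent.Lib.MP_1a91b9_nuX.HQ.Psi
import Pool.Agent.Lib.MP_1a91b9_nuX.HQ.Test
import Pool.Agent.Lib.MP_1a91b9_nuX.GL.EllA
import Pool.Agent.Lib.MP_1a91b9_nuX.HU.Em

/-!
# The Hecke datum of the curves `y² = x³ + A x`
-/

set_option autoImplicit false

namespace Pool.Agent.Lib.MP_1a91b9_nuX.HQ

open NumberField IsDedekindDomain WeierstrassCurve Pool.Agent.Lib.MP_1a91b9_nuT DB HU
open Pool.Agent.Lib.MP_1a91b9_nuX.GL

noncomputable section

variable [CD]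

/-- a place not dividing `2` -/
theorem g4_of {P : HeightOneSpectrum (𝓞 K)} (h : (2 : 𝓞 K) ∉ P.asIdeal) : G4 P.asIdeal :=
  ⟨P.isPrime, P.ne_bot, h⟩

section
variable (h1 : CD.tr = 0) (h2 : CD.nm = 1) {a : ℤ} {c : ℤ} (hc : c ≠ 0) (ha0 : a ≠ 0)
  (hA : CD.A = c ^ 4 * a)

include h1 h2 hc hA in
/-- the places of good reduction -/
theorem good_four {P : HeightOneSpectrum (𝓞 K)} (hP2 : (2 : 𝓞 K) ∉ P.asIdeal)
    (hPa : (a : 𝓞 K) ∉ P.asIdeal) : ∃ C : VariableChange K, GM.GoodW (P.valuation K) (C • E K) := by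
  refine good_scale (c := (c : K)) (Int.cast_ne_zero.2 hc) (a := a) (b := 0) ?_ ?_ ?_
  · change ((CD.A : ℤ) : K) = _
    rw [hA]
    push_cast
    ring
  · change ((CD.B : ℤ) : K) = _
    rw [B_zero h1 h2, Int.cast_zero, mul_zero]
  · intro h3
    have e : ((16 * (4 * a ^ 3 + 27 * 0 ^ 2) : ℤ) : 𝓞 K) = (2 : 𝓞 K) ^ 6 * (a : 𝓞 K) ^ 3 := by
      push_cast
      ring
    rw [e] at h3
    rcases P.isPrime.mem_or_mem h3 with h4 | h4
    · exact hP2 (P.isPrime.mem_of_pow_mem _ h4)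
    · exact hPa (P.isPrime.mem_of_pow_mem _ h4)

include h1 h2 hc ha0 hA in
/-- the places of bad reduction -/
theorem bad_four (hfree : ∀ p : ℕ, p.Prime → ¬ (p : ℤ) ^ 4 ∣ a) {P : HeightOneSpectrum (𝓞 K)}
    (hP : (2 : 𝓞 K) ∈ P.asIdeal ∨ (a : 𝓞 K) ∈ P.asIdeal) :
    ¬ ∃ C : VariableChange K, GM.GoodW (P.valuation K) (C • E K) := by
  have hE := ellK_four h1 h2
  have hg := gi h1 h2
  by_cases hP2 : (2 : 𝓞 K) ∈ P.asIdeal
  · refine bad_of_sq hE Nat.prime_two ?_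
    have h3 : (1 + ta : 𝓞 K) ^ 2 ∈ P.asIdeal := by
      have e : (1 + ta : 𝓞 K) ^ 2 = ta * 2 := by linear_combination hg.sq
      rw [e]
      exact P.asIdeal.mul_mem_left _ hP2
    have h4 : (1 + ta : 𝓞 K) ∈ P.asIdeal := P.isPrime.mem_of_pow_mem _ h3
    have e : ((2 : ℕ) : 𝓞 K) = (-ta) * (1 + ta) ^ 2 := by
      push_cast
      linear_combination (ta + 2 : 𝓞 K) * hg.sq
    rw [e]
    exact Ideal.mul_mem_left _ _ (Ideal.pow_mem_pow h4 2)
  · have hPa := hP.resolve_left hP2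
    obtain ⟨p, hp, hpP⟩ := exists_prime_mem P
    by_cases hsq : (p : 𝓞 K) ∈ P.asIdeal ^ 2
    · exact bad_of_sq hE hp hsq
    · have hp2 : ¬ (p : ℤ) ∣ 64 := by
        intro h3
        have h4 : (p : ℤ) ∣ 2 ^ 6 := by
          have e : (2 : ℤ) ^ 6 = 64 := by norm_num
          rw [e]
          exact h3
        have h5 := (Nat.prime_iff_prime_int.1 hp).dvd_of_dvd_pow h4
        have h6 : p ∣ 2 := by exact_mod_cast h5
        have h7 : p = 2 := (Nat.prime_dvd_prime_iff_eq hp Nat.prime_two).1 h6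
        rw [h7, Nat.cast_ofNat] at hpP
        exact hP2 hpP
      have hpa : (p : ℤ) ∣ a := by
        by_contra h3
        exact int_notMem hp hpP h3 hPa
      obtain ⟨k, m, e1, e2⟩ := exists_pow hp a ha0
      obtain ⟨j0, hj0⟩ := exists_exp (P := P) (x := (c : K)) (Int.cast_ne_zero.2 hc)
      have hk : k ≠ 0 := by
        rintro rfl
        rw [pow_zero, one_mul] at e1
        rw [e1] at hpa
        exact e2 hpa
      have hk4 : k < 4 := by
        by_contra h3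
        apply hfree p hp
        rw [e1]
        exact Dvd.dvd.mul_right (pow_dvd_pow _ (not_lt.1 h3)) _
      have hv : P.valuation K (E K).Δ = WithZero.exp (12 * j0 - 3 * (k : ℤ)) := by
        have e3 : (E K).Δ = ((-64 : ℤ) : K) * (c : K) ^ 12 * (((p : ℤ) ^ k * m : ℤ) : K) ^ 3 := by
          have eB : cB K = 0 := by
            change ((CD.B : ℤ) : K) = 0
            rw [B_zero h1 h2, Int.cast_zero]
          have eA : cA K = (c : K) ^ 4 * (a : K) := by
            change ((CD.A : ℤ) : K) = _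
            rw [hA]
            push_cast
            ring
          rw [← e1]
          simp only [E, WeierstrassCurve.Δ, WeierstrassCurve.b₂, WeierstrassCurve.b₄,
            WeierstrassCurve.b₆, WeierstrassCurve.b₈]
          rw [eA, eB]
          push_cast
          ring
        have hp64 : ¬ (p : ℤ) ∣ -64 := fun h => hp2 ((dvd_neg).1 h)
        rw [e3, map_mul, map_mul, map_pow, map_pow, val_int hp hpP hsq k e2, hj0,
          val_one_of (int_notMem hp hpP hp64), one_mul, ← WithZero.exp_nsmul, ← WithZero.exp_nsmul,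
          ← WithZero.exp_add]
        congr 1
        simp
        ring
      intro hgood
      obtain ⟨j, hj⟩ := disc_exp hgood hv
      omega

include h1 h2 hc ha0 hA in
/-- the Frobenius automorphisms on the test point -/
theorem frob_four [DecidableEq Kb] {P : HeightOneSpectrum (𝓞 K)} (hP2 : (2 : 𝓞 K) ∉ P.asIdeal)
    (hPa : (a : 𝓞 K) ∉ P.asIdeal) {π : 𝓞 K} (hπ : 2 * (1 + ta) ∣ π - 1)
    (V : ValuationSubring Kb) (hV : Abv P V) (σ : Kb ≃ₐ[K] Kb)
    (hσ : IsFr V (Ideal.absNorm P.asIdeal) σ) :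
    ∃ T : Pt Kb, Tr V.valuation T ∧ xc T ≠ 0 ∧ yc T ≠ 0 ∧
      ga σ T = sm Kb (w ta (-qs ta P.asIdeal ((4 * a : ℤ) : 𝓞 K)) * π) T := by
  have hg := gi h1 h2
  have hP := g4_of hP2
  obtain ⟨t, ht⟩ := IsAlgClosed.exists_pow_nat_eq (((4 * a : ℤ)) : Kb) (n := 4) (by norm_num)
  have hcb : (c : Kb) ≠ 0 := Int.cast_ne_zero.2 hc
  have h4a : ((4 * a : ℤ) : Kb) ≠ 0 := Int.cast_ne_zero.2 (mul_ne_zero (by norm_num) ha0)
  have ht0 : t ≠ 0 := by
    rintro rfl
    rw [zero_pow (by norm_num)] at ht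
    exact h4a ht.symm
  have hs : (c : Kb) * t ≠ 0 := mul_ne_zero hcb ht0
  have hAs : 4 * cA Kb = ((c : Kb) * t) ^ 4 := by
    change 4 * ((CD.A : ℤ) : Kb) = _
    rw [mul_pow, ht, hA]
    push_cast
    ring
  obtain ⟨T, hx, hy, hT0, hT1, hT4⟩ := test_pt h1 h2 hs hAs
  have h4P : ((4 * a : ℤ) : 𝓞 K) ∉ P.asIdeal := by
    have e : ((4 * a : ℤ) : 𝓞 K) = (2 : 𝓞 K) ^ 2 * (a : 𝓞 K) := by
      push_cast
      ring
    rw [e]
    intro h3
    rcases P.isPrime.mem_or_mem h3 with h4 | h4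
    · exact hP2 (P.isPrime.mem_of_pow_mem _ h4)
    · exact hPa h4
  -- the value of `t`
  have hVt : V.valuation t = 1 := by
    have h3 : V.valuation t ^ 4 = 1 := by
      rw [← map_pow, ht, ← eK_int]
      exact eK_eq_one hV h4P
    exact (pow_eq_one_iff.1 h3).resolve_right (by norm_num)
  -- the root of unity
  obtain ⟨N, hN⟩ : ∃ N, N = Ideal.absNorm P.asIdeal := ⟨_, rfl⟩
  obtain ⟨m, hm⟩ := G4.dvd hg hP
  have hN1 : 1 < Ideal.absNorm P.asIdeal := hP.one_lt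
  have hσt : σ t ^ 4 = t ^ 4 := by
    rw [← map_pow, ht, map_intCast]
  obtain ⟨y, hy4⟩ : ∃ y : Kb, y = σ t / t := ⟨_, rfl⟩
  have hyt : σ t = y * t := by
    rw [hy4, div_mul_cancel₀ _ ht0]
  have hy1 : y ^ 4 = 1 := by
    rw [hy4, div_pow, hσt, div_self (pow_ne_zero 4 ht0)]
  have hi2 : eK (ta : 𝓞 K) ^ 2 = -1 := by
    rw [← eK_pow, hg.sq, eK_neg, eK_one]
  obtain ⟨e, he⟩ : ∃ e : ZMod 4, y = eK (w ta e) := by
    have h3 : (y - 1) * ((y + 1) * ((y - eK ta) * (y + eK ta))) = 0 := by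
      linear_combination hy1 - (y ^ 2 - 1) * hi2
    rcases mul_eq_zero.1 h3 with h4 | h4
    · exact ⟨0, by rw [w_zero, eK_one]; linear_combination h4⟩
    · rcases mul_eq_zero.1 h4 with h5 | h5
      · exact ⟨2, by rw [hg.w_two, eK_neg, eK_one]; linear_combination h5⟩
      · rcases mul_eq_zero.1 h5 with h6 | h6
        · exact ⟨1, by rw [hg.w_one]; linear_combination h6⟩
        · exact ⟨3, by rw [hg.w_three, eK_neg]; linear_combination h6⟩
  have hfr := hσ t hVt.le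
  have hq : qs ta P.asIdeal ((4 * a : ℤ) : 𝓞 K) = e := by
    refine qs_eq hg hP h4P e ?_
    rw [← eK_lt hV, eK_sub, eK_pow, eK_int, ← he]
    have e2 : (Ideal.absNorm P.asIdeal - 1) / 4 = m := by
      rw [hm]
      omega
    rw [e2]
    have e3 : σ t - t ^ Ideal.absNorm P.asIdeal = t * (y - ((4 * a : ℤ) : Kb) ^ m) := by
      have e4 : Ideal.absNorm P.asIdeal = 4 * m + 1 := by omega
      rw [e4, hyt, ← ht, pow_succ, pow_mul]
      ring
    rw [e3, map_mul, hVt, one_mul] at hfr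
    exact hfr
  refine ⟨T, ⟨4, ?_, hT4⟩, ?_, ?_, ?_⟩
  · have e3 : ((4 : ℕ) : Kb) = eK (2 : 𝓞 K) ^ 2 := by
      have e4 : eK (2 : 𝓞 K) = 2 := by
        have := eK_int (2 : ℤ)
        push_cast at this
        exact this
      rw [e4]
      norm_num
    rw [e3, map_pow, eK_eq_one hV hP2, one_pow]
  · rw [hx]
    exact div_ne_zero (pow_ne_zero 2 hs) two_ne_zero
  · rw [hy]
    exact div_ne_zero (pow_ne_zero 3 hs) two_ne_zero
  · have e5 : sm Kb π T = T := by
      obtain ⟨d, hd⟩ := hπ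
      have e6 : π = 1 + d * (2 * (1 + ta)) := by linear_combination hd
      rw [e6, sm_add, sm_one, sm_mul, hT1, map_zero, add_zero]
    rw [sm_mul, e5, hq]
    obtain ⟨f⟩ := exists_kb
    obtain ⟨a1, a2⟩ := sm_unit f (hg.w_isUnit (-e)).unit T
    rw [IsUnit.unit_spec] at a1 a2
    have e7 : eK (w ta (-e)) * y = 1 := by
      rw [he, ← eK_mul, hg.w_neg_mul, eK_one]
    have hne : sm Kb (w ta (-e)) T ≠ 0 := by
      intro h3
      have h4 : sm Kb (w ta e) (sm Kb (w ta (-e)) T) = T := by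
        rw [← sm_mul, mul_comm, hg.w_neg_mul, sm_one]
      rw [h3, map_zero] at h4
      exact hT0 h4.symm
    refine pt_ext ((gk_ne σ).not.2 hT0) hne ?_ ?_
    · rw [xc_gk, hx]
      rw [hx] at a1
      change xc (sm Kb (w ta (-e)) T) * eK (w ta (-e)) ^ 2 = _ at a1
      rw [map_div₀, map_pow, map_mul, map_intCast, map_ofNat, hyt]
      linear_combination (-y ^ 2) * a1 +
        xc (sm Kb (w ta (-e)) T) * (eK (w ta (-e)) * y + 1) * e7
    · rw [yc_gk, hy]
      rw [hy] at a2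
      change yc (sm Kb (w ta (-e)) T) * eK (w ta (-e)) ^ 3 = _ at a2
      rw [map_div₀, map_pow, map_mul, map_intCast, map_ofNat, hyt]
      linear_combination (-y ^ 3) * a2 +
        yc (sm Kb (w ta (-e)) T) * ((eK (w ta (-e)) * y) ^ 2 + eK (w ta (-e)) * y + 1) * e7

end

/-- **The Hecke datum for the discriminant `-4`.** -/
theorem hdat_four (h1 : CD.tr = 0) (h2 : CD.nm = 1) :
    ∃ (f : 𝓞 K) (ps : Ideal (𝓞 K) → 𝓞 K), HDat f ps := by
  have hg := gi h1 h2
  have hA0 : CD.A ≠ 0 := by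
    intro h3
    have h4 := CD.disc (self := inferInstance)
    rw [h3, B_zero h1 h2] at h4
    norm_num at h4
  obtain ⟨c, a, hA, hfree⟩ := exists_free (k := 4) (by norm_num) CD.A hA0
  have hc : c ≠ 0 := by
    rintro rfl
    rw [zero_pow (by norm_num), zero_mul] at hA
    exact hA0 hA
  have ha0 : a ≠ 0 := by
    rintro rfl
    rw [mul_zero] at hA
    exact hA0 hA
  obtain ⟨ps, p1, p2, p3, p4, p5, p6⟩ := exists_ps hg (4 * a) (mul_ne_zero (by norm_num) ha0)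
  have hfP : ∀ P : HeightOneSpectrum (𝓞 K), ((8 * (4 * a) : ℤ) : 𝓞 K) ∈ P.asIdeal ↔
      (2 : 𝓞 K) ∈ P.asIdeal ∨ (a : 𝓞 K) ∈ P.asIdeal := by
    intro P
    have e : ((8 * (4 * a) : ℤ) : 𝓞 K) = (2 : 𝓞 K) ^ 5 * (a : 𝓞 K) := by
      push_cast
      ring
    rw [e]
    constructor
    · intro h3
      rcases P.isPrime.mem_or_mem h3 with h4 | h4
      · exact Or.inl (P.isPrime.mem_of_pow_mem _ h4)
      · exact Or.inr h4
    · rintro (h3 | h3)
      · exact P.asIdeal.mul_mem_right _ (P.asIdeal.pow_mem_of_mem h3 5 (by norm_num))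
      · exact P.asIdeal.mul_mem_left _ h3
  refine ⟨((8 * (4 * a) : ℤ) : 𝓞 K), ps, hdat_of (ellK_four h1 h2) ?_ ?_ p1 p2 p3 p4 p5 ?_ ?_ ?_⟩
  · exact Int.cast_ne_zero.2 (mul_ne_zero (by norm_num) (mul_ne_zero (by norm_num) ha0))
  · exact ⟨8, by norm_num, ⟨((4 * a : ℤ) : 𝓞 K), by push_cast; ring⟩⟩
  · intro P hf
    rw [hfP, not_or] at hf
    exact good_four h1 h2 hc hA hf.1 hf.2
  · intro P hf
    rw [hfP] at hf
    exact bad_four h1 h2 hc ha0 hA hfree hf
  · intro _ P hf V hV σ hσ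
    rw [hfP, not_or] at hf
    have h4P : ((4 * a : ℤ) : 𝓞 K) ∉ P.asIdeal := by
      have e : ((4 * a : ℤ) : 𝓞 K) = (2 : 𝓞 K) ^ 2 * (a : 𝓞 K) := by
        push_cast
        ring
      rw [e]
      intro h3
      rcases P.isPrime.mem_or_mem h3 with h4 | h4
      · exact hf.1 (P.isPrime.mem_of_pow_mem _ h4)
      · exact hf.2 h4
    obtain ⟨π, hπ, e⟩ := p6 P.asIdeal (g4_of hf.1) h4P
    rw [e]
    exact frob_four h1 h2 hc ha0 hA hf.1 hf.2 hπ V hV σ hσ

end

end Pool.Agent.Lib.MP_1a91b9_nuX.HQ
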