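import Pool.Agent.Lib.MP_1a91b9_nuX.HQ.Gi

/-!
# The biquadratic character of a finite field

PROOF (complete). Quartic version of `u4_exists_char` in `Pool/Agent/Lib/MP_1a91b9_ntT/S4/Char.lean` (on main, in `outputs/live`);
simpler: let `j := ρ i`, `j ^ 2 = -1`. For `y : k` with `y ^ 4 = 1` there is exactly one `c : ZMod 4` with `ρ (w i c) = y`: existence from
`y ^ 4 - 1 = (y - 1) (y + 1) (y - j) (y + j)` and `GI.w_one`, `w_two`, `w_three`, `w_zero`; uniqueness: `ρ (w i c) = ρ (w i d)` gives `ρ (w i (c - d)) = 1`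
(`GI.w_add`, `GI.w_neg_mul`), and for `e ≠ 0` (three cases, `decide`) `ρ (w i e) = 1` gives `2 = 0` in `k`. For `x ≠ 0` in `k`, `(x ^ m) ^ 4 = 1`
(`FiniteField.pow_card_sub_one_eq_one`). Let `e x` be the exponent `c` with `ρ (w i c) = x ^ m` for `x ≠ 0` (choice). `χ x := if x = 0 then 0 else w i (e x)`;
`e (x y) = e x + e y`, `e 1 = 0` by uniqueness. `χ ^ 4 = 1` from `(w i c) ^ 4 = 1`. `χ ^ 2 ≠ 1`: `kˣ` is cyclic of order `4 m`: for a generator `g`,
`g ^ (2 m) ≠ 1`; if `χ ^ 2 = 1` then `(w i (e g)) ^ 2 = 1` and applying `ρ`, `(g ^ m) ^ 2 = 1`. (`m > 0` since `card k > 1`.)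
-/

set_option autoImplicit false

namespace Pool.Agent.Lib.MP_1a91b9_nuX.HQ

open NumberField

variable {K : Type} [Field K] [NumberField K] {i : 𝓞 K}

private theorem Ch_uniq (h : GI i) {k : Type} [Field k] (ρ : 𝓞 K →+* k)
    (h2 : (2 : k) ≠ 0) (c d : ZMod 4) (hcd : ρ (w i c) = ρ (w i d)) : c = d := by
  have hsq : i ^ 2 = -1 := h.sq
  have hj : ρ i ^ 2 = -1 := by rw [← map_pow, hsq, map_neg, map_one]
  have h1 : ρ (w i (c - d)) = 1 := by
    have h3 : w i (c - d) = w i c * w i (-d) := by rw [sub_eq_add_neg, h.w_add]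
    rw [h3, map_mul, hcd, ← map_mul, mul_comm, h.w_neg_mul, map_one]
  have h4 : ∀ e : ZMod 4, ρ (w i e) = 1 → e = 0 := by
    intro e he
    have h55 : ∀ e : ZMod 4, e = 0 ∨ e = 1 ∨ e = 2 ∨ e = 3 := by decide
    have h5 := h55 e
    rcases h5 with rfl | rfl | rfl | rfl
    · rfl
    · exfalso
      rw [h.w_one] at he
      rw [he] at hj
      apply h2
      linear_combination hj
    · exfalso
      rw [h.w_two, map_neg, map_one] at he
      apply h2
      linear_combination -he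
    · exfalso
      rw [h.w_three, map_neg] at he
      have h6 : ρ i = -1 := by linear_combination -he
      rw [h6] at hj
      apply h2
      linear_combination hj
  exact sub_eq_zero.mp (h4 _ h1)

private theorem Ch_exist (h : GI i) {k : Type} [Field k] (ρ : 𝓞 K →+* k)
    (y : k) (hy : y ^ 4 = 1) : ∃ c : ZMod 4, ρ (w i c) = y := by
  have hsq : i ^ 2 = -1 := h.sq
  have hj : ρ i ^ 2 = -1 := by rw [← map_pow, hsq, map_neg, map_one]
  have h1 : (y - 1) * ((y + 1) * ((y - ρ i) * (y + ρ i))) = 0 := by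
    linear_combination hy - (y ^ 2 - 1) * hj
  rcases mul_eq_zero.mp h1 with h3 | h3
  · refine ⟨0, ?_⟩
    rw [w_zero, map_one]
    exact (sub_eq_zero.mp h3).symm
  rcases mul_eq_zero.mp h3 with h3 | h3
  · refine ⟨2, ?_⟩
    rw [h.w_two, map_neg, map_one]
    exact (eq_neg_of_add_eq_zero_left h3).symm
  rcases mul_eq_zero.mp h3 with h3 | h3
  · refine ⟨1, ?_⟩
    rw [h.w_one]
    exact (sub_eq_zero.mp h3).symm
  · refine ⟨3, ?_⟩
    rw [h.w_three, map_neg]
    exact (eq_neg_of_add_eq_zero_left h3).symm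

theorem exists_char (h : GI i) {k : Type} [Field k] [Fintype k] (ρ : 𝓞 K →+* k)
    (h2 : (2 : k) ≠ 0) (m : ℕ) (hq : Fintype.card k - 1 = 4 * m) :
    ∃ χ : MulChar k (𝓞 K), χ ^ 4 = 1 ∧ χ ^ 2 ≠ 1 ∧ (∀ x, ρ (χ x) = x ^ m) ∧
      ∀ x : k, x ≠ 0 → ∃ c : ZMod 4, χ x = w i c := by
  classical
  have hm : 0 < m := by
    rcases Nat.eq_zero_or_pos m with h0 | h0
    · subst h0
      have h1 := Fintype.one_lt_card (α := k)
      omega
    · exact h0
  have hpow : ∀ x : k, x ≠ 0 → (x ^ m) ^ 4 = 1 := by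
    intro x hx
    rw [← pow_mul, mul_comm, ← hq]
    exact FiniteField.pow_card_sub_one_eq_one x hx
  have hex : ∀ x : k, ∃ c : ZMod 4, x ≠ 0 → ρ (w i c) = x ^ m := by
    intro x
    by_cases hx : x = 0
    · exact ⟨0, fun h0 => absurd hx h0⟩
    · obtain ⟨c, hc⟩ := Ch_exist h ρ (x ^ m) (hpow x hx)
      exact ⟨c, fun _ => hc⟩
  choose e he using hex
  have hemul : ∀ x y : k, x ≠ 0 → y ≠ 0 → e (x * y) = e x + e y := by
    intro x y hx hy
    refine Ch_uniq h ρ h2 _ _ ?_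
    rw [he _ (mul_ne_zero hx hy), h.w_add, map_mul, he x hx, he y hy, mul_pow]
  have heone : e 1 = 0 := by
    refine Ch_uniq h ρ h2 _ _ ?_
    rw [he 1 one_ne_zero, w_zero, map_one, one_pow]
  have hmulf : ∀ x y : k, (if x * y = 0 then (0 : 𝓞 K) else w i (e (x * y))) =
      (if x = 0 then (0 : 𝓞 K) else w i (e x)) * (if y = 0 then (0 : 𝓞 K) else w i (e y)) := by
    intro x y
    by_cases hx : x = 0
    · rw [if_pos hx, if_pos (by rw [hx, zero_mul]), zero_mul]
    by_cases hy : y = 0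
    · rw [if_pos hy, if_pos (by rw [hy, mul_zero]), mul_zero]
    rw [if_neg hx, if_neg hy, if_neg (mul_ne_zero hx hy), hemul x y hx hy, h.w_add]
  have hone1 : (if (1 : k) = 0 then (0 : 𝓞 K) else w i (e 1)) = 1 := by
    rw [if_neg one_ne_zero, heone, w_zero]
  have hnon : ∀ x : k, ¬ IsUnit x → (if x = 0 then (0 : 𝓞 K) else w i (e x)) = 0 := by
    intro x hx
    have h0 : x = 0 := by
      by_contra h0
      exact hx (isUnit_iff_ne_zero.mpr h0)
    rw [if_pos h0]
  refine ⟨MulChar.mk ⟨⟨fun x => if x = 0 then (0 : 𝓞 K) else w i (e x), hone1⟩, hmulf⟩ hnon, ?_, ?_, ?_, ?_⟩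
  · refine MulChar.ext fun u => ?_
    rw [MulChar.pow_apply_coe, MulChar.one_apply_coe]
    change (if (u : k) = 0 then (0 : 𝓞 K) else w i (e u)) ^ 4 = 1
    rw [if_neg u.ne_zero, h.w_pow]
    have h3 : ((4 : ℕ) : ZMod 4) * e (u : k) = 0 := by
      have h4 : ((4 : ℕ) : ZMod 4) = 0 := by decide
      rw [h4, zero_mul]
    rw [h3, w_zero]
  · intro hone
    obtain ⟨g, hg⟩ := IsCyclic.exists_generator (α := kˣ)
    have hord : orderOf g = Nat.card kˣ := orderOf_eq_card_of_forall_mem_zpowers hg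
    have h1 := congrArg (fun χ : MulChar k (𝓞 K) => χ (g : k)) hone
    have h3 : (w i (e (g : k))) ^ 2 = 1 := by
      have h4 : (1 : MulChar k (𝓞 K)) (g : k) = 1 := MulChar.one_apply_coe g
      simp only [MulChar.pow_apply_coe] at h1
      rw [h4] at h1
      have h5 : (if (g : k) = 0 then (0 : 𝓞 K) else w i (e g)) ^ 2 = 1 := h1
      rw [if_neg g.ne_zero] at h5
      exact h5
    have h6 : ((g : k) ^ m) ^ 2 = 1 := by
      rw [← he (g : k) g.ne_zero, ← map_pow, h3, map_one]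
    have h7 : g ^ (m * 2) = 1 := by
      ext
      rw [Units.val_pow_eq_pow_val, pow_mul, h6, Units.val_one]
    have h8 := orderOf_dvd_of_pow_eq_one h7
    rw [hord, Nat.card_eq_fintype_card, Fintype.card_units, hq] at h8
    have h9 := Nat.le_of_dvd (by omega) h8
    omega
  · intro x
    change ρ (if x = 0 then (0 : 𝓞 K) else w i (e x)) = x ^ m
    by_cases hx : x = 0
    · rw [if_pos hx, map_zero, hx, zero_pow hm.ne']
    · rw [if_neg hx, he x hx]
  · intro x hx
    refine ⟨e x, ?_⟩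
    change (if x = 0 then (0 : 𝓞 K) else w i (e x)) = w i (e x)
    rw [if_neg hx]

end Pool.Agent.Lib.MP_1a91b9_nuX.HQ
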