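import Mathlib

/-!
# The Frobenius of a biquadratic Gauss sum

PROOF (complete). Model: `gs_aux` in `Pool/Agent/Lib/MP_1a91b9_ntX/R/Ga.lean` (on main, in `outputs/live`); copy its
construction of `ψ := AddChar.FiniteField.primitiveChar k F hchar`, `L := CyclotomicField ψ.n F`,
`χL := χ.ringHomComp (algebraMap F L)`, `g := gaussSum χL ψ.char`.
(1) `g ^ 4 = card k * (jacobiSum χL χL) ^ 2`: `gaussSum (χL * χL) ψ * jacobiSum χL χL = g * g` (`jacobiSum_mul_nontrivial`, `χL * χL = χL ^ 2 ≠ 1`), and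
`(gaussSum (χL ^ 2) ψ) ^ 2 = (χL ^ 2) (-1) * card k = card k` (`gaussSum_sq` with `MulChar.IsQuadratic (χL ^ 2)`, or
`gaussSum_mul_gaussSum_eq_card` and `gaussSum_mulShift` with `-1`; `(χL ^ 2) (-1) = χL ((-1) ^ 2) = 1`).
(2) `gs4_one` (`card F = q`, `q = 4 j + 1`): as in `Ga.lean`: `χL q * g ^ q = g`, `g ≠ 0`, `g ^ (q - 1) = (g ^ 4) ^ j`.
(3) `gs4_three`: `ℓ = ringChar F`, `ℓ % 4 = 3`: `gaussSum_frob`: `g ^ ℓ = gaussSum (χL ^ ℓ) (ψ ^ ℓ) = gaussSum (χL ^ 3) (mulShift ψ ℓ)` and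
`gaussSum_mulShift`: `(χL ^ 3) ℓ * g ^ ℓ = gaussSum (χL ^ 3) ψ = gaussSum χL⁻¹ ψ` (`χL ^ 4 = 1`). `g * gaussSum χL⁻¹ ψ⁻¹ = card k`
(`gaussSum_mul_gaussSum_eq_card`), `ψ⁻¹ = mulShift ψ (-1)`, so `g * gaussSum χL⁻¹ ψ = χL⁻¹ (-1) * card k = χL (-1) * card k` (`χL (-1) ^ 2 = 1`). Hence
`(χL ^ 3) ℓ * g ^ (ℓ + 1) = χL (-1) * card k`; multiply by `χL ℓ` (`χL ℓ ^ 4 = 1`, `ℓ ≠ 0` in `k`):
`g ^ (ℓ + 1) = χL (-ℓ) * card k`, and `g ^ (ℓ + 1) = (g ^ 4) ^ ((ℓ + 1) / 4)`. The map `F → L` is injective (`jacobiSum_ringHomComp`).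
-/

set_option autoImplicit false

namespace Pool.Agent.Lib.MP_1a91b9_nuX.HQ

private theorem Gs_frob {k L : Type} [Field k] [Fintype k] [Field L] (ℓ : ℕ) [Fact ℓ.Prime]
    [CharP L ℓ] (χ : MulChar k L) (ψ : AddChar k L) (f : ℕ) :
    gaussSum χ ψ ^ (ℓ ^ f) = gaussSum (χ ^ (ℓ ^ f)) (ψ ^ (ℓ ^ f)) := by
  induction f with
  | zero => rw [pow_zero, pow_one, pow_one, pow_one]
  | succ f ih => rw [pow_succ, pow_mul, ih, gaussSum_frob ℓ, ← pow_mul, ← pow_mul]

private theorem Gs_core {k L : Type} [Field k] [Fintype k] [Field L] (ℓ : ℕ) [Fact ℓ.Prime]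
    [CharP L ℓ] (χ : MulChar k L) (ψ : AddChar k L) (h4 : χ ^ 4 = 1) (f j : ℕ)
    (hq : ℓ ^ f = 4 * j + 1) (hu : ((ℓ ^ f : ℕ) : k) ≠ 0) :
    χ ((ℓ ^ f : ℕ) : k) * gaussSum χ ψ ^ (ℓ ^ f) = gaussSum χ ψ := by
  have h1 : χ ^ (ℓ ^ f) = χ := by
    rw [hq, pow_succ, pow_mul, h4, one_pow, one_mul]
  have h2 := gaussSum_mulShift χ ψ (Units.mk0 _ hu)
  rw [Gs_frob, h1, AddChar.pow_mulShift]
  exact h2

private theorem Gs_four {k L : Type} [Field k] [Fintype k] [Field L] (χ : MulChar k L)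
    (ψ : AddChar k L) (h4 : χ ^ 4 = 1) (h2 : χ ^ 2 ≠ 1) (hψ : ψ.IsPrimitive) :
    gaussSum χ ψ ^ 4 = (Fintype.card k : L) * jacobiSum χ χ ^ 2 := by
  have h22 : (χ ^ 2) ^ 2 = 1 := by
    rw [← pow_mul]
    exact h4
  have hquad : MulChar.IsQuadratic (χ ^ 2) := by
    intro a
    by_cases ha : IsUnit a
    · right
      have e : ((χ ^ 2) ^ 2) a = (χ ^ 2) a ^ 2 := MulChar.pow_apply' _ two_ne_zero a
      rw [h22, MulChar.one_apply ha] at e
      have e2 : ((χ ^ 2) a - 1) * ((χ ^ 2) a + 1) = 0 := by linear_combination -e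
      rcases mul_eq_zero.1 e2 with e3 | e3
      · left
        exact sub_eq_zero.1 e3
      · right
        exact eq_neg_of_add_eq_zero_left e3
    · left
      exact MulChar.map_nonunit _ ha
  have hG := gaussSum_sq h2 hquad hψ
  have hm : (χ ^ 2) (-1) = 1 := by
    rw [MulChar.pow_apply' _ two_ne_zero, ← map_pow]
    have e : (-1 : k) ^ 2 = 1 := by ring
    rw [e, map_one]
  have hJ := jacobiSum_mul_nontrivial (χ := χ) (φ := χ) (by rw [← pow_two]; exact h2) ψ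
  rw [← pow_two] at hJ
  rw [hm, one_mul] at hG
  have e : gaussSum χ ψ ^ 4 = (gaussSum χ ψ * gaussSum χ ψ) ^ 2 := by ring
  rw [e, ← hJ, mul_pow, hG]

theorem gs4_one {k F : Type} [Field k] [Fintype k] [Field F] [Fintype F]
    (hchar : ringChar F ≠ ringChar k) (χ : MulChar k F) (h4 : χ ^ 4 = 1) (h2 : χ ^ 2 ≠ 1)
    (hq : 4 ∣ Fintype.card F - 1) :
    ((Fintype.card k : F) * jacobiSum χ χ ^ 2) ^ ((Fintype.card F - 1) / 4) *
      χ ((Fintype.card F : ℕ) : k) = 1 := by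
  obtain ⟨n, hp, hc⟩ := FiniteField.card k (ringChar k)
  obtain ⟨n', hp', hc'⟩ := FiniteField.card F (ringChar F)
  let ψ := AddChar.FiniteField.primitiveChar k F hchar
  have hchar2 := Algebra.ringChar_eq F (CyclotomicField ψ.n F)
  have := Fact.mk hp'
  have : CharP (CyclotomicField ψ.n F) (ringChar F) := by
    rw [hchar2]
    exact ringChar.charP _
  have hinj : Function.Injective (algebraMap F (CyclotomicField ψ.n F)) := RingHom.injective _
  have h2' : χ.ringHomComp (algebraMap F (CyclotomicField ψ.n F)) ^ 2 ≠ 1 := by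
    rw [MulChar.ringHomComp_pow]
    exact (MulChar.ringHomComp_ne_one_iff hinj).2 h2
  have h4' : χ.ringHomComp (algebraMap F (CyclotomicField ψ.n F)) ^ 4 = 1 := by
    rw [MulChar.ringHomComp_pow, h4, MulChar.ringHomComp_one]
  have h1' : χ.ringHomComp (algebraMap F (CyclotomicField ψ.n F)) ≠ 1 := by
    intro e
    apply h2'
    rw [e, one_pow]
  have hcard1 : 1 ≤ Fintype.card F := Fintype.card_pos
  obtain ⟨j, hj⟩ := hq
  have hq' : (ringChar F) ^ (n' : ℕ) = 4 * j + 1 := by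
    rw [← hc']
    omega
  have hu : (((ringChar F) ^ (n' : ℕ) : ℕ) : k) ≠ 0 := by
    rw [Nat.cast_pow]
    refine pow_ne_zero _ ?_
    intro h0
    have h2 := (CharP.cast_eq_zero_iff k (ringChar k) (ringChar F)).1 h0
    exact hchar ((Nat.prime_dvd_prime_iff_eq hp hp').1 h2).symm
  have hA := Gs_core (ringChar F) (χ.ringHomComp (algebraMap F (CyclotomicField ψ.n F))) ψ.char
    h4' (n' : ℕ) j hq' hu
  have hB := Gs_four (χ.ringHomComp (algebraMap F (CyclotomicField ψ.n F))) ψ.char h4' h2' ψ.prim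
  have hcard : ((Fintype.card k : ℕ) : CyclotomicField ψ.n F) ≠ 0 := by
    rw [hc, Nat.cast_pow]
    refine pow_ne_zero _ ?_
    intro h0
    have h2 := (CharP.cast_eq_zero_iff (CyclotomicField ψ.n F) (ringChar F) (ringChar k)).1 h0
    exact hchar ((Nat.prime_dvd_prime_iff_eq hp' hp).1 h2)
  have hg := gaussSum_ne_zero_of_nontrivial hcard h1' ψ.prim
  apply hinj
  have hj' : (Fintype.card F - 1) / 4 = j := by omega
  rw [hj', map_one, map_mul, map_pow, map_mul, map_natCast, map_pow, ← MulChar.ringHomComp_apply,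
    ← jacobiSum_ringHomComp, ← hB, hc']
  apply mul_right_cancel₀ hg
  rw [one_mul]
  rw [hq', pow_succ, pow_mul] at hA
  rw [hq']
  calc _ = _ := by ring
    _ = _ := hA

theorem gs4_three {k F : Type} [Field k] [Fintype k] [Field F] [Fintype F]
    (hchar : ringChar F ≠ ringChar k) (χ : MulChar k F) (h4 : χ ^ 4 = 1) (h2 : χ ^ 2 ≠ 1)
    (hq : ringChar F % 4 = 3) :
    ((Fintype.card k : F) * jacobiSum χ χ ^ 2) ^ ((ringChar F + 1) / 4) =
      χ (-((ringChar F : ℕ) : k)) * (Fintype.card k : F) := by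
  obtain ⟨n, hp, hc⟩ := FiniteField.card k (ringChar k)
  obtain ⟨n', hp', hc'⟩ := FiniteField.card F (ringChar F)
  let ψ := AddChar.FiniteField.primitiveChar k F hchar
  have hchar2 := Algebra.ringChar_eq F (CyclotomicField ψ.n F)
  have := Fact.mk hp'
  have : CharP (CyclotomicField ψ.n F) (ringChar F) := by
    rw [hchar2]
    exact ringChar.charP _
  have hinj : Function.Injective (algebraMap F (CyclotomicField ψ.n F)) := RingHom.injective _
  have h2' : χ.ringHomComp (algebraMap F (CyclotomicField ψ.n F)) ^ 2 ≠ 1 := by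
    rw [MulChar.ringHomComp_pow]
    exact (MulChar.ringHomComp_ne_one_iff hinj).2 h2
  have h4' : χ.ringHomComp (algebraMap F (CyclotomicField ψ.n F)) ^ 4 = 1 := by
    rw [MulChar.ringHomComp_pow, h4, MulChar.ringHomComp_one]
  have h1' : χ.ringHomComp (algebraMap F (CyclotomicField ψ.n F)) ≠ 1 := by
    intro e
    apply h2'
    rw [e, one_pow]
  have hl : ((ringChar F : ℕ) : k) ≠ 0 := by
    intro h0
    have h2 := (CharP.cast_eq_zero_iff k (ringChar k) (ringChar F)).1 h0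
    exact hchar ((Nat.prime_dvd_prime_iff_eq hp hp').1 h2).symm
  have hB := Gs_four (χ.ringHomComp (algebraMap F (CyclotomicField ψ.n F))) ψ.char h4' h2' ψ.prim
  obtain ⟨a, ha⟩ : ∃ a, ringChar F = 4 * a + 3 := ⟨ringChar F / 4, by omega⟩
  obtain ⟨X, hX⟩ : ∃ X, X = χ.ringHomComp (algebraMap F (CyclotomicField ψ.n F)) := ⟨_, rfl⟩
  rw [← hX] at h1' h2' h4' hB
  have hfrob := gaussSum_frob (ringChar F) X ψ.char
  have hX3 : X ^ (ringChar F) = X ^ 3 := by
    rw [ha, pow_add, pow_mul, h4', one_pow, one_mul]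
  rw [hX3, AddChar.pow_mulShift] at hfrob
  have hsh := gaussSum_mulShift (X ^ 3) ψ.char (Units.mk0 _ hl)
  rw [Units.val_mk0, ← hfrob] at hsh
  have hord : orderOf X = 4 := by
    have e := orderOf_eq_prime_pow (x := X) (p := 2) (n := 1) (by rw [pow_one]; exact h2') (by
      exact h4')
    exact e
  have hmul := gaussSum_mul_gaussSum_pow_orderOf_sub_one h1' ψ.prim
  have h43 : 4 - 1 = 3 := rfl
  rw [hord, h43, ← hsh] at hmul
  have hXl : X (ringChar F : k) * (X ^ 3) (ringChar F : k) = 1 := by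
    rw [MulChar.pow_apply' _ three_ne_zero, ← pow_succ', ← MulChar.pow_apply' _ four_ne_zero,
      h4', MulChar.one_apply (isUnit_iff_ne_zero.2 hl)]
  have hneg : X (-(ringChar F : k)) = X (ringChar F : k) * X (-1) := by
    rw [← map_mul, mul_neg, mul_one]
  have hkey : gaussSum X ψ.char ^ (ringChar F + 1) =
      X (-(ringChar F : k)) * (Fintype.card k : CyclotomicField ψ.n F) := by
    rw [hneg, mul_assoc, ← hmul]
    calc _ = gaussSum X ψ.char ^ ringChar F * gaussSum X ψ.char * 1 := by ring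
      _ = gaussSum X ψ.char ^ ringChar F * gaussSum X ψ.char *
          (X (ringChar F : k) * (X ^ 3) (ringChar F : k)) := by rw [hXl]
      _ = _ := by ring
  have hdiv : ringChar F + 1 = 4 * ((ringChar F + 1) / 4) := by omega
  apply hinj
  rw [map_pow, map_mul, map_mul, map_pow, map_natCast, ← MulChar.ringHomComp_apply,
    ← jacobiSum_ringHomComp, ← hX, ← hB, ← pow_mul, ← hdiv]
  exact hkey

end Pool.Agent.Lib.MP_1a91b9_nuX.HQ
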