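import Pool.Agent.Lib.MP_1a91b9_nuX.HQ.Gi

/-!
# The biquadratic Jacobi sum

PROOF (complete). Let `J := jacobiSum χ χ`, `J' := jacobiSum χ⁻¹ χ⁻¹`.
(1) `ρ J = ∑ x, x ^ m * (1 - x) ^ m = 0`: `ρ J` is this sum by `jacobiSum`, `map_sum`, `map_mul` and `hχρ` (`m > 0` since `card k > 1`); expand `(1 - x) ^ m`
by the binomial theorem, all exponents of `x` are `≤ 2 m < card k - 1` and `FiniteField.sum_pow_lt_card_sub_one` (compare
`u4_sum_low`, `u4_jacobi_zero` in `Pool/Agent/Lib/MP_1a91b9_ntT/S4/{Sum,Char}.lean`). So `J ∈ ker ρ = span {β}`, `J = β * c`.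
(2) `J * J' = card k`: `jacobiSum_mul_jacobiSum_inv` (the characters `χ`, `χ` and `χ * χ` are not trivial; the characteristic of `k` is not zero in `𝓞 K`).
Compare `u4_jac_mul` in `S4/Jac.lean`.
(3) `h.cj J = J'`: `h.cj (χ x) = χ⁻¹ x`: for `x ≠ 0`, `χ x = w i c`, `h.cj_w`, and `χ⁻¹ x = (χ x)⁻¹ʳ` is the inverse `w i (-c)` (`h.w_neg_mul`; `MulChar.inv_apply_eq_inv`), for
`x = 0` both are `0`; `jacobiSum` is a sum of products. Compare `u4_jac_conj`.
(4) So `N (J) = card k` (`h.mul_cj J`, cast to `ℕ`), the same for `β` (hypothesis `hN`), `N c = 1` (`Ideal.absNorm_span_singleton`, multiplicativity of the norm of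
`span {β * c} = span {β} * span {c}`), so `c` is a unit (`Ideal.absNorm_eq_one_iff`, `Ideal.span_singleton_eq_top`).
(5) `J ≡ -1` modulo `2`: `exists_jacobiSum_eq_neg_one_add` of Mathlib with `n = 4`, `μ = i` (primitive fourth root of unity) gives `J = -1 + z * (i - 1) ^ 2` with
`z ∈ Algebra.adjoin ℤ {i}`, an element of `𝓞 K`, and `(i - 1) ^ 2 = -2 i` (compare `u4_jac_mod`).
(6) `c = w i d` (`h.unit`); `2 ∣ β - 1` and `2 ∣ β c + 1` give `2 ∣ c + 1`; for `d = 1` or `3`, `2 ∣ i + 1` or `2 ∣ 1 - i` contradict `h.int_dvd`. So `c = 1` or `-1` and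
`J ^ 2 = β ^ 2`.
-/

set_option autoImplicit false

namespace Pool.Agent.Lib.MP_1a91b9_nuX.HQ

open NumberField

variable {K : Type} [Field K] [NumberField K] {i : 𝓞 K}

private theorem Ja_sum {k : Type} [Field k] [Fintype k] (m : ℕ) (hm : 0 < m)
    (hq : Fintype.card k - 1 = 4 * m) : ∑ x : k, x ^ m * (1 - x) ^ m = 0 := by
  have h1 : ∀ x : k, x ^ m * (1 - x) ^ m =
      ∑ j ∈ Finset.range (m + 1), ((-1) ^ j * (m.choose j : k)) * x ^ (m + j) := by
    intro x
    have e : (1 - x) ^ m =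
        ∑ j ∈ Finset.range (m + 1), (-x) ^ j * 1 ^ (m - j) * (m.choose j : k) := by
      rw [← add_pow]
      congr 1
      ring
    rw [e, Finset.mul_sum]
    refine Finset.sum_congr rfl fun j _ => ?_
    rw [one_pow, mul_one, neg_pow, pow_add]
    ring
  rw [Finset.sum_congr rfl fun x _ => h1 x, Finset.sum_comm]
  refine Finset.sum_eq_zero fun j hj => ?_
  rw [Finset.mem_range] at hj
  rw [← Finset.mul_sum, FiniteField.sum_pow_lt_card_sub_one k (m + j) (by omega), mul_zero]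

private theorem Ja_mul {k : Type} [Field k] [Fintype k] (χ : MulChar k (𝓞 K))
    (h2 : χ ^ 2 ≠ 1) :
    jacobiSum χ χ * jacobiSum χ⁻¹ χ⁻¹ = (Fintype.card k : 𝓞 K) := by
  have hinj : Function.Injective (algebraMap (𝓞 K) K) := RingOfIntegers.coe_injective
  apply hinj
  obtain ⟨χ', hχ'⟩ : ∃ χ' : MulChar k K, χ' = χ.ringHomComp (algebraMap (𝓞 K) K) := ⟨_, rfl⟩
  have hχχ : χ' * χ' ≠ 1 := by
    rw [hχ', ← pow_two, MulChar.ringHomComp_pow, Ne, MulChar.ringHomComp_eq_one_iff hinj]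
    exact h2
  have hχ'1 : χ' ≠ 1 := by
    intro h
    apply hχχ
    rw [h, one_mul]
  obtain ⟨p, hpchar⟩ := CharP.exists k
  have hpp : Fact p.Prime := ⟨(CharP.char_is_prime_or_zero k p).resolve_right
    (CharP.char_ne_zero_of_finite k p)⟩
  have hchar : ringChar K ≠ ringChar k := by
    have e1 : ringChar K = 0 := ringChar.eq_zero
    have e2 : ringChar k = p := ringChar.eq k p
    rw [e1, e2]
    exact ((Fact.out : p.Prime).ne_zero).symm
  have h := jacobiSum_mul_jacobiSum_inv hchar hχ'1 hχ'1 hχχ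
  have hinv : χ'⁻¹ = (χ⁻¹).ringHomComp (algebraMap (𝓞 K) K) := by
    rw [hχ']
    exact MulChar.ringHomComp_inv _ _
  rw [hinv, hχ', jacobiSum_ringHomComp, jacobiSum_ringHomComp] at h
  rw [map_mul, map_natCast]
  exact h

private theorem Ja_conj (h : GI i) {k : Type} [Field k] [Fintype k] (χ : MulChar k (𝓞 K))
    (hχv : ∀ x : k, x ≠ 0 → ∃ c : ZMod 4, χ x = w i c) :
    h.cj (jacobiSum χ χ) = jacobiSum χ⁻¹ χ⁻¹ := by
  have hval : ∀ x : k, h.cj (χ x) = χ⁻¹ x := by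
    intro x
    by_cases hx : x = 0
    · rw [hx, MulChar.map_zero, map_zero, MulChar.map_zero]
    · obtain ⟨c, hc⟩ := hχv x hx
      rw [hc, h.cj_w]
      have h1 : χ⁻¹ x * χ x = 1 := by
        rw [← MulChar.mul_apply, inv_mul_cancel, MulChar.one_apply (isUnit_iff_ne_zero.2 hx)]
      rw [hc] at h1
      apply (h.w_isUnit c).mul_left_injective
      beta_reduce
      rw [h1, h.w_neg_mul]
  rw [jacobiSum, jacobiSum, map_sum]
  refine Finset.sum_congr rfl fun x _ => ?_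
  rw [map_mul, hval, hval]

theorem jac_sq (h : GI i) {k : Type} [Field k] [Fintype k] (ρ : 𝓞 K →+* k)
    {β : 𝓞 K} (hβ : (2 : 𝓞 K) ∣ β - 1) (hker : RingHom.ker ρ = Ideal.span {β})
    (hN : Ideal.absNorm (Ideal.span {β}) = Fintype.card k)
    (m : ℕ) (hq : Fintype.card k - 1 = 4 * m) (χ : MulChar k (𝓞 K)) (hχ4 : χ ^ 4 = 1)
    (hχ2 : χ ^ 2 ≠ 1) (hχρ : ∀ x, ρ (χ x) = x ^ m)
    (hχv : ∀ x : k, x ≠ 0 → ∃ c : ZMod 4, χ x = w i c) :
    jacobiSum χ χ ^ 2 = β ^ 2 := by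
  classical
  have hm : 0 < m := by
    rcases Nat.eq_zero_or_pos m with h1 | h1
    · subst h1
      have h2 := Fintype.one_lt_card (α := k)
      omega
    · exact h1
  obtain ⟨J, hJ⟩ : ∃ J, J = jacobiSum χ χ := ⟨_, rfl⟩
  rw [← hJ]
  -- the kernel
  have hρJ : ρ J = 0 := by
    rw [hJ, jacobiSum, map_sum]
    have e : ∀ x : k, ρ (χ x * χ (1 - x)) = x ^ m * (1 - x) ^ m := fun x => by
      rw [map_mul, hχρ, hχρ]
    rw [Finset.sum_congr rfl fun x _ => e x]
    exact Ja_sum m hm hq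
  obtain ⟨c, hc⟩ : β ∣ J := by
    rw [← Ideal.mem_span_singleton, ← hker, RingHom.mem_ker]
    exact hρJ
  -- norms
  have hJJ : J * h.cj J = (Fintype.card k : 𝓞 K) := by
    rw [hJ, Ja_conj h χ hχv]
    exact Ja_mul χ hχ2
  have hNJ : Ideal.absNorm (Ideal.span {J}) = Fintype.card k := by
    rw [h.mul_cj] at hJJ
    exact_mod_cast hJJ
  have hNc : Ideal.absNorm (Ideal.span {c}) = 1 := by
    have e : Ideal.span {J} = Ideal.span {β} * Ideal.span {c} := by
      rw [Ideal.span_singleton_mul_span_singleton, hc]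
    rw [e, map_mul, hN] at hNJ
    have h0 : 0 < Fintype.card k := Fintype.card_pos
    exact Nat.eq_of_mul_eq_mul_left h0 (by rw [hNJ, mul_one])
  have hcu : IsUnit c := by
    rw [Ideal.absNorm_eq_one_iff, Ideal.span_singleton_eq_top] at hNc
    exact hNc
  obtain ⟨d, hd⟩ := h.unit hcu
  -- the congruence modulo 2
  have hi1 : i ≠ 1 := by
    intro e
    have h1 := h.sq
    rw [e, one_pow] at h1
    have h2 : (2 : 𝓞 K) = 0 := by linear_combination h1
    exact two_ne_zero h2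
  have hprim : IsPrimitiveRoot i 4 := by
    refine IsPrimitiveRoot.mk_of_lt i (by norm_num) h.pow_four ?_
    intro l hl hl4 hl1
    interval_cases l
    · rw [pow_one] at hl1
      exact hi1 hl1
    · have h1 := h.sq
      rw [hl1] at h1
      have h2 : (2 : 𝓞 K) = 0 := by linear_combination h1
      exact two_ne_zero h2
    · apply hi1
      have h1 := h.pow_four
      rw [pow_succ, hl1, one_mul] at h1
      exact h1
  obtain ⟨z, -, hz⟩ := exists_jacobiSum_eq_neg_one_add (by norm_num) hχ4 hχ4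
    (by rw [hq]; exact Dvd.intro _ rfl) hprim
  rw [← hJ] at hz
  have hJ2 : (2 : 𝓞 K) ∣ J + 1 := by
    refine ⟨-(z * i), ?_⟩
    rw [hz]
    linear_combination z * h.sq
  have hc2 : (2 : 𝓞 K) ∣ c + 1 := by
    have e : c + 1 = (J + 1) - (β - 1) * c := by
      rw [hc]
      ring
    rw [e]
    exact dvd_sub hJ2 (hβ.mul_right c)
  have h2 : (2 : 𝓞 K) = ((2 : ℤ) : 𝓞 K) := by norm_num
  have hd4 : ∀ d : ZMod 4, d = 0 ∨ d = 1 ∨ d = 2 ∨ d = 3 := by decide
  rcases hd4 d with rfl | rfl | rfl | rfl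
  · rw [w_zero] at hd
    rw [hc, hd, mul_one]
  · exfalso
    rw [h.w_one] at hd
    have e : c + 1 = ((1 : ℤ) : 𝓞 K) + ((1 : ℤ) : 𝓞 K) * i := by
      rw [hd]
      push_cast
      ring
    rw [e, h2, h.int_dvd] at hc2
    have := hc2.1
    omega
  · rw [h.w_two] at hd
    rw [hc, hd]
    ring
  · exfalso
    rw [h.w_three] at hd
    have e : c + 1 = ((1 : ℤ) : 𝓞 K) + ((-1 : ℤ) : 𝓞 K) * i := by
      rw [hd]
      push_cast
      ring
    rw [e, h2, h.int_dvd] at hc2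
    have := hc2.1
    omega

end Pool.Agent.Lib.MP_1a91b9_nuX.HQ
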