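import Pool.Agent.Lib.MP_1a91b9_nuX.HQ.Cas
import Pool.Agent.Lib.MP_1a91b9_nuX.HQ.Ch
import Pool.Agent.Lib.MP_1a91b9_nuX.HQ.Ja
import Pool.Agent.Lib.MP_1a91b9_nuX.HQ.Gs

/-!
# The reciprocity between a prime `β ≡ 1` modulo `2` and a prime number

PROOF (complete). Model: `Gb.lean` in `Pool/Agent/Lib/MP_1a91b9_ntX/R/` (on main, in `outputs/live`). `P := span {β}`, `G4.cases`.
Case 1, `N P = p` prime: `k := 𝓞 K ⧸ P`, `F := 𝓞 K ⧸ Q` are finite fields with `N P`, `N Q` elements, of different characteristics because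
`(N P : 𝓞 K) ∉ Q` (see `Gb_main`). `χ` from `exists_char` (`ρ = Ideal.Quotient.mk P`), `jac_sq`: `jacobiSum χ χ ^ 2 = β ^ 2`. `σ := Ideal.Quotient.mk Q`, `χ' := χ.ringHomComp σ`:
`χ' ^ 4 = 1`, `χ' ^ 2 ≠ 1`: there is `x` with `χ x ^ 2 ≠ 1`, `χ x = w i c`, `w i (2 c) ≠ 1` and `G4.inj` for `Q`. `jacobiSum_ringHomComp`. For an integer `a ∉ P`:
`χ (mk a) = w i (qs i P a)`: it is some `w i c` and `ρ (w i c) = ρ a ^ m`; `qs_eq`. `rq_one`: `gs4_one`. `rq_three`: `Q = span {q}`, `ringChar F = q`: `gs4_three`.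
Case 2, `P = span {p}`, `p % 4 = 3`, `β = ± p` or `± i p` up to a unit, in any case `β = u * p` with `u = w i c` (`Ideal.span_singleton_eq_span_singleton`, `GI.unit`), `2 ∣ β - 1`
and `p` odd force `u = ± 1` (`GI.int_dvd`), so `β ^ 2 = p ^ 2`, `N P = p ^ 2` (`GI.absNorm_nat`), `N P * β ^ 2 = p ^ 4`. `rq_one`: `qs i P q = 0` (`qs_int`), `(p ^ 4) ^ ((q - 1) / 4) = p ^ (q - 1)`
is `1` modulo `q ∈ Q` (`ZMod.pow_card_sub_one_eq_one`, `p ≠ q`). `rq_three`: `qs i P (-q) = 0` (`qs_int` with `n = -q`), `(p ^ 4) ^ ((q + 1) / 4) = p ^ (q + 1) ≡ p ^ 2`.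
-/

set_option autoImplicit false

namespace Pool.Agent.Lib.MP_1a91b9_nuX.HQ

open NumberField

variable {K : Type} [Field K] [NumberField K] {i : 𝓞 K}

private theorem Rq_core (h : GI i) {k F : Type} [Field k] [Fintype k] [Field F] [Fintype F]
    {β : 𝓞 K} (hβ : (2 : 𝓞 K) ∣ β - 1) (hP : G4 (Ideal.span {β})) {Q : Ideal (𝓞 K)} (hQ : G4 Q)
    (ρ : 𝓞 K →+* k) (hker : RingHom.ker ρ = Ideal.span {β})
    (hk : Fintype.card k = Ideal.absNorm (Ideal.span {β}))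
    (σ : 𝓞 K →+* F) (hkerσ : RingHom.ker σ = Q) :
    ∃ χ : MulChar k F, χ ^ 4 = 1 ∧ χ ^ 2 ≠ 1 ∧ jacobiSum χ χ ^ 2 = σ (β ^ 2) ∧
      ∀ x : 𝓞 K, x ∉ Ideal.span {β} → χ (ρ x) = σ (w i (qs i (Ideal.span {β}) x)) := by
  classical
  have hρ0 : ∀ x : 𝓞 K, ρ x = 0 ↔ x ∈ Ideal.span {β} := by
    intro x
    rw [← hker, RingHom.mem_ker]
  have hσ0 : ∀ x : 𝓞 K, σ x = 0 ↔ x ∈ Q := by
    intro x
    rw [← hkerσ, RingHom.mem_ker]
  have h2k : (2 : k) ≠ 0 := by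
    intro h0
    apply hP.two
    rw [← hρ0, map_ofNat]
    exact h0
  obtain ⟨m, hm⟩ := hP.dvd h
  have hq : Fintype.card k - 1 = 4 * m := by rw [hk, hm]
  obtain ⟨χ, hχ4, hχ2, hχρ, hχv⟩ := exists_char h ρ h2k m hq
  have hJ := jac_sq h ρ hβ hker hk.symm m hq χ hχ4 hχ2 hχρ hχv
  have hσinj : ∀ c d : ZMod 4, σ (w i c) = σ (w i d) → c = d := by
    intro c d h0
    apply hQ.inj h
    rw [← hσ0, map_sub, h0, sub_self]
  refine ⟨χ.ringHomComp σ, ?_, ?_, ?_, ?_⟩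
  · rw [MulChar.ringHomComp_pow, hχ4, MulChar.ringHomComp_one]
  · intro h1
    apply hχ2
    ext x
    obtain ⟨c, hc⟩ := hχv x x.ne_zero
    have h2 : ((χ.ringHomComp σ) ^ 2) x = 1 := by
      rw [h1, MulChar.one_apply_coe]
    rw [MulChar.pow_apply_coe, MulChar.ringHomComp_apply, hc, ← map_pow, h.w_pow] at h2
    have h3 : ((2 : ℕ) : ZMod 4) * c = 0 := by
      apply hσinj
      rw [h2, w_zero, map_one]
    rw [MulChar.pow_apply_coe, hc, h.w_pow, h3, w_zero, MulChar.one_apply_coe]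
  · rw [jacobiSum_ringHomComp, ← map_pow, hJ]
  · intro x hx
    have hx' : ρ x ≠ 0 := fun h0 => hx ((hρ0 x).1 h0)
    obtain ⟨c, hc⟩ := hχv _ hx'
    have hcq : qs i (Ideal.span {β}) x = c := by
      apply qs_eq h hP hx
      rw [← hρ0, map_sub, ← hc, hχρ, map_pow]
      have e : (Ideal.absNorm (Ideal.span {β}) - 1) / 4 = m := by
        rw [hm]
        omega
      rw [e, sub_self]
    rw [MulChar.ringHomComp_apply, hc, hcq]

private theorem Rq_char {k F : Type} [Field k] [Fintype k] [Field F] [Fintype F]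
    {β : 𝓞 K} {Q : Ideal (𝓞 K)} (hn : ((Ideal.absNorm (Ideal.span {β}) : ℕ) : 𝓞 K) ∉ Q)
    (hk : Fintype.card k = Ideal.absNorm (Ideal.span {β}))
    (σ : 𝓞 K →+* F) (hkerσ : RingHom.ker σ = Q) : ringChar F ≠ ringChar k := by
  obtain ⟨a, hpa, hka⟩ := FiniteField.card k (ringChar k)
  intro h0
  apply hn
  rw [← hkerσ, RingHom.mem_ker, ← hk, map_natCast, hka, ← h0, Nat.cast_pow, CharP.cast_eq_zero,
    zero_pow (PNat.ne_zero a)]

omit [NumberField K] in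
private theorem Rq_notMem {k F : Type} [Field k] [Fintype k] [Field F] [Fintype F]
    {β : 𝓞 K} (hchar : ringChar F ≠ ringChar k) (ρ : 𝓞 K →+* k)
    (hker : RingHom.ker ρ = Ideal.span {β}) {q : ℕ} (hq : q.Prime) (hF : ((q : ℕ) : F) = 0) :
    ((q : ℕ) : 𝓞 K) ∉ Ideal.span {β} := by
  obtain ⟨a, hpa, hka⟩ := FiniteField.card k (ringChar k)
  obtain ⟨b, hpb, hFb⟩ := FiniteField.card F (ringChar F)
  rw [ringChar.spec, Nat.prime_dvd_prime_iff_eq hpb hq] at hF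
  intro h0
  rw [← hker, RingHom.mem_ker, map_natCast, ringChar.spec, Nat.prime_dvd_prime_iff_eq hpa hq] at h0
  exact hchar (hF.trans h0.symm)

private theorem Rq_one_main (h : GI i) {k F : Type} [Field k] [Fintype k] [Field F] [Fintype F]
    {β : 𝓞 K} (hβ : (2 : 𝓞 K) ∣ β - 1) (hP : G4 (Ideal.span {β})) {q : ℕ} (hq : q.Prime)
    {Q : Ideal (𝓞 K)} (hQ : G4 Q) (hN : Ideal.absNorm Q = q)
    (hn : ((Ideal.absNorm (Ideal.span {β}) : ℕ) : 𝓞 K) ∉ Q)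
    (ρ : 𝓞 K →+* k) (hker : RingHom.ker ρ = Ideal.span {β})
    (hk : Fintype.card k = Ideal.absNorm (Ideal.span {β}))
    (σ : 𝓞 K →+* F) (hkerσ : RingHom.ker σ = Q) (hF : Fintype.card F = Ideal.absNorm Q) :
    (((Ideal.absNorm (Ideal.span {β}) : ℕ) : 𝓞 K) * β ^ 2) ^ ((q - 1) / 4) *
      w i (qs i (Ideal.span {β}) (q : 𝓞 K)) - 1 ∈ Q := by
  have hchar := Rq_char (k := k) hn hk σ hkerσ
  obtain ⟨χ, h4, h2, hJ, hχ⟩ := Rq_core h hβ hP hQ ρ hker hk σ hkerσ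
  have hFq : Fintype.card F = q := hF.trans hN
  have hq4 : 4 ∣ Fintype.card F - 1 := by
    rw [hF]
    exact hQ.dvd h
  have hq0 : ((q : ℕ) : F) = 0 := by
    rw [← hFq]
    exact Nat.cast_card_eq_zero F
  have hqP := Rq_notMem hchar ρ hker hq hq0
  have hgs := gs4_one hchar χ h4 h2 hq4
  have hx := hχ _ hqP
  rw [map_natCast] at hx
  rw [hFq, hJ, hx, hk] at hgs
  rw [← hkerσ, RingHom.mem_ker, map_sub, map_mul, map_pow, map_mul, map_natCast, map_one, hgs,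
    sub_self]

private theorem Rq_three_main (h : GI i) {k F : Type} [Field k] [Fintype k] [Field F] [Fintype F]
    {β : 𝓞 K} (hβ : (2 : 𝓞 K) ∣ β - 1) (hP : G4 (Ideal.span {β})) {q : ℕ} (hq : q.Prime)
    (h3 : q % 4 = 3)
    (hn : ((Ideal.absNorm (Ideal.span {β}) : ℕ) : 𝓞 K) ∉ Ideal.span {(q : 𝓞 K)})
    (ρ : 𝓞 K →+* k) (hker : RingHom.ker ρ = Ideal.span {β})
    (hk : Fintype.card k = Ideal.absNorm (Ideal.span {β}))
    (σ : 𝓞 K →+* F) (hkerσ : RingHom.ker σ = Ideal.span {(q : 𝓞 K)}) :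
    (((Ideal.absNorm (Ideal.span {β}) : ℕ) : 𝓞 K) * β ^ 2) ^ ((q + 1) / 4) -
      w i (qs i (Ideal.span {β}) (-(q : 𝓞 K))) *
        ((Ideal.absNorm (Ideal.span {β}) : ℕ) : 𝓞 K) ∈ Ideal.span {(q : 𝓞 K)} := by
  have hchar := Rq_char (k := k) hn hk σ hkerσ
  obtain ⟨χ, h4, h2, hJ, hχ⟩ := Rq_core h hβ hP (G4_span h hq h3) ρ hker hk σ hkerσ
  have hq0 : ((q : ℕ) : F) = 0 := by
    rw [← map_natCast σ, ← RingHom.mem_ker, hkerσ]
    exact Ideal.mem_span_singleton_self _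
  obtain ⟨b, hpb, hFb⟩ := FiniteField.card F (ringChar F)
  have hring : ringChar F = q := by
    have h0 := hq0
    rw [ringChar.spec, Nat.prime_dvd_prime_iff_eq hpb hq] at h0
    exact h0
  have hqP := Rq_notMem hchar ρ hker hq hq0
  have hqP' : -((q : ℕ) : 𝓞 K) ∉ Ideal.span {β} := by
    intro h0
    exact hqP (by simpa using (Ideal.span {β}).neg_mem h0)
  have hgs := gs4_three hchar χ h4 h2 (by rw [hring]; exact h3)
  have hx := hχ _ hqP'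
  rw [map_neg, map_natCast] at hx
  rw [hring, hJ, hx, hk] at hgs
  rw [← hkerσ, RingHom.mem_ker, map_sub, map_mul, map_pow, map_mul, map_natCast, hgs, sub_self]

theorem rq_one (h : GI i) {β : 𝓞 K} (hβ : (2 : 𝓞 K) ∣ β - 1) (hP : G4 (Ideal.span {β}))
    {q : ℕ} (hq : q.Prime) {Q : Ideal (𝓞 K)} (hQ : G4 Q) (hN : Ideal.absNorm Q = q)
    (hn : ((Ideal.absNorm (Ideal.span {β}) : ℕ) : 𝓞 K) ∉ Q) :
    (((Ideal.absNorm (Ideal.span {β}) : ℕ) : 𝓞 K) * β ^ 2) ^ ((q - 1) / 4) *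
      w i (qs i (Ideal.span {β}) (q : 𝓞 K)) - 1 ∈ Q := by
  classical
  have hmaxP : (Ideal.span {β}).IsMaximal := hP.pr.isMaximal hP.ne
  have hmaxQ : Q.IsMaximal := hQ.pr.isMaximal hQ.ne
  let _ : Field (𝓞 K ⧸ Ideal.span {β}) := Ideal.Quotient.field _
  let _ : Field (𝓞 K ⧸ Q) := Ideal.Quotient.field _
  have hfin : Finite (𝓞 K ⧸ Ideal.span {β}) :=
    (Ideal.span {β}).finiteQuotientOfFreeOfNeBot hP.ne
  have hfin' : Finite (𝓞 K ⧸ Q) := Q.finiteQuotientOfFreeOfNeBot hQ.ne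
  have := Fintype.ofFinite (𝓞 K ⧸ Ideal.span {β})
  have := Fintype.ofFinite (𝓞 K ⧸ Q)
  refine Rq_one_main h hβ hP hq hQ hN hn (Ideal.Quotient.mk (Ideal.span {β})) Ideal.mk_ker ?_
    (Ideal.Quotient.mk Q) Ideal.mk_ker ?_
  · rw [Ideal.absNorm_apply, Submodule.cardQuot_apply, Nat.card_eq_fintype_card]
  · rw [Ideal.absNorm_apply, Submodule.cardQuot_apply, Nat.card_eq_fintype_card]

theorem rq_three (h : GI i) {β : 𝓞 K} (hβ : (2 : 𝓞 K) ∣ β - 1) (hP : G4 (Ideal.span {β}))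
    {q : ℕ} (hq : q.Prime) (h3 : q % 4 = 3)
    (hn : ((Ideal.absNorm (Ideal.span {β}) : ℕ) : 𝓞 K) ∉ Ideal.span {(q : 𝓞 K)}) :
    (((Ideal.absNorm (Ideal.span {β}) : ℕ) : 𝓞 K) * β ^ 2) ^ ((q + 1) / 4) -
      w i (qs i (Ideal.span {β}) (-(q : 𝓞 K))) *
        ((Ideal.absNorm (Ideal.span {β}) : ℕ) : 𝓞 K) ∈ Ideal.span {(q : 𝓞 K)} := by
  classical
  have hQ := G4_span h hq h3
  have hmaxP : (Ideal.span {β}).IsMaximal := hP.pr.isMaximal hP.ne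
  have hmaxQ : (Ideal.span {(q : 𝓞 K)}).IsMaximal := hQ.pr.isMaximal hQ.ne
  let _ : Field (𝓞 K ⧸ Ideal.span {β}) := Ideal.Quotient.field _
  let _ : Field (𝓞 K ⧸ Ideal.span {(q : 𝓞 K)}) := Ideal.Quotient.field _
  have hfin : Finite (𝓞 K ⧸ Ideal.span {β}) :=
    (Ideal.span {β}).finiteQuotientOfFreeOfNeBot hP.ne
  have hfin' : Finite (𝓞 K ⧸ Ideal.span {(q : 𝓞 K)}) :=
    (Ideal.span {(q : 𝓞 K)}).finiteQuotientOfFreeOfNeBot hQ.ne
  have := Fintype.ofFinite (𝓞 K ⧸ Ideal.span {β})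
  have := Fintype.ofFinite (𝓞 K ⧸ Ideal.span {(q : 𝓞 K)})
  refine Rq_three_main h hβ hP hq h3 hn (Ideal.Quotient.mk (Ideal.span {β})) Ideal.mk_ker ?_
    (Ideal.Quotient.mk (Ideal.span {(q : 𝓞 K)})) Ideal.mk_ker
  rw [Ideal.absNorm_apply, Submodule.cardQuot_apply, Nat.card_eq_fintype_card]

end Pool.Agent.Lib.MP_1a91b9_nuX.HQ
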