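import Pool.Agent.Lib.MP_1a91b9_nuX.HQ.Cas

/-!
# The biquadratic character of `2`

PROOF (complete; Dirichlet). `β = a + 2 b i`, `P = span {β}`, `G4.cases`.
Case `P = span {p}`, `p % 4 = 3`: `qs i P 2 = 0` (`qs_int`; `2 ∉ P`). `p ∣ β`, so `p ∣ 2 b`, `p ∣ b` and `p ∣ a` (`GI.int_dvd`), and `N P = a ^ 2 + 4 b ^ 2 = p ^ 2`
(`GI.absNorm_form`, `GI.absNorm_nat`): `a` is odd so not `0`, `a = p a'`, `b = p b'`, `a' ^ 2 + 4 b' ^ 2 = 1`: `b' = 0`, `b = 0`.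
Case `N P = p` prime, `p = a ^ 2 + 4 b ^ 2` (`GI.absNorm_form`). Put `B = 2 b`. In `𝓞 K`: `B - a i = -i β ∈ P` and `p ∈ P`, so
`(a + B) ^ 2 - 2 a ^ 2 i ∈ P` (`(a + B) ^ 2 = a ^ 2 + B ^ 2 + 2 a B`, `a ^ 2 + B ^ 2 = p`). `a ∉ P`, `a + B ∉ P` (`mem_int`: `p ∣ a` would give `p ∣ B ^ 2`, `p ∣ B`,
`p ^ 2 ∣ p`; `p ∣ a + B` gives `p ∣ 2 a B` as `(a+B)^2 = p + 2 a B`, so `p ∣ a` or `p ∣ B`). `qs_congr`, `qs_mul`, `qs_pow`, `qs_i`:
`2 * qs (a + B) = qs 2 + 2 * qs a + (p - 1) / 4` in `ZMod 4`.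
For an integer `c` prime to `p`: `2 * qs i P c = 0` if the Legendre symbol `(c / p)` is `1` and `= 2` if it is `-1`: `qs_sq` and
`legendreSym.eq_pow` / `ZMod.euler_criterion` (the integer `c ^ ((p - 1) / 2) ∓ 1` is divisible by `p`), `G4.inj`.
`(a / p) = 1`: `p % 4 = 1`, Jacobi reciprocity `jacobiSym.quadratic_reciprocity_one_mod_four`: `(a / p) = (p / |a|)` (first `(a / p) = (|a| / p)` since `(-1 / p) = 1`) and
`p ≡ B ^ 2` modulo `|a|`, prime to `a`: `jacobiSym.sq_one'`. `((a + B) / p) = (p / |a + B|)` in the same way (`a + B` is odd) and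
`(2 / |a + B|) (p / |a + B|) = (2 p / |a + B|) = 1` as `2 p = (a + B) ^ 2 + (a - B) ^ 2` and `a - B` is prime to `a + B` (a common prime divisor is odd and divides `2 a`, `2 B`,
so `p`, so ...). `(2 / n) = χ₈ n` (`jacobiSym.at_two`), which depends on `n` modulo `8` and is even, so it is `1` iff `a + B ≡ ± 1` modulo `8`.
Finally with `a = 2 s + 1`: `(p - 1) / 4 = s ^ 2 + s + b ^ 2`, `a + B = 2 (s + b) + 1`, and `2 qs (a + B) = (s + b) (s + b + 1)` in `ZMod 4`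
(check modulo `8`: it is `0` for `s + b ≡ 0, 3` modulo `4` and `2` for `1, 2`), so `qs 2 = (s + b) (s + b + 1) - s ^ 2 - s - b ^ 2 = b (2 s + 1) = a b`.
-/

set_option autoImplicit false

namespace Pool.Agent.Lib.MP_1a91b9_nuX.HQ

open NumberField

variable {K : Type} [Field K] [NumberField K] {i : 𝓞 K}

private theorem Tw_flip {p : ℕ} (hp4 : p % 4 = 1) {c : ℤ} (hc : Odd c) :
    jacobiSym c p = jacobiSym (p : ℤ) c.natAbs := by
  have hodd : Odd p := Nat.odd_iff.mpr (by omega)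
  have hn : Odd c.natAbs := Int.natAbs_odd.mpr hc
  have h1 : jacobiSym ((c.natAbs : ℕ) : ℤ) p = jacobiSym (p : ℤ) c.natAbs :=
    (jacobiSym.quadratic_reciprocity_one_mod_four hp4 hn).symm
  rcases Int.natAbs_eq c with h | h
  · exact (congrArg (fun t => jacobiSym t p) h).trans h1
  · refine (congrArg (fun t => jacobiSym t p) h).trans ?_
    beta_reduce
    rw [jacobiSym.neg _ hodd, ZMod.χ₄_nat_one_mod_four hp4, one_mul, h1]

private theorem Tw_gcd {x y : ℤ} (h : IsCoprime x y) : x.gcd ((y.natAbs : ℕ) : ℤ) = 1 := by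
  have h1 : x.gcd y = 1 := Int.isCoprime_iff_gcd_eq_one.mp h
  change Nat.gcd x.natAbs (((y.natAbs : ℕ) : ℤ)).natAbs = 1
  rw [Int.natAbs_natCast]
  exact h1

private theorem Tw_mod {x y c : ℤ} (h : c ∣ y - x) (n : ℕ) (hn : n = c.natAbs) :
    jacobiSym x n = jacobiSym y n := by
  apply jacobiSym.mod_left'
  have h1 : x ≡ y [ZMOD (n : ℤ)] := by
    rw [Int.modEq_iff_dvd, hn, Int.natAbs_dvd]
    exact h
  exact h1

private theorem Tw_a {p : ℕ} (hp4 : p % 4 = 1) {a B : ℤ} (ha : Odd a) (hpab : (p : ℤ) = a ^ 2 + B ^ 2)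
    (hco : IsCoprime a B) : jacobiSym a p = 1 := by
  rw [Tw_flip hp4 ha, Tw_mod (x := (p : ℤ)) (y := B ^ 2) (c := a) ⟨-a, by rw [hpab]; ring⟩ _ rfl]
  exact jacobiSym.sq_one' (Tw_gcd hco.symm)

private theorem Tw_ab {p : ℕ} (hp4 : p % 4 = 1) {a B t : ℤ} (ht : a + B = 2 * t + 1)
    (hpab : (p : ℤ) = a ^ 2 + B ^ 2) (hco : IsCoprime a B) :
    jacobiSym (a + B) p = ZMod.χ₈ ((a + B).natAbs : ℕ) := by
  have hodd : Odd (a + B) := ⟨t, ht⟩
  have hn : Odd (a + B).natAbs := Int.natAbs_odd.mpr hodd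
  obtain ⟨u, v, huv⟩ := hco
  have h1 : IsCoprime (a + B) a := ⟨v, u - v, by linear_combination huv⟩
  have h2 : IsCoprime (a + B) 2 := ⟨1, -t, by rw [ht]; ring⟩
  obtain ⟨x, y, hxy⟩ := h2.mul_right h1
  have h4 : IsCoprime (a - B) (a + B) := ⟨y, x + y, by linear_combination hxy⟩
  rw [Tw_flip hp4 hodd, ← jacobiSym.at_two hn]
  have h5 : jacobiSym 2 (a + B).natAbs * jacobiSym (p : ℤ) (a + B).natAbs = 1 := by
    rw [← jacobiSym.mul_left, Tw_mod (x := 2 * (p : ℤ)) (y := (a - B) ^ 2) (c := a + B)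
      ⟨-(a + B), by rw [hpab]; ring⟩ _ rfl]
    exact jacobiSym.sq_one' (Tw_gcd h4)
  rcases Int.mul_eq_one_iff_eq_one_or_neg_one.mp h5 with h6 | h6
  · rw [h6.1, h6.2]
  · rw [h6.1, h6.2]

private theorem Tw_leg (h : GI i) {P : Ideal (𝓞 K)} (hP : G4 P) {p : ℕ} (hp : p.Prime)
    (hp4 : p % 4 = 1) (hN : Ideal.absNorm P = p) {c : ℤ} (hc : (c : 𝓞 K) ∉ P) :
    (jacobiSym c p = 1 → 2 * qs i P (c : 𝓞 K) = 0) ∧
      (jacobiSym c p = -1 → 2 * qs i P (c : 𝓞 K) = 2) := by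
  have : Fact p.Prime := ⟨hp⟩
  have h1 := qs_sq h hP hc
  have h2 : (Ideal.absNorm P - 1) / 2 = p / 2 := by
    rw [hN]
    omega
  rw [h2] at h1
  have h3 : (p : ℤ) ∣ c ^ (p / 2) - jacobiSym c p := by
    rw [← ZMod.intCast_eq_intCast_iff_dvd_sub, ← jacobiSym.legendreSym.to_jacobiSym,
      legendreSym.eq_pow, Int.cast_pow]
  have h4 : ((c ^ (p / 2) - jacobiSym c p : ℤ) : 𝓞 K) ∈ P := (mem_int hP hp hN _).mpr h3
  have h5 : w i (2 * qs i P (c : 𝓞 K)) - ((jacobiSym c p : ℤ) : 𝓞 K) ∈ P := by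
    have h6 := P.add_mem h1 h4
    push_cast at h6
    rwa [sub_add_sub_cancel] at h6
  constructor
  · intro h7
    apply hP.inj h
    rw [w_zero]
    rw [h7, Int.cast_one] at h5
    exact h5
  · intro h7
    apply hP.inj h
    rw [h.w_two]
    rw [h7, Int.cast_neg, Int.cast_one] at h5
    exact h5

private theorem Tw_four (x : ℤ) (r : ℕ) : ((4 * x + r : ℤ) : ZMod 4) = (r : ZMod 4) := by
  have h4 : (4 : ZMod 4) = 0 := by decide
  push_cast
  rw [h4, zero_mul, zero_add]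

private theorem Tw_t {t x : ℤ} (hx : x = 2 * t + 1) {L : ℤ} (hL : L = ZMod.χ₈ (x.natAbs : ℕ))
    {e : ZMod 4} (h1 : L = 1 → e = 0) (h2 : L = -1 → e = 2) : e = ((t * (t + 1) : ℤ) : ZMod 4) := by
  rw [ZMod.χ₈_nat_eq_if_mod_eight] at hL
  have h3 : ¬ x.natAbs % 2 = 0 := by omega
  rw [if_neg h3] at hL
  have hr : t % 4 = 0 ∨ t % 4 = 1 ∨ t % 4 = 2 ∨ t % 4 = 3 := by omega
  obtain ⟨u, hu⟩ : ∃ u : ℤ, t = 4 * u + t % 4 := ⟨t / 4, by omega⟩
  rcases hr with hr | hr | hr | hr <;> rw [hr] at hu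
  · rw [if_pos (by omega)] at hL
    have h4 : t * (t + 1) = 4 * (u * (4 * u + 1)) + (0 : ℕ) := by
      rw [hu]
      push_cast
      ring
    rw [h1 hL, h4, Tw_four, Nat.cast_zero]
  · rw [if_neg (by omega)] at hL
    have h4 : t * (t + 1) = 4 * (4 * u ^ 2 + 3 * u) + (2 : ℕ) := by
      rw [hu]
      push_cast
      ring
    rw [h2 hL, h4, Tw_four, Nat.cast_ofNat]
  · rw [if_neg (by omega)] at hL
    have h4 : t * (t + 1) = 4 * (4 * u ^ 2 + 5 * u + 1) + (2 : ℕ) := by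
      rw [hu]
      push_cast
      ring
    rw [h2 hL, h4, Tw_four, Nat.cast_ofNat]
  · rw [if_pos (by omega)] at hL
    have h4 : t * (t + 1) = 4 * ((4 * u + 3) * (u + 1)) + (0 : ℕ) := by
      rw [hu]
      push_cast
      ring
    rw [h1 hL, h4, Tw_four, Nat.cast_zero]

theorem qs_two (h : GI i) {a b : ℤ} (ha : Odd a)
    (hP : G4 (Ideal.span {(a : 𝓞 K) + ((2 * b : ℤ) : 𝓞 K) * i})) :
    qs i (Ideal.span {(a : 𝓞 K) + ((2 * b : ℤ) : 𝓞 K) * i}) 2 = ((a * b : ℤ) : ZMod 4) := by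
  classical
  set β : 𝓞 K := (a : 𝓞 K) + ((2 * b : ℤ) : 𝓞 K) * i with hβ
  have hnorm := h.absNorm_form a (2 * b)
  rw [← hβ] at hnorm
  rcases G4.cases h hP with ⟨p, hp, hp4, hN⟩ | ⟨p, hp, hp4, hN⟩
  · rw [hN] at hnorm
    have hp' : Prime (p : ℤ) := Nat.prime_iff_prime_int.mp hp
    have hp0 : (0 : ℤ) < p := by exact_mod_cast hp.pos
    have hβP : β ∈ Ideal.span {β} := Ideal.mem_span_singleton_self β
    have hco : IsCoprime a (2 * b) := by
      rw [Int.isCoprime_iff_gcd_eq_one]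
      have hg1 : ((a.gcd (2 * b) : ℕ) : ℤ) ∣ a := Int.gcd_dvd_left _ _
      have hg2 : ((a.gcd (2 * b) : ℕ) : ℤ) ∣ 2 * b := Int.gcd_dvd_right _ _
      have hg3 : ((a.gcd (2 * b) : ℕ) : ℤ) * ((a.gcd (2 * b) : ℕ) : ℤ) ∣ (p : ℤ) := by
        rw [hnorm, sq, sq]
        exact dvd_add (mul_dvd_mul hg1 hg1) (mul_dvd_mul hg2 hg2)
      have hg4 : a.gcd (2 * b) * a.gcd (2 * b) ∣ p := by exact_mod_cast hg3
      exact Nat.isUnit_iff.mp (hp.prime.irreducible.squarefree _ hg4)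
    have hpa : ¬ (p : ℤ) ∣ a := by
      intro h1
      have h2 : (p : ℤ) ∣ (2 * b) ^ 2 := by
        have h3 : (2 * b) ^ 2 = (p : ℤ) - a * a := by rw [hnorm]; ring
        rw [h3]
        exact dvd_sub dvd_rfl (Dvd.dvd.mul_left h1 a)
      have h4 : (p : ℤ) ∣ 2 * b := hp'.dvd_of_dvd_pow h2
      exact hp'.not_unit (hco.isUnit_of_dvd' h1 h4)
    have hpB : ¬ (p : ℤ) ∣ 2 * b := by
      intro h1
      have h2 : (p : ℤ) ∣ a ^ 2 := by
        have h3 : a ^ 2 = (p : ℤ) - (2 * b) * (2 * b) := by rw [hnorm]; ring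
        rw [h3]
        exact dvd_sub dvd_rfl (Dvd.dvd.mul_left h1 _)
      exact hpa (hp'.dvd_of_dvd_pow h2)
    have hpab : ¬ (p : ℤ) ∣ a + 2 * b := by
      intro h1
      have h2 : (p : ℤ) ∣ 2 * a * (2 * b) := by
        have h3 : 2 * a * (2 * b) = (a + 2 * b) * (a + 2 * b) - (p : ℤ) := by rw [hnorm]; ring
        rw [h3]
        exact dvd_sub (Dvd.dvd.mul_left h1 _) dvd_rfl
      rcases hp'.dvd_or_dvd h2 with h4 | h4
      · rcases hp'.dvd_or_dvd h4 with h5 | h5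
        · have h6 : p ∣ 2 := by exact_mod_cast h5
          have h7 := Nat.le_of_dvd two_pos h6
          have h8 := hp.two_le
          omega
        · exact hpa h5
      · exact hpB h4
    have haP : (a : 𝓞 K) ∉ Ideal.span {β} := fun h1 => hpa ((mem_int hP hp hN a).mp h1)
    have habP : ((a + 2 * b : ℤ) : 𝓞 K) ∉ Ideal.span {β} :=
      fun h1 => hpab ((mem_int hP hp hN _).mp h1)
    have hiP : i ∉ Ideal.span {β} :=
      hP.unit_notMem (IsUnit.of_mul_eq_one (-i) (by linear_combination -h.sq))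
    have hpP : (p : 𝓞 K) ∈ Ideal.span {β} := by
      rw [← hN]
      exact Ideal.absNorm_mem _
    have hpK : (p : 𝓞 K) = (a : 𝓞 K) ^ 2 + ((2 * b : ℤ) : 𝓞 K) ^ 2 := by
      have h1 := congrArg (Int.cast : ℤ → 𝓞 K) hnorm
      rw [Int.cast_natCast, Int.cast_add, Int.cast_pow, Int.cast_pow] at h1
      exact h1
    -- the congruence
    have hcong : ((a + 2 * b : ℤ) : 𝓞 K) ^ 2 - 2 * (a : 𝓞 K) ^ 2 * i ∈ Ideal.span {β} := by
      have h1 : ((a + 2 * b : ℤ) : 𝓞 K) ^ 2 - 2 * (a : 𝓞 K) ^ 2 * i =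
          (p : 𝓞 K) + (-2 * (a : 𝓞 K) * i) * β := by
        rw [hpK, hβ, Int.cast_add]
        linear_combination (2 * (a : 𝓞 K) * ((2 * b : ℤ) : 𝓞 K)) * h.sq
      rw [h1]
      exact Ideal.add_mem _ hpP (Ideal.mul_mem_left _ _ hβP)
    have hprod2 : (2 : 𝓞 K) * (a : 𝓞 K) ^ 2 ∉ Ideal.span {β} := by
      intro h1
      rcases hP.pr.mem_or_mem h1 with h2 | h2
      · exact hP.two h2
      · exact haP (hP.pr.mem_of_pow_mem _ h2)
    have hsqP : ((a + 2 * b : ℤ) : 𝓞 K) ^ 2 ∉ Ideal.span {β} :=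
      fun h1 => habP (hP.pr.mem_of_pow_mem _ h1)
    have ha2P : (a : 𝓞 K) ^ 2 ∉ Ideal.span {β} := fun h1 => haP (hP.pr.mem_of_pow_mem _ h1)
    have hE := qs_congr h hP hsqP hcong
    rw [qs_pow h hP habP, qs_mul h hP hprod2 hiP, qs_mul h hP hP.two ha2P, qs_pow h hP haP,
      qs_i h hP, hN] at hE
    -- the quadratic symbols
    obtain ⟨s, hs⟩ := ha
    have hJa := Tw_a hp4 (a := a) (B := 2 * b) ⟨s, hs⟩ hnorm hco
    have hA := (Tw_leg h hP hp hp4 hN haP).1 hJa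
    have ht : a + 2 * b = 2 * (s + b) + 1 := by rw [hs]; ring
    have hJab := Tw_ab hp4 ht hnorm hco
    have hAB := Tw_leg h hP hp hp4 hN habP
    have hT := Tw_t ht hJab hAB.1 hAB.2
    have hq : (((p - 1) / 4 : ℕ) : ZMod 4) = ((s ^ 2 + s + b ^ 2 : ℤ) : ZMod 4) := by
      have h1 : (((p - 1) / 4 : ℕ) : ℤ) = s ^ 2 + s + b ^ 2 := by
        have h2 : (p : ℤ) = 4 * (s ^ 2 + s + b ^ 2) + 1 := by rw [hnorm, hs]; ring
        generalize s ^ 2 + s + b ^ 2 = z at *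
        omega
      rw [← h1, Int.cast_natCast]
    rw [hq] at hE
    push_cast at hE hT ⊢
    rw [hA, hT, add_zero] at hE
    rw [hs]
    push_cast
    linear_combination -hE
  · have hb : b = 0 := by
      have hNp : Ideal.absNorm (Ideal.span {β}) = p ^ 2 := by
        rw [hN]
        exact h.absNorm_nat p
      have hdvd : ((p : ℤ) : 𝓞 K) ∣ (a : 𝓞 K) + ((2 * b : ℤ) : 𝓞 K) * i := by
        rw [← Ideal.mem_span_singleton, Int.cast_natCast, ← hN]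
        exact Ideal.mem_span_singleton_self β
      rw [h.int_dvd] at hdvd
      obtain ⟨⟨a', ha'⟩, ⟨c, hc⟩⟩ := hdvd
      rw [hNp, hc] at hnorm
      rw [ha'] at hnorm ha
      have hp0 : (p : ℤ) ≠ 0 := by exact_mod_cast hp.ne_zero
      have h1 : a' ^ 2 + c ^ 2 = 1 := by
        apply mul_left_cancel₀ (pow_ne_zero 2 hp0)
        push_cast at hnorm
        linear_combination -hnorm
      have h2 : a' ≠ 0 := by
        rintro rfl
        rw [mul_zero] at ha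
        exact absurd ha (by decide)
      have h3 : 0 < a' ^ 2 := by positivity
      have h4 : c ^ 2 = 0 := by nlinarith [sq_nonneg c]
      have h5 : c = 0 := pow_eq_zero_iff two_ne_zero |>.mp h4
      rw [h5, mul_zero] at hc
      omega
    have h2 : ((2 : ℤ) : 𝓞 K) ∉ Ideal.span {(p : 𝓞 K)} := by
      rw [← hN]
      have h3 := hP.two
      rwa [Int.cast_ofNat]
    have hP' : G4 (Ideal.span {(p : 𝓞 K)}) := by
      rw [← hN]
      exact hP
    have h3 := qs_int h hp hp4 hP' 2 h2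
    rw [← hN, Int.cast_ofNat] at h3
    rw [h3, hb, mul_zero, Int.cast_zero]

end Pool.Agent.Lib.MP_1a91b9_nuX.HQ
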