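import Pool.Agent.Lib.MP_1a91b9_nuX.HQ.Sy
import Pool.Agent.Lib.MP_1a91b9_nuX.HQ.Rq
import Pool.Agent.Lib.MP_1a91b9_nuX.HQ.Tw

/-!
# Biquadratic reciprocity for rational integers: the symbol `(n / α)` is trivial for `α ≡ 1` modulo `8 n`

PROOF (complete). All four by `ind`.
`sy_i`: `M α := sy i (span {α}) i = (N α - 1) / 4` together with `N α % 4 = 1`; `sy_mul`, `sy_prime`, `qs_i`, `G4.dvd`; if `N₁ = 1 + 4 a`, `N₂ = 1 + 4 b` then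
`(N₁ N₂ - 1) / 4 = a + b + 4 a b`. For `α = ± 1`: `span = ⊤`, `sy_one`.
`sy_two`: `M α := ∀ a b, Odd a → α = a + 2 b i → sy i (span {α}) 2 = a b` (the coordinates are unique, `GI.inj`): `β = a + 2 b i`, `γ = a' + 2 b' i` (`GI.one_mod_two`), `β γ = (a a' - 4 b b') + 2 (a b' + a' b) i`
and `(a a' - 4 b b') (a b' + a' b) ≡ a ^ 2 a' b' + a' ^ 2 a b ≡ a' b' + a b` modulo `4` (`a ^ 2 ≡ 1` modulo `4`), `qs_two`.
`sy_q1`: `M α := (N α : 𝓞 K) ∉ Q → (N α * α ^ 2) ^ ((q - 1) / 4) * w i (sy i (span {α}) q) - 1 ∈ Q`: work in `𝓞 K ⧸ Q` or with congruences: product of the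
statements for `β` (`rq_one`) and `γ` (`GI.w_add`, norm multiplicative, `N (β γ) ∉ Q` implies both are not in `Q`).
`sy_q3`: `M α := (N α : 𝓞 K) ∉ span {q} → (N α * α ^ 2) ^ ((q + 1) / 4) - w i (sy i (span {α}) (-q)) * N α ∈ span {q}`, the same with `rq_three`. For `α = ± 1`: `sy_one`.
`sy_int_one`: `8 n ∣ α - 1`. First `n = -1`: `-1 = i ^ 2`, `sy_pow`, `sy_i`: `α = 1 + 8 (x + y i)`, `N α = (1 + 8 x) ^ 2 + 64 y ^ 2 ≡ 1` modulo `16`. `n = 2`: `sy_two`: `b ≡ 0` modulo `4`. `n = q` prime, `q % 4 = 1`: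
`Q` from `exists_Q`, `N α = α * cj α ≡ 1` modulo `q` (`GI.mul_cj`; `cj α - 1` is divisible by `q`, `q ∈ Q`), `N α ∉ Q`, so
`w i (sy ..) - 1 ∈ Q` and `G4.inj`. `q % 4 = 3`: `sy_q3` gives `w i (sy i (span {α}) (-q)) - 1 ∈ span {q}`, `G4_span`, `G4.inj`, and `sy (-q) = sy (-1) + sy q` (`sy_num`), `sy (-1) = 0`.
General `n`: induction on the prime factorization (`induction_on_primes` for `n.natAbs`), with `sy_num`; `α ≡ 1` modulo `8 n` is prime to `2` and to all divisors of `n`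
(`IsCoprime (span {α}) (span {x})` from `x ∣ α - 1`: `Ideal.isCoprime_span_singleton_iff`).
-/

set_option autoImplicit false

namespace Pool.Agent.Lib.MP_1a91b9_nuX.HQ

open NumberField

variable {K : Type} [Field K] [NumberField K] {i : 𝓞 K} [IsPrincipalIdealRing (𝓞 K)]

omit [IsPrincipalIdealRing (𝓞 K)] in
private theorem Fin_sy_mul {β γ : 𝓞 K} (hP : G4 (Ideal.span {β})) (hγ : γ ≠ 0) (x : 𝓞 K) :
    sy i (Ideal.span {β * γ}) x = qs i (Ideal.span {β}) x + sy i (Ideal.span {γ}) x := by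
  have hγ' : Ideal.span {γ} ≠ ⊥ := fun h0 => hγ (Ideal.span_singleton_eq_bot.1 h0)
  rw [← Ideal.span_singleton_mul_span_singleton, sy_mul hP.ne hγ', sy_prime hP.pr hP.ne]

omit [IsPrincipalIdealRing (𝓞 K)] in
private theorem Fin_norm_mul (β γ : 𝓞 K) : Ideal.absNorm (Ideal.span {β * γ}) =
    Ideal.absNorm (Ideal.span {β}) * Ideal.absNorm (Ideal.span {γ}) := by
  rw [← Ideal.span_singleton_mul_span_singleton, map_mul]

omit [IsPrincipalIdealRing (𝓞 K)] in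
private theorem Fin_sy_one (x : 𝓞 K) : sy i (Ideal.span {(1 : 𝓞 K)}) x = 0 := by
  rw [Ideal.span_singleton_one, ← Ideal.one_eq_top]
  exact sy_one x

omit [IsPrincipalIdealRing (𝓞 K)] in
private theorem Fin_sy_neg_one (x : 𝓞 K) : sy i (Ideal.span {(-1 : 𝓞 K)}) x = 0 := by
  rw [Ideal.span_singleton_neg]
  exact Fin_sy_one x

omit [IsPrincipalIdealRing (𝓞 K)] in
private theorem Fin_norm_one : Ideal.absNorm (Ideal.span {(1 : 𝓞 K)}) = 1 := by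
  rw [Ideal.span_singleton_one, Ideal.absNorm_top]

omit [IsPrincipalIdealRing (𝓞 K)] in
private theorem Fin_norm_neg_one : Ideal.absNorm (Ideal.span {(-1 : 𝓞 K)}) = 1 := by
  rw [Ideal.span_singleton_neg]
  exact Fin_norm_one

private theorem Fin_sq {a : ℤ} (ha : Odd a) : ((a : ℤ) : ZMod 4) ^ 2 = 1 := by
  obtain ⟨k, rfl⟩ := ha
  have h4 : (4 : ZMod 4) = 0 := rfl
  push_cast
  linear_combination ((k : ZMod 4) ^ 2 + (k : ZMod 4)) * h4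

omit [NumberField K] [IsPrincipalIdealRing (𝓞 K)] in
private theorem Fin_dvd {a b : ℤ} (ha : Odd a) :
    (2 : 𝓞 K) ∣ (a : 𝓞 K) + ((2 * b : ℤ) : 𝓞 K) * i - 1 := by
  obtain ⟨k, rfl⟩ := ha
  exact ⟨(k : 𝓞 K) + (b : 𝓞 K) * i, by push_cast; ring⟩

theorem sy_i (h : GI i) (α : 𝓞 K) (hα : (2 : 𝓞 K) ∣ α - 1) (h0 : α ≠ 0) :
    Ideal.absNorm (Ideal.span {α}) % 4 = 1 ∧ sy i (Ideal.span {α}) i =
      (((Ideal.absNorm (Ideal.span {α}) - 1) / 4 : ℕ) : ZMod 4) := by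
  refine ind h (M := fun α => Ideal.absNorm (Ideal.span {α}) % 4 = 1 ∧ sy i (Ideal.span {α}) i =
      (((Ideal.absNorm (Ideal.span {α}) - 1) / 4 : ℕ) : ZMod 4)) ?_ ?_ ?_ α hα h0
  · rw [Fin_norm_one, Fin_sy_one]
    exact ⟨rfl, by norm_num⟩
  · rw [Fin_norm_neg_one, Fin_sy_neg_one]
    exact ⟨rfl, by norm_num⟩
  · rintro β γ - - hγ hP ⟨h1, h2⟩
    have h3 := hP.dvd h
    have h4 := hP.one_lt
    rw [Fin_norm_mul, Fin_sy_mul hP hγ, qs_i h hP, h2]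
    obtain ⟨a, ha⟩ := h3
    have hb : ∃ b, Ideal.absNorm (Ideal.span {γ}) = 4 * b + 1 :=
      ⟨Ideal.absNorm (Ideal.span {γ}) / 4, by omega⟩
    obtain ⟨b, hb⟩ := hb
    have ha' : Ideal.absNorm (Ideal.span {β}) = 4 * a + 1 := by omega
    have hab : (4 * a + 1) * (4 * b + 1) = 4 * (a + b + 4 * (a * b)) + 1 := by ring
    have h5 : (4 : ZMod 4) = 0 := rfl
    rw [ha', hb, hab]
    constructor
    · omega
    · have e1 : (4 * a + 1 - 1) / 4 = a := by omega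
      have e2 : (4 * b + 1 - 1) / 4 = b := by omega
      have e3 : (4 * (a + b + 4 * (a * b)) + 1 - 1) / 4 = a + b + 4 * (a * b) := by omega
      rw [e1, e2, e3]
      push_cast
      linear_combination (-(a : ZMod 4) * (b : ZMod 4)) * h5

theorem sy_two (h : GI i) (a b : ℤ) (ha : Odd a) :
    sy i (Ideal.span {(a : 𝓞 K) + ((2 * b : ℤ) : 𝓞 K) * i}) 2 = ((a * b : ℤ) : ZMod 4) := by
  have h0 : (a : 𝓞 K) + ((2 * b : ℤ) : 𝓞 K) * i ≠ 0 := by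
    intro h0
    have e : (a : 𝓞 K) + ((2 * b : ℤ) : 𝓞 K) * i = ((0 : ℤ) : 𝓞 K) + ((0 : ℤ) : 𝓞 K) * i := by
      rw [h0]
      push_cast
      ring
    have := (h.inj e).1
    rw [this] at ha
    exact absurd ha (by decide)
  refine ind h (M := fun α => ∀ a b : ℤ, Odd a → α = (a : 𝓞 K) + ((2 * b : ℤ) : 𝓞 K) * i →
    sy i (Ideal.span {α}) 2 = ((a * b : ℤ) : ZMod 4)) ?_ ?_ ?_ _ (Fin_dvd ha) h0 a b ha rfl
  · intro a b _ e
    have e1 : ((1 : ℤ) : 𝓞 K) + ((0 : ℤ) : 𝓞 K) * i = (a : 𝓞 K) + ((2 * b : ℤ) : 𝓞 K) * i := by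
      rw [← e]
      push_cast
      ring
    obtain ⟨-, e3⟩ := h.inj e1
    have hb : b = 0 := by omega
    rw [Fin_sy_one, hb]
    simp
  · intro a b _ e
    have e1 : ((-1 : ℤ) : 𝓞 K) + ((0 : ℤ) : 𝓞 K) * i = (a : 𝓞 K) + ((2 * b : ℤ) : 𝓞 K) * i := by
      rw [← e]
      push_cast
      ring
    obtain ⟨-, e3⟩ := h.inj e1
    have hb : b = 0 := by omega
    rw [Fin_sy_neg_one, hb]
    simp
  · intro β γ hβ hγ2 hγ hP hM a b _ e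
    obtain ⟨a1, b1, ha1, e1⟩ := h.one_mod_two hβ
    obtain ⟨a2, b2, ha2, e2⟩ := h.one_mod_two hγ2
    have e3 : ((a1 * a2 - 4 * (b1 * b2) : ℤ) : 𝓞 K) + ((2 * (a1 * b2 + a2 * b1) : ℤ) : 𝓞 K) * i =
        (a : 𝓞 K) + ((2 * b : ℤ) : 𝓞 K) * i := by
      rw [← e, e1, e2]
      push_cast
      linear_combination (-4 * (b1 : 𝓞 K) * (b2 : 𝓞 K)) * h.sq
    obtain ⟨e4, e5⟩ := h.inj e3
    have e6 : b = a1 * b2 + a2 * b1 := by omega
    have hP' := hP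
    rw [e1] at hP'
    have e7 := qs_two h ha1 hP'
    rw [← e1] at e7
    rw [Fin_sy_mul hP hγ, hM a2 b2 ha2 e2, e7, ← e4, e6]
    have h1 := Fin_sq ha1
    have h2 := Fin_sq ha2
    have h4 : (4 : ZMod 4) = 0 := rfl
    push_cast
    linear_combination (-(a2 : ZMod 4) * (b2 : ZMod 4)) * h1 + (-(a1 : ZMod 4) * (b1 : ZMod 4)) * h2 +
      ((b1 : ZMod 4) * (b2 : ZMod 4) * ((a1 : ZMod 4) * (b2 : ZMod 4) + (a2 : ZMod 4) * (b1 : ZMod 4))) * h4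

theorem sy_q1 (h : GI i) {q : ℕ} (hq : q.Prime) {Q : Ideal (𝓞 K)} (hQ : G4 Q)
    (hN : Ideal.absNorm Q = q) (α : 𝓞 K) (hα : (2 : 𝓞 K) ∣ α - 1) (h0 : α ≠ 0)
    (hn : ((Ideal.absNorm (Ideal.span {α}) : ℕ) : 𝓞 K) ∉ Q) :
    (((Ideal.absNorm (Ideal.span {α}) : ℕ) : 𝓞 K) * α ^ 2) ^ ((q - 1) / 4) *
      w i (sy i (Ideal.span {α}) (q : 𝓞 K)) - 1 ∈ Q := by
  refine ind h (M := fun α => ((Ideal.absNorm (Ideal.span {α}) : ℕ) : 𝓞 K) ∉ Q →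
    (((Ideal.absNorm (Ideal.span {α}) : ℕ) : 𝓞 K) * α ^ 2) ^ ((q - 1) / 4) *
      w i (sy i (Ideal.span {α}) (q : 𝓞 K)) - 1 ∈ Q) ?_ ?_ ?_ α hα h0 hn
  · intro _
    rw [Fin_norm_one, Fin_sy_one, w_zero]
    simp
  · intro _
    rw [Fin_norm_neg_one, Fin_sy_neg_one, w_zero]
    simp
  · intro β γ hβ hγ2 hγ hP hM hn
    rw [Fin_norm_mul, Nat.cast_mul] at hn
    have hn1 : ((Ideal.absNorm (Ideal.span {β}) : ℕ) : 𝓞 K) ∉ Q := fun h1 => hn (Q.mul_mem_right _ h1)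
    have hn2 : ((Ideal.absNorm (Ideal.span {γ}) : ℕ) : 𝓞 K) ∉ Q := fun h1 => hn (Q.mul_mem_left _ h1)
    have h1 := rq_one h hβ hP hq hQ hN hn1
    have h2 := hM hn2
    rw [Fin_norm_mul, Nat.cast_mul, Fin_sy_mul hP hγ, h.w_add]
    have e : (((Ideal.absNorm (Ideal.span {β}) : ℕ) : 𝓞 K) * ((Ideal.absNorm (Ideal.span {γ}) : ℕ) : 𝓞 K) *
        (β * γ) ^ 2) ^ ((q - 1) / 4) * (w i (qs i (Ideal.span {β}) (q : 𝓞 K)) *
          w i (sy i (Ideal.span {γ}) (q : 𝓞 K))) - 1 =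
        ((((Ideal.absNorm (Ideal.span {β}) : ℕ) : 𝓞 K) * β ^ 2) ^ ((q - 1) / 4) *
          w i (qs i (Ideal.span {β}) (q : 𝓞 K)) - 1) *
        ((((Ideal.absNorm (Ideal.span {γ}) : ℕ) : 𝓞 K) * γ ^ 2) ^ ((q - 1) / 4) *
          w i (sy i (Ideal.span {γ}) (q : 𝓞 K))) +
        ((((Ideal.absNorm (Ideal.span {γ}) : ℕ) : 𝓞 K) * γ ^ 2) ^ ((q - 1) / 4) *
          w i (sy i (Ideal.span {γ}) (q : 𝓞 K)) - 1) := by
      have e1 : ((Ideal.absNorm (Ideal.span {β}) : ℕ) : 𝓞 K) * ((Ideal.absNorm (Ideal.span {γ}) : ℕ) : 𝓞 K) *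
        (β * γ) ^ 2 = (((Ideal.absNorm (Ideal.span {β}) : ℕ) : 𝓞 K) * β ^ 2) *
          (((Ideal.absNorm (Ideal.span {γ}) : ℕ) : 𝓞 K) * γ ^ 2) := by ring
      rw [e1, mul_pow]
      ring
    rw [e]
    exact Q.add_mem (Q.mul_mem_right _ h1) h2

theorem sy_q3 (h : GI i) {q : ℕ} (hq : q.Prime) (h3 : q % 4 = 3) (α : 𝓞 K)
    (hα : (2 : 𝓞 K) ∣ α - 1) (h0 : α ≠ 0)
    (hn : ((Ideal.absNorm (Ideal.span {α}) : ℕ) : 𝓞 K) ∉ Ideal.span {(q : 𝓞 K)}) :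
    (((Ideal.absNorm (Ideal.span {α}) : ℕ) : 𝓞 K) * α ^ 2) ^ ((q + 1) / 4) -
      w i (sy i (Ideal.span {α}) (-(q : 𝓞 K))) * ((Ideal.absNorm (Ideal.span {α}) : ℕ) : 𝓞 K) ∈
        Ideal.span {(q : 𝓞 K)} := by
  refine ind h (M := fun α => ((Ideal.absNorm (Ideal.span {α}) : ℕ) : 𝓞 K) ∉ Ideal.span {(q : 𝓞 K)} →
    (((Ideal.absNorm (Ideal.span {α}) : ℕ) : 𝓞 K) * α ^ 2) ^ ((q + 1) / 4) -
      w i (sy i (Ideal.span {α}) (-(q : 𝓞 K))) * ((Ideal.absNorm (Ideal.span {α}) : ℕ) : 𝓞 K) ∈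
        Ideal.span {(q : 𝓞 K)}) ?_ ?_ ?_ α hα h0 hn
  · intro _
    rw [Fin_norm_one, Fin_sy_one, w_zero]
    simp
  · intro _
    rw [Fin_norm_neg_one, Fin_sy_neg_one, w_zero]
    simp
  · intro β γ hβ hγ2 hγ hP hM hn
    rw [Fin_norm_mul, Nat.cast_mul] at hn
    have hn1 : ((Ideal.absNorm (Ideal.span {β}) : ℕ) : 𝓞 K) ∉ Ideal.span {(q : 𝓞 K)} :=
      fun h1 => hn (Ideal.mul_mem_right _ _ h1)
    have hn2 : ((Ideal.absNorm (Ideal.span {γ}) : ℕ) : 𝓞 K) ∉ Ideal.span {(q : 𝓞 K)} :=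
      fun h1 => hn (Ideal.mul_mem_left _ _ h1)
    have h1 := rq_three h hβ hP hq h3 hn1
    have h2 := hM hn2
    rw [Fin_norm_mul, Nat.cast_mul, Fin_sy_mul hP hγ, h.w_add]
    have e : (((Ideal.absNorm (Ideal.span {β}) : ℕ) : 𝓞 K) * ((Ideal.absNorm (Ideal.span {γ}) : ℕ) : 𝓞 K) *
        (β * γ) ^ 2) ^ ((q + 1) / 4) - (w i (qs i (Ideal.span {β}) (-(q : 𝓞 K))) *
          w i (sy i (Ideal.span {γ}) (-(q : 𝓞 K)))) *
          (((Ideal.absNorm (Ideal.span {β}) : ℕ) : 𝓞 K) * ((Ideal.absNorm (Ideal.span {γ}) : ℕ) : 𝓞 K)) =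
        ((((Ideal.absNorm (Ideal.span {β}) : ℕ) : 𝓞 K) * β ^ 2) ^ ((q + 1) / 4) -
          w i (qs i (Ideal.span {β}) (-(q : 𝓞 K))) * ((Ideal.absNorm (Ideal.span {β}) : ℕ) : 𝓞 K)) *
        ((((Ideal.absNorm (Ideal.span {γ}) : ℕ) : 𝓞 K) * γ ^ 2) ^ ((q + 1) / 4)) +
        (w i (qs i (Ideal.span {β}) (-(q : 𝓞 K))) * ((Ideal.absNorm (Ideal.span {β}) : ℕ) : 𝓞 K)) *
        ((((Ideal.absNorm (Ideal.span {γ}) : ℕ) : 𝓞 K) * γ ^ 2) ^ ((q + 1) / 4) -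
          w i (sy i (Ideal.span {γ}) (-(q : 𝓞 K))) * ((Ideal.absNorm (Ideal.span {γ}) : ℕ) : 𝓞 K)) := by
      have e1 : ((Ideal.absNorm (Ideal.span {β}) : ℕ) : 𝓞 K) * ((Ideal.absNorm (Ideal.span {γ}) : ℕ) : 𝓞 K) *
        (β * γ) ^ 2 = (((Ideal.absNorm (Ideal.span {β}) : ℕ) : 𝓞 K) * β ^ 2) *
          (((Ideal.absNorm (Ideal.span {γ}) : ℕ) : 𝓞 K) * γ ^ 2) := by ring
      rw [e1, mul_pow]
      ring
    rw [e]
    exact Ideal.add_mem _ (Ideal.mul_mem_right _ _ h1) (Ideal.mul_mem_left _ _ h2)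

omit [NumberField K] [IsPrincipalIdealRing (𝓞 K)] in
private theorem Fin_cop {α x : 𝓞 K} (hx : x ∣ α - 1) :
    IsCoprime (Ideal.span {α}) (Ideal.span {x}) := by
  rw [Ideal.isCoprime_span_singleton_iff]
  obtain ⟨c, hc⟩ := hx
  exact ⟨1, -c, by linear_combination hc⟩

omit [IsPrincipalIdealRing (𝓞 K)] in
private theorem Fin_ne (h : GI i) {α : 𝓞 K} (hα : (2 : 𝓞 K) ∣ α - 1) : α ≠ 0 := by
  rintro rfl
  have e : (0 : 𝓞 K) - 1 = ((-1 : ℤ) : 𝓞 K) + ((0 : ℤ) : 𝓞 K) * i := by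
    push_cast
    ring
  have e2 : (2 : 𝓞 K) = ((2 : ℤ) : 𝓞 K) := by norm_num
  rw [e, e2, h.int_dvd] at hα
  omega

private theorem Fin_i (h : GI i) {α : 𝓞 K} (hα : ((8 : ℤ) : 𝓞 K) ∣ α - 1) :
    sy i (Ideal.span {α}) i = 0 := by
  have h2 : (2 : 𝓞 K) ∣ α - 1 := Dvd.dvd.trans ⟨4, by push_cast; norm_num⟩ hα
  have h1 := (sy_i h α h2 (Fin_ne h h2)).2
  rw [h1]
  obtain ⟨c, hc⟩ := hα
  obtain ⟨x, y, rfl⟩ := h.gen c
  have e : α = ((1 + 8 * x : ℤ) : 𝓞 K) + ((8 * y : ℤ) : 𝓞 K) * i := by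
    push_cast
    push_cast at hc
    linear_combination hc
  have h3 := h.absNorm_form (1 + 8 * x) (8 * y)
  rw [← e] at h3
  have h4 : ((Ideal.absNorm (Ideal.span {α}) : ℕ) : ℤ) = 16 * (x + 4 * x ^ 2 + 4 * y ^ 2) + 1 := by
    rw [h3]
    ring
  obtain ⟨t, ht⟩ : ∃ t, t = x + 4 * x ^ 2 + 4 * y ^ 2 := ⟨_, rfl⟩
  rw [← ht] at h4
  rw [ZMod.natCast_eq_zero_iff]
  omega

private theorem Fin_neg (h : GI i) {α : 𝓞 K} (hα : ((8 : ℤ) : 𝓞 K) ∣ α - 1) :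
    sy i (Ideal.span {α}) (-1) = 0 := by
  have h2 : (2 : 𝓞 K) ∣ α - 1 := Dvd.dvd.trans ⟨4, by push_cast; norm_num⟩ hα
  have hi : IsCoprime (Ideal.span {α}) (Ideal.span {i}) := by
    rw [Ideal.isCoprime_span_singleton_iff]
    exact ⟨0, -i, by linear_combination -h.sq⟩
  rw [← h.sq, sy_pow h (Fin_cop h2) hi, Fin_i h hα, mul_zero]

private theorem Fin_prime (h : GI i) {q : ℕ} (hq : q.Prime) {α : 𝓞 K}
    (hα : ((8 * q : ℤ) : 𝓞 K) ∣ α - 1) : sy i (Ideal.span {α}) (q : 𝓞 K) = 0 := by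
  have h8 : ((8 : ℤ) : 𝓞 K) ∣ α - 1 := Dvd.dvd.trans ⟨(q : 𝓞 K), by push_cast; ring⟩ hα
  have h2 : (2 : 𝓞 K) ∣ α - 1 := Dvd.dvd.trans ⟨4, by push_cast; norm_num⟩ h8
  have hqα : (q : 𝓞 K) ∣ α - 1 := Dvd.dvd.trans ⟨8, by push_cast; ring⟩ hα
  have h0 := Fin_ne h h2
  -- everything is 1 modulo q
  have hcj : (q : 𝓞 K) ∣ h.cj α - 1 := by
    obtain ⟨c, hc⟩ := hqα
    refine ⟨h.cj c, ?_⟩
    have := congrArg h.cj hc
    rw [map_sub, map_one, map_mul, map_natCast] at this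
    exact this
  have hN1 : (q : 𝓞 K) ∣ ((Ideal.absNorm (Ideal.span {α}) : ℕ) : 𝓞 K) - 1 := by
    rw [← h.mul_cj]
    obtain ⟨c, hc⟩ := hqα
    obtain ⟨d, hd⟩ := hcj
    exact ⟨c * h.cj α + d, by linear_combination h.cj α * hc + hd⟩
  have hpw : ∀ m : ℕ, (q : 𝓞 K) ∣
      (((Ideal.absNorm (Ideal.span {α}) : ℕ) : 𝓞 K) * α ^ 2) ^ m - 1 := by
    intro m
    obtain ⟨c, hc⟩ := hqα
    obtain ⟨d, hd⟩ := hN1
    have e1 : (q : 𝓞 K) ∣ ((Ideal.absNorm (Ideal.span {α}) : ℕ) : 𝓞 K) * α ^ 2 - 1 :=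
      ⟨d * α ^ 2 + c * (α + 1), by linear_combination α ^ 2 * hd + (α + 1) * hc⟩
    have e2 := sub_dvd_pow_sub_pow (((Ideal.absNorm (Ideal.span {α}) : ℕ) : 𝓞 K) * α ^ 2) 1 m
    rw [one_pow] at e2
    exact e1.trans e2
  rcases hq.eq_two_or_odd with rfl | hodd
  · obtain ⟨c, hc⟩ := hα
    obtain ⟨x, y, rfl⟩ := h.gen c
    have e : α = ((1 + 16 * x : ℤ) : 𝓞 K) + ((2 * (8 * y) : ℤ) : 𝓞 K) * i := by
      push_cast
      push_cast at hc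
      linear_combination hc
    have e1 := sy_two h (1 + 16 * x) (8 * y) ⟨8 * x, by ring⟩
    rw [← e] at e1
    have h4 : (4 : ZMod 4) = 0 := rfl
    rw [Nat.cast_ofNat, e1]
    push_cast
    linear_combination (2 * (y : ZMod 4) * (1 + 16 * (x : ZMod 4))) * h4
  · have h13 : q % 4 = 1 ∨ q % 4 = 3 := by omega
    rcases h13 with h1 | h3
    · obtain ⟨Q, hQ, hNQ⟩ := exists_Q h hq h1
      have hqQ : (q : 𝓞 K) ∈ Q := by
        rw [← hNQ]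
        exact Ideal.absNorm_mem Q
      have hmem : ∀ x : 𝓞 K, (q : 𝓞 K) ∣ x → x ∈ Q := by
        rintro x ⟨c, rfl⟩
        exact Q.mul_mem_right _ hqQ
      have hn : ((Ideal.absNorm (Ideal.span {α}) : ℕ) : 𝓞 K) ∉ Q := by
        intro hn
        apply hQ.one_notMem
        have := Q.sub_mem hn (hmem _ hN1)
        rwa [sub_sub_cancel] at this
      have e1 := sy_q1 h hq hQ hNQ α h2 h0 hn
      have e2 := hmem _ (hpw ((q - 1) / 4))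
      refine hQ.inj h ?_
      rw [w_zero]
      have e3 := Q.sub_mem e1 (Q.mul_mem_right (w i (sy i (Ideal.span {α}) (q : 𝓞 K))) e2)
      have e4 : (((Ideal.absNorm (Ideal.span {α}) : ℕ) : 𝓞 K) * α ^ 2) ^ ((q - 1) / 4) *
          w i (sy i (Ideal.span {α}) (q : 𝓞 K)) - 1 -
          ((((Ideal.absNorm (Ideal.span {α}) : ℕ) : 𝓞 K) * α ^ 2) ^ ((q - 1) / 4) - 1) *
          w i (sy i (Ideal.span {α}) (q : 𝓞 K)) = w i (sy i (Ideal.span {α}) (q : 𝓞 K)) - 1 := by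
        ring
      rwa [e4] at e3
    · have hQ := G4_span h hq h3
      have hmem : ∀ x : 𝓞 K, (q : 𝓞 K) ∣ x → x ∈ Ideal.span {(q : 𝓞 K)} :=
        fun x hx => Ideal.mem_span_singleton.2 hx
      have hn : ((Ideal.absNorm (Ideal.span {α}) : ℕ) : 𝓞 K) ∉ Ideal.span {(q : 𝓞 K)} := by
        intro hn
        apply hQ.one_notMem
        have := Ideal.sub_mem _ hn (hmem _ hN1)
        rwa [sub_sub_cancel] at this
      have e1 := sy_q3 h hq h3 α h2 h0 hn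
      have e2 := hmem _ (hpw ((q + 1) / 4))
      have e3 : sy i (Ideal.span {α}) (-(q : 𝓞 K)) = 0 := by
        refine hQ.inj h ?_
        rw [w_zero]
        have e4 := Ideal.sub_mem _ (Ideal.sub_mem _ e2 e1)
          (Ideal.mul_mem_left _ (w i (sy i (Ideal.span {α}) (-(q : 𝓞 K)))) (hmem _ hN1))
        have e5 : (((Ideal.absNorm (Ideal.span {α}) : ℕ) : 𝓞 K) * α ^ 2) ^ ((q + 1) / 4) - 1 -
            ((((Ideal.absNorm (Ideal.span {α}) : ℕ) : 𝓞 K) * α ^ 2) ^ ((q + 1) / 4) -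
              w i (sy i (Ideal.span {α}) (-(q : 𝓞 K))) * ((Ideal.absNorm (Ideal.span {α}) : ℕ) : 𝓞 K)) -
            w i (sy i (Ideal.span {α}) (-(q : 𝓞 K))) *
              (((Ideal.absNorm (Ideal.span {α}) : ℕ) : 𝓞 K) - 1) =
            w i (sy i (Ideal.span {α}) (-(q : 𝓞 K))) - 1 := by
          ring
        rwa [e5] at e4
      have e6 : -(q : 𝓞 K) = (-1) * (q : 𝓞 K) := by ring
      have h1c : IsCoprime (Ideal.span {α}) (Ideal.span {(-1 : 𝓞 K)}) := by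
        rw [Ideal.isCoprime_span_singleton_iff]
        exact ⟨0, -1, by ring⟩
      rw [e6, sy_num h (Fin_cop h2) h1c (Fin_cop hqα), Fin_neg h h8, zero_add] at e3
      exact e3

private theorem Fin_nat (h : GI i) (n : ℕ) : n ≠ 0 → ∀ α : 𝓞 K,
    ((8 * n : ℤ) : 𝓞 K) ∣ α - 1 → sy i (Ideal.span {α}) (n : 𝓞 K) = 0 := by
  induction n using induction_on_primes with
  | zero => exact fun h0 => absurd rfl h0
  | one =>
    intro _ α hα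
    have h2 : (2 : 𝓞 K) ∣ α - 1 := Dvd.dvd.trans ⟨4, by push_cast; norm_num⟩ hα
    rw [Nat.cast_one]
    exact sy_num_one h (Fin_cop h2)
  | prime_mul p a hp ih =>
    intro h0 α hα
    have ha : a ≠ 0 := by
      rintro rfl
      exact h0 (mul_zero p)
    have hpα : ((8 * p : ℤ) : 𝓞 K) ∣ α - 1 := Dvd.dvd.trans ⟨(a : 𝓞 K), by push_cast; ring⟩ hα
    have haα : ((8 * a : ℤ) : 𝓞 K) ∣ α - 1 := Dvd.dvd.trans ⟨(p : 𝓞 K), by push_cast; ring⟩ hα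
    have h2 : (2 : 𝓞 K) ∣ α - 1 := Dvd.dvd.trans ⟨4 * (a : 𝓞 K), by push_cast; ring⟩ haα
    have hp1 : (p : 𝓞 K) ∣ α - 1 := Dvd.dvd.trans ⟨8, by push_cast; ring⟩ hpα
    have ha1 : (a : 𝓞 K) ∣ α - 1 := Dvd.dvd.trans ⟨8, by push_cast; ring⟩ haα
    rw [Nat.cast_mul, sy_num h (Fin_cop h2) (Fin_cop hp1) (Fin_cop ha1), Fin_prime h hp hpα,
      ih ha α haα, add_zero]

theorem sy_int_one (h : GI i) (n : ℤ) (hn : n ≠ 0) (α : 𝓞 K)
    (hα : ((8 * n : ℤ) : 𝓞 K) ∣ α - 1) : sy i (Ideal.span {α}) (n : 𝓞 K) = 0 := by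
  obtain ⟨m, e | e⟩ := Int.eq_nat_or_neg n
  · have hm : m ≠ 0 := by
      rintro rfl
      exact hn (by rw [e]; rfl)
    rw [e] at hα ⊢
    rw [Int.cast_natCast]
    exact Fin_nat h m hm α hα
  · have hm : m ≠ 0 := by
      rintro rfl
      exact hn (by rw [e]; rfl)
    rw [e] at hα ⊢
    have hα' : ((8 * (m : ℤ) : ℤ) : 𝓞 K) ∣ α - 1 :=
      Dvd.dvd.trans ⟨-1, by push_cast; ring⟩ hα
    have h8 : ((8 : ℤ) : 𝓞 K) ∣ α - 1 := Dvd.dvd.trans ⟨(m : 𝓞 K), by push_cast; ring⟩ hα'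
    have h2 : (2 : 𝓞 K) ∣ α - 1 := Dvd.dvd.trans ⟨4, by push_cast; norm_num⟩ h8
    have hn1 : (m : 𝓞 K) ∣ α - 1 := Dvd.dvd.trans ⟨8, by push_cast; ring⟩ hα'
    have h1c : IsCoprime (Ideal.span {α}) (Ideal.span {(-1 : 𝓞 K)}) := by
      rw [Ideal.isCoprime_span_singleton_iff]
      exact ⟨0, -1, by ring⟩
    have e1 : ((-(m : ℤ) : ℤ) : 𝓞 K) = (-1) * (m : 𝓞 K) := by
      push_cast
      ring
    rw [e1, sy_num h (Fin_cop h2) h1c (Fin_cop hn1), Fin_neg h h8,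
      Fin_nat h m hm α hα', add_zero]

end Pool.Agent.Lib.MP_1a91b9_nuX.HQ
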