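import Pool.Agent.Lib.MP_1a91b9_nuX.HQ.Qs

/-!
# The prime ideals of `ℤ[i]`

PROOF (complete). `G4.cases`: `P` contains a prime number `p` (the positive number `N P` is in `P` (`Ideal.absNorm_mem`); a prime ideal
containing a positive natural number which is a product of prime numbers contains one of them: induction as in
`Qa_exists_prime` in `Pool/Agent/Lib/MP_1a91b9_ntX/R/Qa.lean`, or `Nat.recOnMul`). `p ≠ 2` as `2 ∉ P`. `span {p} ≤ P`, so `N P` divides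
`N (span {p}) = p ^ 2` (`Ideal.absNorm_dvd_absNorm_of_le`, `GI.absNorm_nat`) and `N P ≠ 1`: `N P = p` or `N P = p ^ 2`
(`Nat.dvd_prime_pow`). If `N P = p` then `p % 4 = 1` by `G4.dvd`. If `N P = p ^ 2` then `P = span {p}`
(write `span {p} = P * J` (`Ideal.dvd_iff_le`), norms give `N J = 1`, `J = ⊤` by `Ideal.absNorm_eq_one_iff`); `p` is odd, and if `p % 4 = 1` there
is an integer `x` with `p ∣ x ^ 2 + 1` (`ZMod.exists_sq_eq_neg_one_iff`), so `(x + i) (x - i) ∈ span {p}`, a prime ideal, so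
`p ∣ x + i` or `p ∣ x - i` and `GI.int_dvd` gives `p ∣ 1`, absurd.
`qs_int`: `N P = p ^ 2` (`GI.absNorm_nat`), `(p ^ 2 - 1) / 4 = (p - 1) * ((p + 1) / 4)`, and `(n : ZMod p) ^ (p - 1) = 1` (`ZMod.pow_card_sub_one_eq_one`; `p ∤ n`
because `n ∉ P`), so `p` divides the integer `n ^ ((p ^ 2 - 1) / 4) - 1` (`ZMod.intCast_zmod_eq_zero_iff_dvd` or
`ZMod.intCast_eq_intCast_iff_dvd_sub`); then `qs_zero`.
`exists_Q`: a maximal ideal `Q` containing `q` (`Ideal.exists_le_maximal`; `q` is not a unit: `N (span {q}) = q ^ 2 ≠ 1`). `2 ∉ Q` since `q` is odd.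
`G4.cases`: in the first case the prime `p = N Q` is in `Q` and `q ∈ Q`, so `p = q` (otherwise `1 ∈ Q` by Bézout); in the second case
`Q = span {p}`, `(p : 𝓞 K) ∣ q`, so `p ∣ q` (`GI.int_dvd` with `n = 0`), `p = q`, against `q % 4 = 1`, `p % 4 = 3`.
`G4_span`: `q % 4 = 3`: `span {q}` is prime: take `Q` maximal containing `q`; as before `G4.cases` gives `Q = span {q}`, or `N Q = p`, `p % 4 = 1`
and `p = q`, impossible.
`mem_int`: if `N P = p` is prime and the integer `n` is in `P` and `p ∤ n` then `1 ∈ P` by Bézout (`Int.isCoprime_iff_gcd_eq_one`, `Nat.Prime.coprime_iff_not_dvd`);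
conversely `p ∈ P` (`Ideal.absNorm_mem`).
-/

set_option autoImplicit false

namespace Pool.Agent.Lib.MP_1a91b9_nuX.HQ

open NumberField

variable {K : Type} [Field K] [NumberField K] {i : 𝓞 K} {P : Ideal (𝓞 K)}

private theorem Cas_exists_prime (hP : G4 P) : ∀ n : ℕ, 0 < n → ((n : ℕ) : 𝓞 K) ∈ P →
    ∃ p : ℕ, p.Prime ∧ ((p : ℕ) : 𝓞 K) ∈ P := by
  intro n
  induction n using Nat.strong_induction_on with
  | _ n ih =>
    intro hn hnP
    by_cases h1 : n = 1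
    · exfalso
      rw [h1, Nat.cast_one] at hnP
      exact hP.one_notMem hnP
    · obtain ⟨m, hm⟩ := Nat.minFac_dvd n
      have hp := Nat.minFac_prime h1
      have h2 : ((n : ℕ) : 𝓞 K) = ((n.minFac : ℕ) : 𝓞 K) * ((m : ℕ) : 𝓞 K) := by
        rw [← Nat.cast_mul, ← hm]
      rw [h2] at hnP
      rcases hP.pr.mem_or_mem hnP with h3 | h3
      · exact ⟨n.minFac, hp, h3⟩
      · have hm0 : 0 < m := by
          rcases Nat.eq_zero_or_pos m with h4 | h4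
          · rw [h4, mul_zero] at hm
            omega
          · exact h4
        have hlt : m < n := by
          have h5 := hp.two_le
          calc m < 2 * m := by omega
            _ ≤ n.minFac * m := Nat.mul_le_mul_right m h5
            _ = n := hm.symm
        exact ih m hlt hm0 h3

omit [NumberField K] in
private theorem Cas_span_le {p : ℕ} (hpP : ((p : ℕ) : 𝓞 K) ∈ P) :
    Ideal.span {((p : ℕ) : 𝓞 K)} ≤ P := by
  rw [Ideal.span_le]
  intro x hx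
  rw [Set.mem_singleton_iff] at hx
  rw [hx]
  exact hpP

private theorem Cas_norm (h : GI i) (hP : G4 P) :
    ∃ p : ℕ, p.Prime ∧ p % 2 = 1 ∧ ((p : ℕ) : 𝓞 K) ∈ P ∧
      (Ideal.absNorm P = p ∨ Ideal.absNorm P = p ^ 2) := by
  have h1 := hP.one_lt
  obtain ⟨p, hp, hpP⟩ := Cas_exists_prime hP (Ideal.absNorm P) (by omega) (Ideal.absNorm_mem P)
  refine ⟨p, hp, ?_, hpP, ?_⟩
  · rcases hp.eq_two_or_odd with h2 | h2
    · exfalso
      apply hP.two
      have h3 : (2 : 𝓞 K) = ((2 : ℕ) : 𝓞 K) := by norm_cast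
      rw [h3, ← h2]
      exact hpP
    · exact h2
  have h3 := Ideal.absNorm_dvd_absNorm_of_le (Cas_span_le hpP)
  rw [h.absNorm_nat] at h3
  obtain ⟨k, hk, hk'⟩ := (Nat.dvd_prime_pow hp).1 h3
  have hk3 : k = 0 ∨ k = 1 ∨ k = 2 := by omega
  rcases hk3 with rfl | rfl | rfl
  · rw [pow_zero] at hk'
    omega
  · left
    rw [hk', pow_one]
  · right
    exact hk'

private theorem Cas_cop (hP : G4 P) {m n : ℤ} (hmn : IsCoprime m n) (hm : (m : 𝓞 K) ∈ P)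
    (hn : (n : 𝓞 K) ∈ P) : False := by
  obtain ⟨a, b, hab⟩ := hmn
  apply hP.one_notMem
  have h1 : (1 : 𝓞 K) = (a : 𝓞 K) * (m : 𝓞 K) + (b : 𝓞 K) * (n : 𝓞 K) := by
    have h2 : ((a * m + b * n : ℤ) : 𝓞 K) = ((1 : ℤ) : 𝓞 K) := congrArg (fun z : ℤ => (z : 𝓞 K)) hab
    rw [Int.cast_add, Int.cast_mul, Int.cast_mul, Int.cast_one] at h2
    exact h2.symm
  rw [h1]
  exact P.add_mem (P.mul_mem_left _ hm) (P.mul_mem_left _ hn)

private theorem Cas_eq (hP : G4 P) {p q : ℕ} (hp : p.Prime) (hq : q.Prime)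
    (hpP : ((p : ℕ) : 𝓞 K) ∈ P) (hqP : ((q : ℕ) : 𝓞 K) ∈ P) : p = q := by
  by_contra hne
  have h1 : Nat.Coprime p q := (Nat.coprime_primes hp hq).2 hne
  have h2 : IsCoprime (p : ℤ) (q : ℤ) := Nat.isCoprime_iff_coprime.2 h1
  refine Cas_cop hP h2 ?_ ?_
  · rw [Int.cast_natCast]
    exact hpP
  · rw [Int.cast_natCast]
    exact hqP

private theorem Cas_max (h : GI i) {q : ℕ} (hq : q.Prime) (hq2 : q % 2 = 1) :
    ∃ Q : Ideal (𝓞 K), G4 Q ∧ ((q : ℕ) : 𝓞 K) ∈ Q := by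
  have hne : Ideal.span {((q : ℕ) : 𝓞 K)} ≠ ⊤ := by
    intro h1
    have h2 := h.absNorm_nat q
    rw [h1, Ideal.absNorm_top] at h2
    have h3 := hq.one_lt
    have h4 : 1 < q ^ 2 := Nat.one_lt_pow (by norm_num) h3
    omega
  obtain ⟨Q, hQm, hle⟩ := Ideal.exists_le_maximal _ hne
  have hqQ : ((q : ℕ) : 𝓞 K) ∈ Q := hle (Ideal.subset_span rfl)
  refine ⟨Q, ⟨hQm.isPrime, ?_, ?_⟩, hqQ⟩
  · intro h1
    rw [h1, Ideal.mem_bot, Nat.cast_eq_zero] at hqQ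
    exact hq.ne_zero hqQ
  · intro h1
    obtain ⟨c, hc⟩ : ∃ c : ℕ, q = 2 * c + 1 := ⟨q / 2, by omega⟩
    apply hQm.isPrime.ne_top
    rw [Ideal.eq_top_iff_one]
    have h2 : (1 : 𝓞 K) = ((q : ℕ) : 𝓞 K) - ((c : ℕ) : 𝓞 K) * 2 := by
      rw [hc]
      push_cast
      ring
    rw [h2]
    exact Q.sub_mem hqQ (Q.mul_mem_left _ h1)

theorem G4.cases (h : GI i) (hP : G4 P) :
    (∃ p : ℕ, p.Prime ∧ p % 4 = 1 ∧ Ideal.absNorm P = p) ∨
      ∃ p : ℕ, p.Prime ∧ p % 4 = 3 ∧ P = Ideal.span {(p : 𝓞 K)} := by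
  obtain ⟨p, hp, hodd, hpP, hN⟩ := Cas_norm h hP
  rcases hN with hN | hN
  · left
    refine ⟨p, hp, ?_, hN⟩
    have h1 := G4.dvd h hP
    rw [hN] at h1
    have h2 := hp.two_le
    omega
  · right
    have hPs : P = Ideal.span {(p : 𝓞 K)} := by
      have h1 : P ∣ Ideal.span {((p : ℕ) : 𝓞 K)} := Ideal.dvd_iff_le.2 (Cas_span_le hpP)
      obtain ⟨J, hJ⟩ := h1
      have h2 := h.absNorm_nat p
      rw [hJ, map_mul, hN] at h2
      have h3 : 0 < p ^ 2 := Nat.pow_pos hp.pos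
      have h4 : Ideal.absNorm J = 1 := Nat.eq_of_mul_eq_mul_left h3 (by rw [h2, mul_one])
      rw [Ideal.absNorm_eq_one_iff] at h4
      rw [hJ, h4, Ideal.mul_top]
    refine ⟨p, hp, ?_, hPs⟩
    by_contra h3
    have : Fact p.Prime := ⟨hp⟩
    obtain ⟨y, hy⟩ := (ZMod.exists_sq_eq_neg_one_iff (p := p)).2 h3
    obtain ⟨x, hx⟩ : ∃ x : ℤ, (x : ZMod p) = y := ⟨y.cast, by simp⟩
    have h4 : (p : ℤ) ∣ x ^ 2 + 1 := by
      rw [← ZMod.intCast_zmod_eq_zero_iff_dvd]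
      push_cast
      rw [hx, pow_two, ← hy]
      ring
    obtain ⟨c, hc⟩ := h4
    have h5 : ((x : 𝓞 K) + i) * ((x : 𝓞 K) - i) ∈ P := by
      have e : ((x : 𝓞 K) + i) * ((x : 𝓞 K) - i) = ((c : ℤ) : 𝓞 K) * ((p : ℕ) : 𝓞 K) := by
        have e1 : ((x ^ 2 + 1 : ℤ) : 𝓞 K) = (((p : ℤ) * c : ℤ) : 𝓞 K) :=
          congrArg (fun z : ℤ => (z : 𝓞 K)) hc
        rw [Int.cast_add, Int.cast_pow, Int.cast_one, Int.cast_mul, Int.cast_natCast] at e1
        linear_combination e1 - h.sq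
      rw [e]
      exact P.mul_mem_left _ hpP
    have key : ∀ m : ℤ, m = 1 ∨ m = -1 → (x : 𝓞 K) + (m : 𝓞 K) * i ∈ P → False := by
      intro m hm h6
      rw [hPs, Ideal.mem_span_singleton, ← Int.cast_natCast (R := 𝓞 K) p, h.int_dvd] at h6
      have h7 := h6.2
      have h8 : (p : ℤ) ∣ 1 := by
        rcases hm with rfl | rfl
        · exact h7
        · exact (dvd_neg.1 h7)
      have h9 : p ∣ 1 := by
        have := Int.natCast_dvd_natCast.1 (by simpa using h8 : ((p : ℕ) : ℤ) ∣ ((1 : ℕ) : ℤ))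
        exact this
      exact hp.one_lt.ne' (Nat.dvd_one.1 h9)
    rcases hP.pr.mem_or_mem h5 with h6 | h6
    · refine key 1 (Or.inl rfl) ?_
      rw [Int.cast_one, one_mul]
      exact h6
    · refine key (-1) (Or.inr rfl) ?_
      rw [Int.cast_neg, Int.cast_one, neg_one_mul, ← sub_eq_add_neg]
      exact h6

/-- the rational integers at a prime of degree two -/
theorem qs_int (h : GI i) {p : ℕ} (hp : p.Prime) (h3 : p % 4 = 3)
    (hP : G4 (Ideal.span {(p : 𝓞 K)})) (n : ℤ) (hn : (n : 𝓞 K) ∉ Ideal.span {(p : 𝓞 K)}) :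
    qs i (Ideal.span {(p : 𝓞 K)}) (n : 𝓞 K) = 0 := by
  have : Fact p.Prime := ⟨hp⟩
  apply qs_zero h hP
  rw [h.absNorm_nat]
  have hn1 : ¬ (p : ℤ) ∣ n := by
    rintro ⟨c, hc⟩
    apply hn
    rw [hc, Int.cast_mul, Int.cast_natCast]
    exact Ideal.mul_mem_right _ _ (Ideal.subset_span rfl)
  have hn0 : (n : ZMod p) ≠ 0 := fun h0 => hn1 ((ZMod.intCast_zmod_eq_zero_iff_dvd n p).1 h0)
  have h1 : (n : ZMod p) ^ (p - 1) = 1 := ZMod.pow_card_sub_one_eq_one hn0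
  have h2 : (p ^ 2 - 1) / 4 = (p - 1) * ((p + 1) / 4) := by
    obtain ⟨k, hk⟩ : ∃ k, p = 4 * k + 3 := ⟨p / 4, by omega⟩
    subst hk
    have e1 : (4 * k + 3) ^ 2 - 1 = 4 * ((4 * k + 2) * (k + 1)) := by
      have e2 : (4 * k + 3) ^ 2 = 4 * ((4 * k + 2) * (k + 1)) + 1 := by ring
      rw [e2, Nat.add_sub_cancel]
    have e3 : (4 * k + 3 + 1) / 4 = k + 1 := by omega
    have e4 : 4 * k + 3 - 1 = 4 * k + 2 := by omega
    rw [e1, Nat.mul_div_cancel_left _ (by norm_num), e3, e4]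
  have h3 : (p : ℤ) ∣ n ^ ((p ^ 2 - 1) / 4) - 1 := by
    rw [← ZMod.intCast_zmod_eq_zero_iff_dvd, Int.cast_sub, Int.cast_pow, Int.cast_one, h2, pow_mul,
      h1, one_pow, sub_self]
  obtain ⟨c, hc⟩ := h3
  have h4 : (n : 𝓞 K) ^ ((p ^ 2 - 1) / 4) - 1 = ((p : ℕ) : 𝓞 K) * ((c : ℤ) : 𝓞 K) := by
    have h5 : ((n ^ ((p ^ 2 - 1) / 4) - 1 : ℤ) : 𝓞 K) = (((p : ℤ) * c : ℤ) : 𝓞 K) :=
      congrArg (fun z : ℤ => (z : 𝓞 K)) hc
    rw [Int.cast_sub, Int.cast_pow, Int.cast_mul, Int.cast_natCast, Int.cast_one] at h5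
    exact h5
  rw [h4]
  exact Ideal.mul_mem_right _ _ (Ideal.subset_span rfl)

theorem exists_Q (h : GI i) {q : ℕ} (hq : q.Prime) (h1 : q % 4 = 1) :
    ∃ Q : Ideal (𝓞 K), G4 Q ∧ Ideal.absNorm Q = q := by
  obtain ⟨Q, hQ, hqQ⟩ := Cas_max h hq (by omega)
  refine ⟨Q, hQ, ?_⟩
  rcases G4.cases h hQ with ⟨p, hp, hp4, hN⟩ | ⟨p, hp, hp4, hQs⟩
  · have h2 : ((p : ℕ) : 𝓞 K) ∈ Q := by
      have h3 := Ideal.absNorm_mem Q
      rw [hN] at h3
      exact h3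
    rw [hN]
    exact Cas_eq hQ hp hq h2 hqQ
  · exfalso
    have h2 : ((p : ℕ) : 𝓞 K) ∈ Q := by
      rw [hQs]
      exact Ideal.subset_span rfl
    have h3 := Cas_eq hQ hp hq h2 hqQ
    omega

theorem G4_span (h : GI i) {q : ℕ} (hq : q.Prime) (h3 : q % 4 = 3) :
    G4 (Ideal.span {(q : 𝓞 K)}) := by
  obtain ⟨Q, hQ, hqQ⟩ := Cas_max h hq (by omega)
  rcases G4.cases h hQ with ⟨p, hp, hp4, hN⟩ | ⟨p, hp, hp4, hQs⟩
  · exfalso
    have h2 : ((p : ℕ) : 𝓞 K) ∈ Q := by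
      have h4 := Ideal.absNorm_mem Q
      rw [hN] at h4
      exact h4
    have h5 := Cas_eq hQ hp hq h2 hqQ
    omega
  · have h2 : ((p : ℕ) : 𝓞 K) ∈ Q := by
      rw [hQs]
      exact Ideal.subset_span rfl
    have h5 := Cas_eq hQ hp hq h2 hqQ
    rw [← h5, ← hQs]
    exact hQ

/-- the rational integers in a prime of degree one -/
theorem mem_int (hP : G4 P) {p : ℕ} (hp : p.Prime) (hN : Ideal.absNorm P = p) (n : ℤ) :
    (n : 𝓞 K) ∈ P ↔ (p : ℤ) ∣ n := by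
  have hpP : ((p : ℕ) : 𝓞 K) ∈ P := by
    have h3 := Ideal.absNorm_mem P
    rw [hN] at h3
    exact h3
  constructor
  · intro hn
    by_contra h1
    have h2 : IsCoprime (p : ℤ) n :=
      (Int.prime_iff_natAbs_prime.2 (by rw [Int.natAbs_natCast]; exact hp)).irreducible.coprime_iff_not_dvd.2 h1
    refine Cas_cop hP h2 ?_ hn
    rw [Int.cast_natCast]
    exact hpP
  · rintro ⟨c, hc⟩
    rw [hc, Int.cast_mul, Int.cast_natCast]
    exact P.mul_mem_right _ hpP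

end Pool.Agent.Lib.MP_1a91b9_nuX.HQ
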