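import Pool.Agent.Lib.MP_1a91b9_nuX.HQ.Gi

/-!
# The biquadratic residue symbol

`G4 P`: `P` is a nonzero prime ideal not containing `2`. `qs i P x : ZMod 4` is the exponent of the biquadratic residue symbol:
`w i (qs i P x)` is congruent to `x ^ ((N P - 1) / 4)` modulo `P`.

PROOF (complete). This is the quartic version of the file `Pool/Agent/Lib/MP_1a91b9_ntX/R/Cs.lean` (on main, in
`outputs/live`): copy its proofs.
`G4.ne_unit`: trivial. `G4.inj`: if `c ≠ d` then `w i c - w i d = w i d * (w i (c - d) - 1)`; `w i d` is a unit (`GI.w_isUnit`), so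
`w i e - 1 ∈ P` for an `e ≠ 0`; `e = 1`: `(i - 1) (i + 1) = -2`; `e = 2`: `-2`; `e = 3`: `(-i - 1) (i - 1) = 2`: so `2 ∈ P`.
`G4.fermat`: verbatim as in `Cs.lean`. `G4.dvd`: `i` has order `4` in the units of the finite field `𝓞 K ⧸ P` with
`N P` elements: by division `N P - 1 = 4 k + r`, `r < 4`, and `i ^ (N P - 1) - 1 ∈ P` by `G4.fermat` (`i ∉ P`, it is a unit)
so `w i r - w i 0 ∈ P` (`GI.w_natCast`) and `(r : ZMod 4) = 0` by `G4.inj`, `ZMod.natCast_eq_zero_iff`.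
`qs_spec`: `y := x ^ ((N P - 1) / 4)` has `y ^ 4 - 1 = (y - 1) (y + 1) (y - i) (y + i) ∈ P`. The others as in `Cs.lean`.
`qs_i`: from `GI.w_natCast`.
`qs_two_mul_int` is the relation with the quadratic character: `w i (2 * qs i P x) = (w i (qs i P x)) ^ 2 = x ^ ((N P - 1) / 2)` modulo `P`.
-/

set_option autoImplicit false

namespace Pool.Agent.Lib.MP_1a91b9_nuX.HQ

open NumberField

/-- a nonzero prime ideal which does not contain `2` -/
structure G4 {K : Type} [Field K] [NumberField K] (P : Ideal (𝓞 K)) : Prop where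
  pr : P.IsPrime
  ne : P ≠ ⊥
  two : (2 : 𝓞 K) ∉ P

open Classical in
/-- the exponent of the biquadratic residue symbol -/
noncomputable def qs {K : Type} [Field K] [NumberField K] (i : 𝓞 K) (P : Ideal (𝓞 K)) (x : 𝓞 K) :
    ZMod 4 :=
  if h : ∃ c : ZMod 4, w i c - x ^ ((Ideal.absNorm P - 1) / 4) ∈ P then h.choose else 0

variable {K : Type} [Field K] [NumberField K] {i : 𝓞 K} {P : Ideal (𝓞 K)}

theorem G4.one_notMem (hP : G4 P) : (1 : 𝓞 K) ∉ P := fun h0 =>
  hP.pr.ne_top ((Ideal.eq_top_iff_one _).2 h0)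

theorem G4.unit_notMem (hP : G4 P) {u : 𝓞 K} (hu : IsUnit u) : u ∉ P := fun h0 =>
  hP.pr.ne_top (Ideal.eq_top_of_isUnit_mem _ h0 hu)

theorem G4.one_lt (hP : G4 P) : 1 < Ideal.absNorm P := by
  have h1 : Ideal.absNorm P ≠ 0 := by
    rw [Ne, Ideal.absNorm_eq_zero_iff]
    exact hP.ne
  have h2 : Ideal.absNorm P ≠ 1 := by
    rw [Ne, Ideal.absNorm_eq_one_iff]
    exact hP.pr.ne_top
  omega

theorem G4.fermat (hP : G4 P) {x : 𝓞 K} (hx : x ∉ P) : x ^ (Ideal.absNorm P - 1) - 1 ∈ P := by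
  classical
  have i0 := hP.pr
  have i1 : P.IsMaximal := Ideal.IsPrime.isMaximal hP.pr hP.ne
  let _ : Field (𝓞 K ⧸ P) := Ideal.Quotient.field _
  have i2 : Finite (𝓞 K ⧸ P) := Ideal.finiteQuotientOfFreeOfNeBot _ hP.ne
  let _ : Fintype (𝓞 K ⧸ P) := Fintype.ofFinite _
  have h1 : Fintype.card (𝓞 K ⧸ P) = Ideal.absNorm P := by
    rw [← Nat.card_eq_fintype_card]
    rfl
  have h2 : (Ideal.Quotient.mk P x) ≠ 0 := fun h0 => hx (Ideal.Quotient.eq_zero_iff_mem.1 h0)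
  rw [← Ideal.Quotient.eq_zero_iff_mem, map_sub, map_pow, map_one, ← h1,
    FiniteField.pow_card_sub_one_eq_one _ h2, sub_self]

theorem G4.inj (h : GI i) (hP : G4 P) {c d : ZMod 4} (hcd : w i c - w i d ∈ P) : c = d := by
  have hPp := hP.pr
  by_contra hne
  have h1 : w i c - w i d = w i d * (w i (c - d) - 1) := by
    have h2 : w i c = w i d * w i (c - d) := by rw [← h.w_add, add_sub_cancel]
    rw [h2]
    ring
  rw [h1] at hcd
  rcases hPp.mem_or_mem hcd with h2 | h2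
  · exact hPp.ne_top (Ideal.eq_top_of_isUnit_mem _ h2 (h.w_isUnit d))
  · have h0 : c - d ≠ 0 := sub_ne_zero.2 hne
    have h3 : ∀ e : ZMod 4, e = 0 ∨ e = 1 ∨ e = 2 ∨ e = 3 := by decide
    rcases h3 (c - d) with h4 | h4 | h4 | h4
    · exact h0 h4
    · rw [h4, h.w_one] at h2
      apply hP.two
      have e : (2 : 𝓞 K) = (i - 1) * (-(i + 1)) := by linear_combination h.sq
      rw [e]
      exact Ideal.mul_mem_right _ _ h2
    · rw [h4, h.w_two] at h2
      apply hP.two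
      have e : (2 : 𝓞 K) = (-1 - 1) * (-1) := by ring
      rw [e]
      exact Ideal.mul_mem_right _ _ h2
    · rw [h4, h.w_three] at h2
      apply hP.two
      have e : (2 : 𝓞 K) = (-i - 1) * (i - 1) := by linear_combination h.sq
      rw [e]
      exact Ideal.mul_mem_right _ _ h2

theorem G4.dvd (h : GI i) (hP : G4 P) : 4 ∣ Ideal.absNorm P - 1 := by
  have hi : IsUnit i := by
    have h1 := h.w_isUnit 1
    rwa [h.w_one] at h1
  have h1 := hP.fermat (hP.unit_notMem hi)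
  rw [← h.w_natCast, ← w_zero (i := i)] at h1
  have h2 := G4.inj h hP h1
  exact (ZMod.natCast_eq_zero_iff _ _).1 h2

theorem qs_spec (h : GI i) (hP : G4 P) {x : 𝓞 K} (hx : x ∉ P) :
    w i (qs i P x) - x ^ ((Ideal.absNorm P - 1) / 4) ∈ P := by
  have key : ∃ c : ZMod 4, w i c - x ^ ((Ideal.absNorm P - 1) / 4) ∈ P := by
    have hPp := hP.pr
    obtain ⟨y, hy⟩ : ∃ y, y = x ^ ((Ideal.absNorm P - 1) / 4) := ⟨_, rfl⟩
    have h1 : y ^ 4 - 1 ∈ P := by
      rw [hy, ← pow_mul, Nat.div_mul_cancel (G4.dvd h hP)]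
      exact hP.fermat hx
    have e : y ^ 4 - 1 = (1 - y) * ((-1 - y) * ((i - y) * (-i - y))) := by
      linear_combination (y ^ 2 - 1) * h.sq
    rw [← hy]
    rw [e] at h1
    rcases hPp.mem_or_mem h1 with h2 | h2
    · refine ⟨0, ?_⟩
      rw [w_zero]
      exact h2
    · rcases hPp.mem_or_mem h2 with h3 | h3
      · refine ⟨2, ?_⟩
        rw [h.w_two]
        exact h3
      · rcases hPp.mem_or_mem h3 with h4 | h4
        · refine ⟨1, ?_⟩
          rw [h.w_one]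
          exact h4
        · refine ⟨3, ?_⟩
          rw [h.w_three]
          exact h4
  rw [qs, dif_pos key]
  exact key.choose_spec

theorem qs_eq (h : GI i) (hP : G4 P) {x : 𝓞 K} (hx : x ∉ P) (c : ZMod 4)
    (hc : w i c - x ^ ((Ideal.absNorm P - 1) / 4) ∈ P) : qs i P x = c := by
  refine G4.inj h hP ?_
  have h1 := Ideal.sub_mem _ (qs_spec h hP hx) hc
  rwa [sub_sub_sub_cancel_right] at h1

theorem qs_mul (h : GI i) (hP : G4 P) {x y : 𝓞 K} (hx : x ∉ P) (hy : y ∉ P) :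
    qs i P (x * y) = qs i P x + qs i P y := by
  have hPp := hP.pr
  have hxy : x * y ∉ P := fun h0 => (hPp.mem_or_mem h0).elim hx hy
  refine qs_eq h hP hxy _ ?_
  obtain ⟨k, hk⟩ : ∃ k, k = (Ideal.absNorm P - 1) / 4 := ⟨_, rfl⟩
  have h1 := qs_spec h hP hx
  have h2 := qs_spec h hP hy
  rw [← hk] at h1 h2 ⊢
  have e : w i (qs i P x + qs i P y) - (x * y) ^ k =
      w i (qs i P x) * (w i (qs i P y) - y ^ k) +
        y ^ k * (w i (qs i P x) - x ^ k) := by
    rw [h.w_add, mul_pow]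
    ring
  rw [e]
  exact Ideal.add_mem _ (Ideal.mul_mem_left _ _ h2) (Ideal.mul_mem_left _ _ h1)

theorem qs_congr (h : GI i) (hP : G4 P) {x y : 𝓞 K} (hx : x ∉ P) (hxy : x - y ∈ P) :
    qs i P x = qs i P y := by
  have hy : y ∉ P := by
    intro h0
    apply hx
    have h1 := Ideal.add_mem _ hxy h0
    rwa [sub_add_cancel] at h1
  refine qs_eq h hP hx _ ?_
  have h2 := qs_spec h hP hy
  have h3 : x ^ ((Ideal.absNorm P - 1) / 4) - y ^ ((Ideal.absNorm P - 1) / 4) ∈ P :=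
    Ideal.mem_of_dvd _ (sub_dvd_pow_sub_pow x y _) hxy
  have h4 := Ideal.sub_mem _ h2 h3
  have e : ∀ a b c : 𝓞 K, a - b - (c - b) = a - c := by
    intro a b c
    ring
  rwa [e] at h4

theorem qs_one (h : GI i) (hP : G4 P) : qs i P 1 = 0 := by
  refine qs_eq h hP hP.one_notMem _ ?_
  rw [w_zero, one_pow, sub_self]
  exact Ideal.zero_mem _

theorem qs_pow (h : GI i) (hP : G4 P) {x : 𝓞 K} (hx : x ∉ P) (n : ℕ) :
    qs i P (x ^ n) = n * qs i P x := by
  have hPp := hP.pr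
  induction n with
  | zero => rw [pow_zero, qs_one h hP, Nat.cast_zero, zero_mul]
  | succ n ih =>
    have h1 : x ^ n ∉ P := fun h0 => hx (hPp.mem_of_pow_mem n h0)
    rw [pow_succ, qs_mul h hP h1 hx, ih, Nat.cast_succ]
    ring

theorem qs_i (h : GI i) (hP : G4 P) : qs i P i = (((Ideal.absNorm P - 1) / 4 : ℕ) : ZMod 4) := by
  have hi : IsUnit i := by
    have h1 := h.w_isUnit 1
    rwa [h.w_one] at h1
  refine qs_eq h hP (hP.unit_notMem hi) _ ?_
  rw [h.w_natCast, sub_self]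
  exact Ideal.zero_mem _

theorem qs_neg_one (h : GI i) (hP : G4 P) :
    qs i P (-1) = 2 * (((Ideal.absNorm P - 1) / 4 : ℕ) : ZMod 4) := by
  have hi : IsUnit i := by
    have h1 := h.w_isUnit 1
    rwa [h.w_one] at h1
  rw [← h.sq, qs_pow h hP (hP.unit_notMem hi), qs_i h hP, Nat.cast_ofNat]

theorem qs_neg (h : GI i) (hP : G4 P) {x : 𝓞 K} (hx : x ∉ P) :
    qs i P (-x) = qs i P (-1) + qs i P x := by
  have h2 : (-1 : 𝓞 K) ∉ P := fun h0 => hP.one_notMem (neg_mem_iff.1 h0)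
  rw [← neg_one_mul, qs_mul h hP h2 hx]

/-- the quadratic residue symbol -/
theorem qs_sq (h : GI i) (hP : G4 P) {x : 𝓞 K} (hx : x ∉ P) :
    w i (2 * qs i P x) - x ^ ((Ideal.absNorm P - 1) / 2) ∈ P := by
  have h1 := qs_spec h hP hx
  have h2 : (Ideal.absNorm P - 1) / 2 = (Ideal.absNorm P - 1) / 4 * 2 := by
    have h3 := G4.dvd h hP
    omega
  have h3 : w i (2 * qs i P x) = w i (qs i P x) ^ 2 := by
    rw [h.w_pow, Nat.cast_ofNat]
  rw [h2, pow_mul, h3]
  exact Ideal.mem_of_dvd _ (sub_dvd_pow_sub_pow _ _ 2) h1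

/-- the symbol is zero if the `(N P - 1) / 4`-th power is `1` -/
theorem qs_zero (h : GI i) (hP : G4 P) {x : 𝓞 K} (hx : x ^ ((Ideal.absNorm P - 1) / 4) - 1 ∈ P) :
    qs i P x = 0 := by
  have hk : 0 < (Ideal.absNorm P - 1) / 4 := by
    have h1 := hP.one_lt
    have h2 := G4.dvd h hP
    omega
  have hxP : x ∉ P := by
    intro h0
    apply hP.one_notMem
    have h1 := Ideal.sub_mem _ (Ideal.pow_mem_of_mem P h0 _ hk) hx
    rwa [sub_sub_cancel] at h1
  refine qs_eq h hP hxP _ ?_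
  rw [w_zero]
  have h1 := neg_mem_iff.2 hx
  rwa [neg_sub] at h1

end Pool.Agent.Lib.MP_1a91b9_nuX.HQ
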