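import Mathlib

/-!
# Number fields with ring of integers `ℤ[i]`

`GI i`: `i ^ 2 = -1` and `1, i` generate the ring of integers.
-/

set_option autoImplicit false

namespace Pool.Agent.Lib.MP_1a91b9_nuX.HQ

open NumberField

/-- `𝓞 K = ℤ[i]` -/
structure GI {K : Type} [Field K] [NumberField K] (i : 𝓞 K) : Prop where
  sq : i ^ 2 = -1
  gen : ∀ a : 𝓞 K, ∃ m n : ℤ, a = (m : 𝓞 K) + (n : 𝓞 K) * i

/-- the power `i ^ c` for `c` modulo `4` -/
noncomputable def w {K : Type} [Field K] (i : 𝓞 K) (c : ZMod 4) : 𝓞 K := i ^ c.val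

variable {K : Type} [Field K] [NumberField K] {i : 𝓞 K}

theorem GI.pow_four (h : GI i) : i ^ 4 = 1 := by
  linear_combination (i ^ 2 - 1) * h.sq

theorem GI.inj (h : GI i) {m n m' n' : ℤ}
    (e : (m : 𝓞 K) + (n : 𝓞 K) * i = (m' : 𝓞 K) + (n' : 𝓞 K) * i) : m = m' ∧ n = n' := by
  have h1 : (((m - m') ^ 2 + (n - n') ^ 2 : ℤ) : 𝓞 K) = ((0 : ℤ) : 𝓞 K) := by
    push_cast
    linear_combination ((m : 𝓞 K) - m' - (n - n') * i) * e + ((n : 𝓞 K) - n') ^ 2 * h.sq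
  have h2 := Int.cast_injective h1
  constructor
  · nlinarith [sq_nonneg (m - m'), sq_nonneg (n - n')]
  · nlinarith [sq_nonneg (m - m'), sq_nonneg (n - n')]

/-- the basis `1, i` -/
noncomputable def GI.bas (h : GI i) : Module.Basis (Fin 2) ℤ (𝓞 K) := by
  refine Module.Basis.mk (v := ![(1 : 𝓞 K), i]) ?_ ?_
  · rw [LinearIndependent.pair_iff]
    intro s t e
    have h1 : (s : 𝓞 K) + (t : 𝓞 K) * i = ((0 : ℤ) : 𝓞 K) + ((0 : ℤ) : 𝓞 K) * i := by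
      rw [zsmul_eq_mul, zsmul_eq_mul, mul_one] at e
      rw [e]
      simp
    exact h.inj h1
  · rintro a -
    obtain ⟨m, n, rfl⟩ := h.gen a
    have h1 : (1 : 𝓞 K) ∈ Submodule.span ℤ (Set.range ![(1 : 𝓞 K), i]) :=
      Submodule.subset_span ⟨0, rfl⟩
    have h2 : (i : 𝓞 K) ∈ Submodule.span ℤ (Set.range ![(1 : 𝓞 K), i]) :=
      Submodule.subset_span ⟨1, rfl⟩
    have h3 := Submodule.add_mem _ (Submodule.smul_mem _ m h1) (Submodule.smul_mem _ n h2)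
    rwa [zsmul_eq_mul, zsmul_eq_mul, mul_one] at h3

theorem GI.bas_zero (h : GI i) : h.bas 0 = (1 : 𝓞 K) := by
  rw [GI.bas, Module.Basis.mk_apply]
  rfl

theorem GI.bas_one (h : GI i) : h.bas 1 = i := by
  rw [GI.bas, Module.Basis.mk_apply]
  rfl

theorem GI.bas_repr (h : GI i) (m n : ℤ) : h.bas.repr ((m : 𝓞 K) + (n : 𝓞 K) * i) =
    Finsupp.single 0 m + Finsupp.single 1 n := by
  apply h.bas.repr.symm.injective
  rw [LinearEquiv.symm_apply_apply, map_add, Module.Basis.repr_symm_single,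
    Module.Basis.repr_symm_single, h.bas_zero, h.bas_one, zsmul_eq_mul, zsmul_eq_mul, mul_one]

theorem GI.norm_form (h : GI i) (m n : ℤ) :
    Algebra.norm ℤ ((m : 𝓞 K) + (n : 𝓞 K) * i) = m ^ 2 + n ^ 2 := by
  rw [Algebra.norm_eq_matrix_det h.bas, Matrix.det_fin_two]
  simp only [Algebra.leftMulMatrix_eq_repr_mul, h.bas_zero, h.bas_one]
  have e0 : ((m : 𝓞 K) + (n : 𝓞 K) * i) * 1 = (m : 𝓞 K) + (n : 𝓞 K) * i := mul_one _
  have e1 : ((m : 𝓞 K) + (n : 𝓞 K) * i) * i =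
      ((-n : ℤ) : 𝓞 K) + ((m : ℤ) : 𝓞 K) * i := by
    push_cast
    linear_combination (n : 𝓞 K) * h.sq
  rw [e0, e1, h.bas_repr, h.bas_repr]
  simp
  ring

theorem GI.absNorm_form (h : GI i) (m n : ℤ) :
    ((Ideal.absNorm (Ideal.span {(m : 𝓞 K) + (n : 𝓞 K) * i}) : ℕ) : ℤ) = m ^ 2 + n ^ 2 := by
  rw [Ideal.absNorm_span_singleton, h.norm_form, Int.natCast_natAbs,
    abs_of_nonneg (by positivity)]

theorem GI.absNorm_int (h : GI i) (m : ℤ) :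
    Ideal.absNorm (Ideal.span {(m : 𝓞 K)}) = m.natAbs ^ 2 := by
  have h1 := h.absNorm_form m 0
  rw [Int.cast_zero, zero_mul, add_zero] at h1
  zify
  rw [h1]
  simp

theorem GI.absNorm_nat (h : GI i) (m : ℕ) :
    Ideal.absNorm (Ideal.span {(m : 𝓞 K)}) = m ^ 2 := by
  have h1 := h.absNorm_int (m : ℤ)
  rwa [Int.cast_natCast, Int.natAbs_natCast] at h1

/-! ### the conjugation -/

private noncomputable def cjm (h : GI i) (a : 𝓞 K) : ℤ := (h.gen a).choose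
private noncomputable def cjn (h : GI i) (a : 𝓞 K) : ℤ := (h.gen a).choose_spec.choose

private theorem cj_spec (h : GI i) (a : 𝓞 K) : a = (cjm h a : 𝓞 K) + (cjn h a : 𝓞 K) * i :=
  (h.gen a).choose_spec.choose_spec

private noncomputable def cjF (h : GI i) (a : 𝓞 K) : 𝓞 K :=
  (cjm h a : 𝓞 K) - (cjn h a : 𝓞 K) * i

private theorem cjF_coords (h : GI i) (m n : ℤ) : cjF h ((m : 𝓞 K) + (n : 𝓞 K) * i) =
    (m : 𝓞 K) - (n : 𝓞 K) * i := by
  obtain ⟨h1, h2⟩ := h.inj (cj_spec h ((m : 𝓞 K) + (n : 𝓞 K) * i))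
  rw [cjF, ← h1, ← h2]

/-- the conjugation -/
noncomputable def GI.cj (h : GI i) : 𝓞 K →+* 𝓞 K where
  toFun := cjF h
  map_one' := by
    have e := cjF_coords h 1 0
    have e1 : ((1 : ℤ) : 𝓞 K) + ((0 : ℤ) : 𝓞 K) * i = 1 := by push_cast; ring
    rw [e1] at e
    rw [e]
    push_cast
    ring
  map_zero' := by
    have e := cjF_coords h 0 0
    have e1 : ((0 : ℤ) : 𝓞 K) + ((0 : ℤ) : 𝓞 K) * i = 0 := by push_cast; ring
    rw [e1] at e
    rw [e]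
    push_cast
    ring
  map_add' a b := by
    obtain ⟨m, n, rfl⟩ := h.gen a
    obtain ⟨m', n', rfl⟩ := h.gen b
    have e : (m : 𝓞 K) + (n : 𝓞 K) * i + ((m' : 𝓞 K) + (n' : 𝓞 K) * i) =
        ((m + m' : ℤ) : 𝓞 K) + ((n + n' : ℤ) : 𝓞 K) * i := by push_cast; ring
    rw [e, cjF_coords, cjF_coords, cjF_coords]
    push_cast
    ring
  map_mul' a b := by
    obtain ⟨m, n, rfl⟩ := h.gen a
    obtain ⟨m', n', rfl⟩ := h.gen b
    have e : ((m : 𝓞 K) + (n : 𝓞 K) * i) * ((m' : 𝓞 K) + (n' : 𝓞 K) * i) =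
        ((m * m' - n * n' : ℤ) : 𝓞 K) + ((m * n' + n * m' : ℤ) : 𝓞 K) * i := by
      push_cast
      linear_combination (n : 𝓞 K) * (n' : 𝓞 K) * h.sq
    rw [e, cjF_coords, cjF_coords, cjF_coords]
    push_cast
    linear_combination (-(n : 𝓞 K) * (n' : 𝓞 K)) * h.sq

theorem GI.cj_coords (h : GI i) (m n : ℤ) : h.cj ((m : 𝓞 K) + (n : 𝓞 K) * i) =
    (m : 𝓞 K) - (n : 𝓞 K) * i := cjF_coords h m n

theorem GI.cj_i (h : GI i) : h.cj i = -i := by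
  have e := h.cj_coords 0 1
  rw [Int.cast_zero, Int.cast_one, one_mul, zero_add, zero_sub] at e
  exact e

theorem GI.cj_cj (h : GI i) (a : 𝓞 K) : h.cj (h.cj a) = a := by
  obtain ⟨m, n, rfl⟩ := h.gen a
  rw [h.cj_coords, map_sub, map_mul, map_intCast, map_intCast, h.cj_i]
  ring

theorem GI.mul_cj (h : GI i) (a : 𝓞 K) :
    a * h.cj a = ((Ideal.absNorm (Ideal.span {a}) : ℕ) : 𝓞 K) := by
  obtain ⟨m, n, rfl⟩ := h.gen a
  have h1 : ((Ideal.absNorm (Ideal.span {(m : 𝓞 K) + (n : 𝓞 K) * i}) : ℕ) : 𝓞 K) =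
      ((((Ideal.absNorm (Ideal.span {(m : 𝓞 K) + (n : 𝓞 K) * i}) : ℕ) : ℤ)) : 𝓞 K) :=
    (Int.cast_natCast _).symm
  rw [h1, h.absNorm_form, h.cj_coords]
  push_cast
  linear_combination (-(n : 𝓞 K) ^ 2) * h.sq

theorem GI.absNorm_cj (h : GI i) (a : 𝓞 K) :
    Ideal.absNorm (Ideal.span {h.cj a}) = Ideal.absNorm (Ideal.span {a}) := by
  have h1 := h.mul_cj a
  have h2 := h.mul_cj (h.cj a)
  rw [h.cj_cj, mul_comm, h1] at h2
  exact_mod_cast h2.symm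

/-! ### the powers of `i` -/

theorem GI.w_natCast (h : GI i) (n : ℕ) : w i (n : ZMod 4) = i ^ n := by
  rw [w, ZMod.val_natCast]
  exact (pow_eq_pow_mod n h.pow_four).symm

theorem w_zero : w i 0 = 1 := by
  rw [w, ZMod.val_zero, pow_zero]

theorem GI.w_one (h : GI i) : w i 1 = i := by
  have e := h.w_natCast 1
  rwa [Nat.cast_one, pow_one] at e

theorem GI.w_two (h : GI i) : w i 2 = -1 := by
  have e := h.w_natCast 2
  rw [Nat.cast_ofNat, h.sq] at e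
  exact e

theorem GI.w_three (h : GI i) : w i 3 = -i := by
  have e := h.w_natCast 3
  rw [Nat.cast_ofNat] at e
  rw [e]
  linear_combination i * h.sq

theorem GI.w_add (h : GI i) (c d : ZMod 4) : w i (c + d) = w i c * w i d := by
  obtain ⟨m, rfl⟩ : ∃ m : ℕ, (m : ZMod 4) = c := ⟨c.val, ZMod.natCast_zmod_val c⟩
  obtain ⟨n, rfl⟩ : ∃ n : ℕ, (n : ZMod 4) = d := ⟨d.val, ZMod.natCast_zmod_val d⟩
  rw [← Nat.cast_add, h.w_natCast, h.w_natCast, h.w_natCast, pow_add]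

theorem GI.w_neg_mul (h : GI i) (c : ZMod 4) : w i (-c) * w i c = 1 := by
  rw [← h.w_add, neg_add_cancel, w_zero]

theorem GI.w_pow (h : GI i) (c : ZMod 4) (n : ℕ) : w i c ^ n = w i (n * c) := by
  induction n with
  | zero => rw [pow_zero, Nat.cast_zero, zero_mul, w_zero]
  | succ n ih => rw [pow_succ, ih, ← h.w_add, Nat.cast_succ, add_mul, one_mul]

theorem GI.w_isUnit (h : GI i) (c : ZMod 4) : IsUnit (w i c) :=
  IsUnit.of_mul_eq_one _ ((mul_comm _ _).trans (h.w_neg_mul c))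

theorem GI.cj_w (h : GI i) (c : ZMod 4) : h.cj (w i c) = w i (-c) := by
  have h1 : ∀ d : ZMod 4, d = 0 ∨ d = 1 ∨ d = 2 ∨ d = 3 := by decide
  have n1 : -(1 : ZMod 4) = 3 := by decide
  have n2 : -(2 : ZMod 4) = 2 := by decide
  have n3 : -(3 : ZMod 4) = 1 := by decide
  rcases h1 c with rfl | rfl | rfl | rfl
  · rw [neg_zero, w_zero, map_one]
  · rw [n1, h.w_one, h.w_three, h.cj_i]
  · rw [n2, h.w_two, map_neg, map_one]
  · rw [n3, h.w_three, h.w_one, map_neg, h.cj_i, neg_neg]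

/-- the units -/
theorem GI.unit (h : GI i) {u : 𝓞 K} (hu : IsUnit u) : ∃ c : ZMod 4, u = w i c := by
  obtain ⟨m, n, rfl⟩ := h.gen u
  have h1 : ((Ideal.absNorm (Ideal.span {(m : 𝓞 K) + (n : 𝓞 K) * i}) : ℕ) : ℤ) = 1 := by
    rw [Ideal.span_singleton_eq_top.2 hu, Ideal.absNorm_top]
    rfl
  rw [h.absNorm_form] at h1
  have hm1 : m ≤ 1 := by nlinarith [sq_nonneg n]
  have hm2 : -1 ≤ m := by nlinarith [sq_nonneg n]
  have hn1 : n ≤ 1 := by nlinarith [sq_nonneg m]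
  have hn2 : -1 ≤ n := by nlinarith [sq_nonneg m]
  have hm : m = -1 ∨ m = 0 ∨ m = 1 := by omega
  have hn : n = -1 ∨ n = 0 ∨ n = 1 := by omega
  rcases hm with rfl | rfl | rfl <;> rcases hn with rfl | rfl | rfl
  · norm_num at h1
  · exact ⟨2, by rw [h.w_two]; push_cast; ring⟩
  · norm_num at h1
  · exact ⟨3, by rw [h.w_three]; push_cast; ring⟩
  · norm_num at h1
  · exact ⟨1, by rw [h.w_one]; push_cast; ring⟩
  · norm_num at h1
  · exact ⟨0, by rw [w_zero]; push_cast; ring⟩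
  · norm_num at h1

/-- divisibility by an integer in coordinates -/
theorem GI.int_dvd (h : GI i) {k m n : ℤ} :
    (k : 𝓞 K) ∣ (m : 𝓞 K) + (n : 𝓞 K) * i ↔ k ∣ m ∧ k ∣ n := by
  constructor
  · rintro ⟨c, hc⟩
    obtain ⟨a, b, rfl⟩ := h.gen c
    have e : (m : 𝓞 K) + (n : 𝓞 K) * i = ((k * a : ℤ) : 𝓞 K) + ((k * b : ℤ) : 𝓞 K) * i := by
      rw [hc]
      push_cast
      ring
    obtain ⟨h1, h2⟩ := h.inj e
    exact ⟨⟨a, h1⟩, ⟨b, h2⟩⟩
  · rintro ⟨⟨a, rfl⟩, ⟨b, rfl⟩⟩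
    exact ⟨(a : 𝓞 K) + b * i, by push_cast; ring⟩

/-- an element congruent to `1` modulo `2` -/
theorem GI.one_mod_two (h : GI i) {a : 𝓞 K} (ha : (2 : 𝓞 K) ∣ a - 1) :
    ∃ m n : ℤ, Odd m ∧ a = (m : 𝓞 K) + ((2 * n : ℤ) : 𝓞 K) * i := by
  obtain ⟨m, n, rfl⟩ := h.gen a
  have e : (m : 𝓞 K) + (n : 𝓞 K) * i - 1 = ((m - 1 : ℤ) : 𝓞 K) + (n : 𝓞 K) * i := by
    push_cast
    ring
  have e2 : (2 : 𝓞 K) = ((2 : ℤ) : 𝓞 K) := by norm_num
  rw [e, e2, h.int_dvd] at ha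
  obtain ⟨⟨a, ha⟩, ⟨b, rfl⟩⟩ := ha
  exact ⟨m, b, ⟨a, by linarith⟩, rfl⟩

end Pool.Agent.Lib.MP_1a91b9_nuX.HQ
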