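import Pool.Agent.Lib.MP_1a91b9_nuX.HQ.Fin

/-!
# The character `(α) ↦ (n / α)⁻¹ α`, `α ≡ 1` modulo `2 (1 + i)`
-/

set_option autoImplicit false

namespace Pool.Agent.Lib.MP_1a91b9_nuX.HQ

open NumberField

variable {K : Type} [Field K] [NumberField K] {i : 𝓞 K}

theorem odd_of_cop (h : GI i) {m n : ℤ} (hc : IsCoprime ((m : 𝓞 K) + (n : 𝓞 K) * i) 2) :
    (Odd m ∧ Even n) ∨ (Even m ∧ Odd n) := by
  have key : ∀ a b : ℤ, (1 + i) * ((a : 𝓞 K) + (b : 𝓞 K) * i) = (m : 𝓞 K) + (n : 𝓞 K) * i →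
      False := by
    intro a b e
    obtain ⟨x, y, hxy⟩ := hc
    have h1 : IsUnit (1 + i) := by
      refine IsUnit.of_mul_eq_one (x * ((a : 𝓞 K) + (b : 𝓞 K) * i) + y * (1 - i)) ?_
      linear_combination hxy + x * e - y * h.sq
    obtain ⟨c, hc⟩ := h.unit h1
    have h2 := congrArg (fun z => z * h.cj z) hc
    have e1 : h.cj (1 + i) = 1 - i := by
      rw [map_add, map_one, h.cj_i]
      ring
    have e2 : w i c * h.cj (w i c) = 1 := by
      rw [h.cj_w, mul_comm]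
      exact h.w_neg_mul c
    have h3 : (1 + i) * h.cj (1 + i) = w i c * h.cj (w i c) := h2
    rw [e1, e2] at h3
    have h4 : ((2 : ℤ) : 𝓞 K) = ((1 : ℤ) : 𝓞 K) := by
      push_cast
      linear_combination h3 + h.sq
    exact absurd (Int.cast_injective h4) (by norm_num)
  rcases Int.even_or_odd m with hm | hm <;> rcases Int.even_or_odd n with hn | hn
  · exfalso
    obtain ⟨a, ha⟩ := hm
    obtain ⟨b, hb⟩ := hn
    refine key (a + b) (b - a) ?_
    rw [ha, hb]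
    push_cast
    linear_combination ((b : 𝓞 K) - a) * h.sq
  · exact Or.inr ⟨hm, hn⟩
  · exact Or.inl ⟨hm, hn⟩
  · exfalso
    obtain ⟨a, ha⟩ := hm
    obtain ⟨b, hb⟩ := hn
    refine key (a + b + 1) (b - a) ?_
    rw [ha, hb]
    push_cast
    linear_combination ((b : 𝓞 K) - a) * h.sq

theorem prim_odd (h : GI i) {m n : ℤ} (hm : Odd m) (hn : Even n) :
    ∃ c : ZMod 4, 2 * (1 + i) ∣ w i c * ((m : 𝓞 K) + (n : 𝓞 K) * i) - 1 := by
  obtain ⟨a, ha⟩ := hm
  obtain ⟨b, hb⟩ := hn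
  rcases Int.even_or_odd (a + b) with ⟨d, hd⟩ | ⟨d, hd⟩
  · refine ⟨0, (d : 𝓞 K) + ((b - d : ℤ) : 𝓞 K) * i, ?_⟩
    have hb' : (b : 𝓞 K) = 2 * d - a := by
      have e : b = 2 * d - a := by omega
      rw [e]
      push_cast
      ring
    rw [w_zero, ha, hb]
    push_cast
    rw [hb']
    linear_combination (-2 * (d : 𝓞 K) + 2 * a) * h.sq
  · refine ⟨2, ((-d - 1 : ℤ) : 𝓞 K) + ((d + 1 - b : ℤ) : 𝓞 K) * i, ?_⟩
    have hb' : (b : 𝓞 K) = 2 * d + 1 - a := by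
      have e : b = 2 * d + 1 - a := by omega
      rw [e]
      push_cast
      ring
    rw [h.w_two, ha, hb]
    push_cast
    rw [hb']
    linear_combination (2 * (d : 𝓞 K) - 2 * a) * h.sq

theorem exists_primary (h : GI i) {β : 𝓞 K} (hβ : IsCoprime β 2) :
    ∃ c : ZMod 4, 2 * (1 + i) ∣ w i c * β - 1 := by
  obtain ⟨m, n, rfl⟩ := h.gen β
  rcases odd_of_cop h hβ with ⟨hm, hn⟩ | ⟨hm, hn⟩
  · exact prim_odd h hm hn
  · obtain ⟨c, hc⟩ := prim_odd h (m := -n) (n := m) hn.neg hm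
    refine ⟨c + 1, ?_⟩
    rw [h.w_add, h.w_one]
    have e : ((-n : ℤ) : 𝓞 K) + (m : 𝓞 K) * i = i * ((m : 𝓞 K) + (n : 𝓞 K) * i) := by
      push_cast
      linear_combination (-(n : 𝓞 K)) * h.sq
    rw [e] at hc
    rwa [mul_assoc]

section
variable [IsPrincipalIdealRing (𝓞 K)]

/-- the primary generator of an odd ideal -/
theorem exists_gen (h : GI i) {I : Ideal (𝓞 K)} (hI : IsCoprime I (Ideal.span {(2 : 𝓞 K)})) :
    ∃ β : 𝓞 K, I = Ideal.span {β} ∧ 2 * (1 + i) ∣ β - 1 := by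
  obtain ⟨β, hβ⟩ := (IsPrincipalIdealRing.principal I).principal
  have hβ' : I = Ideal.span {β} := hβ
  have h1 : IsCoprime β 2 := by
    rw [hβ'] at hI
    exact (Ideal.isCoprime_span_singleton_iff _ _).1 hI
  obtain ⟨c, hc⟩ := exists_primary h h1
  refine ⟨w i c * β, ?_, hc⟩
  rw [hβ', Ideal.span_singleton_mul_left_unit (h.w_isUnit c)]

open Classical in
/-- the primary generator -/
noncomputable def pg (h : GI i) (I : Ideal (𝓞 K)) : 𝓞 K :=
  if hI : IsCoprime I (Ideal.span {(2 : 𝓞 K)}) then (exists_gen h hI).choose else 0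

theorem pg_spec (h : GI i) {I : Ideal (𝓞 K)} (hI : IsCoprime I (Ideal.span {(2 : 𝓞 K)})) :
    I = Ideal.span {pg h I} ∧ 2 * (1 + i) ∣ pg h I - 1 := by
  rw [pg, dif_pos hI]
  exact (exists_gen h hI).choose_spec

theorem pg_eq (h : GI i) {I : Ideal (𝓞 K)} (hI : IsCoprime I (Ideal.span {(2 : 𝓞 K)})) {β : 𝓞 K}
    (hβ : I = Ideal.span {β}) (h2 : 2 * (1 + i) ∣ β - 1) : pg h I = β := by
  obtain ⟨e1, e2⟩ := pg_spec h hI
  exact prim_unique h e2 h2 (e1.symm.trans hβ)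

theorem pg_mul (h : GI i) {I J : Ideal (𝓞 K)} (hI : IsCoprime I (Ideal.span {(2 : 𝓞 K)}))
    (hJ : IsCoprime J (Ideal.span {(2 : 𝓞 K)})) : pg h (I * J) = pg h I * pg h J := by
  obtain ⟨a1, a2⟩ := pg_spec h hI
  obtain ⟨b1, b2⟩ := pg_spec h hJ
  refine pg_eq h (hI.mul_left hJ) ?_ ?_
  · rw [← Ideal.span_singleton_mul_span_singleton, ← a1, ← b1]
  · have e : pg h I * pg h J - 1 = (pg h I - 1) * pg h J + (pg h J - 1) := by ring
    rw [e]
    exact dvd_add (Dvd.dvd.mul_right a2 _) b2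

/-- the Hecke character attached to the biquadratic symbol of an integer -/
theorem exists_ps (h : GI i) (n : ℤ) (hn : n ≠ 0) : ∃ ps : Ideal (𝓞 K) → 𝓞 K,
    ps 1 = 1 ∧ (∀ I J, ps (I * J) = ps I * ps J) ∧
    (∀ I, IsCoprime I (Ideal.span {((8 * n : ℤ) : 𝓞 K)}) → Ideal.span {ps I} = I) ∧
    (∀ I, ¬ IsCoprime I (Ideal.span {((8 * n : ℤ) : 𝓞 K)}) → ps I = 0) ∧
    (∀ a : 𝓞 K, ((8 * n : ℤ) : 𝓞 K) ∣ a - 1 → ps (Ideal.span {a}) = a) ∧
    ∀ P : Ideal (𝓞 K), G4 P → (n : 𝓞 K) ∉ P → ∃ π : 𝓞 K, 2 * (1 + i) ∣ π - 1 ∧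
      ps P = w i (-qs i P (n : 𝓞 K)) * π := by
  classical
  obtain ⟨f, hf⟩ : ∃ f : 𝓞 K, f = ((8 * n : ℤ) : 𝓞 K) := ⟨_, rfl⟩
  have h2f : (2 : 𝓞 K) ∣ f := ⟨4 * n, by rw [hf]; push_cast; ring⟩
  have hnf : (n : 𝓞 K) ∣ f := ⟨8, by rw [hf]; push_cast; ring⟩
  have hc2 : ∀ I : Ideal (𝓞 K), IsCoprime I (Ideal.span {f}) →
      IsCoprime I (Ideal.span {(2 : 𝓞 K)}) := fun I hI =>
    IsCoprime.of_isCoprime_of_dvd_right hI
      (Ideal.dvd_iff_le.2 (Ideal.span_singleton_le_span_singleton.2 h2f))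
  have hcn : ∀ I : Ideal (𝓞 K), IsCoprime I (Ideal.span {f}) →
      IsCoprime I (Ideal.span {(n : 𝓞 K)}) := fun I hI =>
    IsCoprime.of_isCoprime_of_dvd_right hI
      (Ideal.dvd_iff_le.2 (Ideal.span_singleton_le_span_singleton.2 hnf))
  have hf0 : ¬ IsUnit f := by
    intro hu
    obtain ⟨x, hx⟩ := h2f
    have h3 : IsUnit (2 : 𝓞 K) := isUnit_of_dvd_unit ⟨x, hx⟩ hu
    have h4 : Ideal.absNorm (Ideal.span {((2 : ℕ) : 𝓞 K)}) = 1 := by
      rw [Nat.cast_ofNat, Ideal.span_singleton_eq_top.2 h3, Ideal.absNorm_top]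
    rw [h.absNorm_nat] at h4
    norm_num at h4
  have hbot : ¬ IsCoprime (⊥ : Ideal (𝓞 K)) (Ideal.span {f}) := by
    rw [Ideal.isCoprime_iff_sup_eq, bot_sup_eq, Ideal.span_singleton_eq_top]
    exact hf0
  rw [← hf]
  refine ⟨fun I => if IsCoprime I (Ideal.span {f}) then w i (-sy i I (n : 𝓞 K)) * pg h I else 0,
    ?_, ?_, ?_, ?_, ?_, ?_⟩
  · have h1 : IsCoprime (1 : Ideal (𝓞 K)) (Ideal.span {f}) := isCoprime_one_left
    simp only [if_pos h1]
    rw [sy_one, neg_zero, w_zero, one_mul]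
    refine pg_eq h (hc2 _ h1) ?_ ?_
    · rw [Ideal.span_singleton_one, Ideal.one_eq_top]
    · rw [sub_self]
      exact dvd_zero _
  · intro I J
    by_cases hI : IsCoprime I (Ideal.span {f})
    · by_cases hJ : IsCoprime J (Ideal.span {f})
      · have hI0 : I ≠ ⊥ := by
          rintro rfl
          exact hbot hI
        have hJ0 : J ≠ ⊥ := by
          rintro rfl
          exact hbot hJ
        simp only [if_pos hI, if_pos hJ, if_pos (hI.mul_left hJ)]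
        rw [sy_mul hI0 hJ0, pg_mul h (hc2 _ hI) (hc2 _ hJ), neg_add, h.w_add]
        ring
      · have h1 : ¬ IsCoprime (I * J) (Ideal.span {f}) := fun h1 => hJ h1.of_mul_left_right
        simp only [if_neg hJ, if_neg h1, mul_zero]
    · have h1 : ¬ IsCoprime (I * J) (Ideal.span {f}) := fun h1 => hI h1.of_mul_left_left
      simp only [if_neg hI, if_neg h1, zero_mul]
  · intro I hI
    simp only [if_pos hI]
    rw [Ideal.span_singleton_mul_left_unit (h.w_isUnit _)]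
    exact (pg_spec h (hc2 _ hI)).1.symm
  · intro I hI
    simp only [if_neg hI]
  · intro a ha
    have hI : IsCoprime (Ideal.span {a}) (Ideal.span {f}) := by
      rw [Ideal.isCoprime_span_singleton_iff]
      obtain ⟨x, hx⟩ := ha
      exact ⟨1, -x, by linear_combination hx⟩
    have h3 : sy i (Ideal.span {a}) (n : 𝓞 K) = 0 := sy_int_one h n hn a (by rw [← hf]; exact ha)
    simp only [if_pos hI]
    rw [h3, neg_zero, w_zero, one_mul]
    refine pg_eq h (hc2 _ hI) rfl ?_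
    refine dvd_trans ?_ ha
    refine ⟨2 * (1 - i) * n, ?_⟩
    rw [hf]
    push_cast
    linear_combination (4 * (n : 𝓞 K)) * h.sq
  · intro P hP hnP
    have h8 : f ∉ P := by
      rw [hf]
      push_cast
      intro h1
      rcases hP.pr.mem_or_mem h1 with h2 | h2
      · have e : (8 : 𝓞 K) = 2 ^ 3 := by norm_num
        rw [e] at h2
        exact hP.two (hP.pr.mem_of_pow_mem 3 h2)
      · exact hnP h2
    have hmax : P.IsMaximal := hP.pr.isMaximal hP.ne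
    have hI : IsCoprime P (Ideal.span {f}) := by
      rw [Ideal.isCoprime_iff_sup_eq]
      by_contra hc
      have h1 : P = P ⊔ Ideal.span {f} := hmax.eq_of_le hc le_sup_left
      refine h8 ?_
      rw [h1]
      exact Ideal.mem_sup_right (Ideal.mem_span_singleton_self _)
    refine ⟨pg h P, (pg_spec h (hc2 _ hI)).2, ?_⟩
    simp only [if_pos hI]
    rw [sy_prime hP.pr hP.ne]

end

end Pool.Agent.Lib.MP_1a91b9_nuX.HQ
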