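import Pool.Agent.Lib.MP_1a91b9_nuX.HQ.Cas

/-!
# The symbol with composite denominator

`sy i I x`: the sum of `qs i P x` over the prime factors `P` of `I` with multiplicities.

PROOF (complete). `sy_mul`: `normalizedFactors_mul` (`UniqueFactorizationMonoid.normalizedFactors_mul`), `Multiset.map_add`, `sum_add`. `sy_prime`:
`UniqueFactorizationMonoid.normalizedFactors_irreducible` (a nonzero prime ideal is irreducible, `normalize_eq`). `sy_one`: `normalizedFactors_one`.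
`sy_num`: termwise `qs_mul` (`Multiset.sum_map_add`); `sy_pow` likewise.
`fac_mem`: `P ∈ normalizedFactors I` is prime (`UniqueFactorizationMonoid.prime_of_normalized_factor`, `Ideal.isPrime_of_prime`), nonzero and divides `I`, and `I`
is comaximal with `x`.
`ind`: induction on the norm `N (span {α})`. If `α` is a unit then `α = w i c` (`GI.unit`) with `2 ∣ w i c - 1`, so `c = 0` or `2` (`GI.int_dvd`): `α = 1` or `-1`. Otherwise
there is a maximal ideal `P` containing `α`, `P = span {β₀}` (principal), `2 ∉ P` because `2 ∣ α - 1`, `G4 P`; `β₀ = m + n i` with `N β₀ = m ^ 2 + n ^ 2` odd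
(otherwise `2 ∈ P`: if `m ≡ n` modulo `2` then `1 + i` divides `β₀` and `P ≤ span {1 + i}`, so `P = span {1 + i} ∋ 2`; or: `N P` is odd by `G4.dvd`), so exactly one of `m, n` is
odd and `β = β₀` or `i β₀` is `≡ 1` modulo `2`. `α = β γ`, `2 ∣ γ - 1` because `(β - 1) γ + (γ - 1) = α - 1`; `N γ < N α`. `hmul`.
`exists_prim`: as in `ind` every `G4 P` is `span {β}` with `2 ∣ β - 1`, `β = 1 + 2 (x + y i)`; `2 (1 + i) ∣ β - 1` iff `x + y` is even; otherwise replace `β` by `-β`: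
`-β - 1 = 2 (-1 - x - y i)`. `prim_unique`: `β' = w i c β`, `2 (1 + i)` divides `w i c - 1` (`2 (1 + i) ∣ w i c β - 1` and `β - 1`), so `c = 0` (norms: `w i c - 1` has norm
`0, 2, 4, 2` and `8` divides it; `GI.absNorm_form`).
-/

set_option autoImplicit false

namespace Pool.Agent.Lib.MP_1a91b9_nuX.HQ

open NumberField UniqueFactorizationMonoid

/-- the biquadratic symbol with composite denominator -/
noncomputable def sy {K : Type} [Field K] [NumberField K] (i : 𝓞 K) (I : Ideal (𝓞 K)) (x : 𝓞 K) :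
    ZMod 4 :=
  ((normalizedFactors I).map (fun P => qs i P x)).sum

variable {K : Type} [Field K] [NumberField K] {i : 𝓞 K}

theorem sy_one (x : 𝓞 K) : sy i (1 : Ideal (𝓞 K)) x = 0 := by
  rw [sy, normalizedFactors_one, Multiset.map_zero, Multiset.sum_zero]

theorem sy_prime {P : Ideal (𝓞 K)} (hP : P.IsPrime) (h0 : P ≠ ⊥) (x : 𝓞 K) :
    sy i P x = qs i P x := by
  rw [sy, normalizedFactors_irreducible (Ideal.prime_of_isPrime h0 hP).irreducible, normalize_eq,
    Multiset.map_singleton, Multiset.sum_singleton]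

theorem sy_mul {I J : Ideal (𝓞 K)} (hI : I ≠ ⊥) (hJ : J ≠ ⊥) (x : 𝓞 K) :
    sy i (I * J) x = sy i I x + sy i J x := by
  rw [sy, normalizedFactors_mul hI hJ, Multiset.map_add, Multiset.sum_add]
  rfl

theorem fac_mem {I P : Ideal (𝓞 K)} (hP : P ∈ normalizedFactors I) {x : 𝓞 K}
    (hx : IsCoprime I (Ideal.span {x})) : P.IsPrime ∧ P ≠ ⊥ ∧ I ≤ P ∧ x ∉ P := by
  have h1 : Prime P := prime_of_normalized_factor P hP
  have h2 : I ≤ P := Ideal.dvd_iff_le.1 (dvd_of_mem_normalizedFactors hP)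
  have h3 : P.IsPrime := Ideal.isPrime_of_prime h1
  refine ⟨h3, h1.ne_zero, h2, fun hxP => h3.ne_top ?_⟩
  rw [eq_top_iff, ← Ideal.isCoprime_iff_sup_eq.1 hx]
  exact sup_le h2 ((Ideal.span_singleton_le_iff_mem _).2 hxP)

theorem fac_g4 {I P : Ideal (𝓞 K)} (hP : P ∈ normalizedFactors I)
    (h2 : IsCoprime I (Ideal.span {(2 : 𝓞 K)})) : G4 P := by
  obtain ⟨h3, h4, -, h5⟩ := fac_mem hP h2
  exact ⟨h3, h4, h5⟩

theorem sy_num (h : GI i) {I : Ideal (𝓞 K)} (h2 : IsCoprime I (Ideal.span {(2 : 𝓞 K)}))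
    {x y : 𝓞 K} (hx : IsCoprime I (Ideal.span {x})) (hy : IsCoprime I (Ideal.span {y})) :
    sy i I (x * y) = sy i I x + sy i I y := by
  rw [sy, sy, sy, ← Multiset.sum_map_add]
  refine congrArg Multiset.sum (Multiset.map_congr rfl fun P hP => ?_)
  exact qs_mul h (fac_g4 hP h2) (fac_mem hP hx).2.2.2 (fac_mem hP hy).2.2.2

theorem sy_num_one (h : GI i) {I : Ideal (𝓞 K)} (h2 : IsCoprime I (Ideal.span {(2 : 𝓞 K)})) :
    sy i I 1 = 0 := by
  rw [sy]
  have h3 : (normalizedFactors I).map (fun P => qs i P 1) =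
      (normalizedFactors I).map (fun _ => (0 : ZMod 4)) :=
    Multiset.map_congr rfl fun P hP => qs_one h (fac_g4 hP h2)
  rw [h3, Multiset.sum_map_zero]

theorem sy_pow (h : GI i) {I : Ideal (𝓞 K)} (h2 : IsCoprime I (Ideal.span {(2 : 𝓞 K)}))
    {x : 𝓞 K} (hx : IsCoprime I (Ideal.span {x})) (n : ℕ) : sy i I (x ^ n) = n * sy i I x := by
  rw [sy, sy, ← Multiset.sum_map_mul_left]
  refine congrArg Multiset.sum (Multiset.map_congr rfl fun P hP => ?_)
  exact qs_pow h (fac_g4 hP h2) (fac_mem hP hx).2.2.2 n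

private theorem Sy_two : (2 : 𝓞 K) = ((2 : ℤ) : 𝓞 K) := by norm_num

private theorem Sy_unit (h : GI i) : IsUnit i :=
  IsUnit.of_mul_eq_one (-i) (by linear_combination -h.sq)

/-- a generator congruent to `1` modulo `2` -/
private theorem Sy_gen [IsPrincipalIdealRing (𝓞 K)] (h : GI i) {P : Ideal (𝓞 K)} (hP : G4 P) :
    ∃ β : 𝓞 K, P = Ideal.span {β} ∧ (2 : 𝓞 K) ∣ β - 1 := by
  obtain ⟨β₀, hβ⟩ := (IsPrincipalIdealRing.principal P).principal
  have hβ' : P = Ideal.span {β₀} := hβ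
  obtain ⟨m, n, rfl⟩ := h.gen β₀
  have hN := h.absNorm_form m n
  rw [← hβ'] at hN
  have h1 := hP.one_lt
  obtain ⟨k, hk⟩ := hP.dvd h
  have hodd : m ^ 2 + n ^ 2 = 4 * (k : ℤ) + 1 := by
    rw [← hN]
    omega
  rcases Int.even_or_odd' m with ⟨a, rfl | rfl⟩ <;> rcases Int.even_or_odd' n with ⟨b, rfl | rfl⟩
  · exfalso
    have : (4 : ℤ) * (a ^ 2 + b ^ 2 - k) = 1 := by linear_combination hodd
    omega
  · refine ⟨i * (((2 * a : ℤ) : 𝓞 K) + ((2 * b + 1 : ℤ) : 𝓞 K) * i), ?_, ?_⟩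
    · rw [Ideal.span_singleton_mul_left_unit (Sy_unit h)]
      exact hβ'
    · refine ⟨-(b : 𝓞 K) - 1 + (a : 𝓞 K) * i, ?_⟩
      push_cast
      linear_combination (2 * (b : 𝓞 K) + 1) * h.sq
  · refine ⟨_, hβ', ?_⟩
    refine ⟨(a : 𝓞 K) + (b : 𝓞 K) * i, ?_⟩
    push_cast
    ring
  · exfalso
    have : (4 : ℤ) * (a ^ 2 + a + b ^ 2 + b - k) = -1 := by linear_combination hodd
    omega

private theorem Sy_even (h : GI i) {x y : ℤ} (hxy : Even (x + y)) :
    1 + i ∣ (x : 𝓞 K) + (y : 𝓞 K) * i := by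
  obtain ⟨a, ha⟩ := hxy
  have hx : x = a + a - y := by linarith
  refine ⟨(a : 𝓞 K) + ((y - a : ℤ) : 𝓞 K) * i, ?_⟩
  rw [hx]
  push_cast
  linear_combination (-((y : 𝓞 K) - a)) * h.sq

private theorem Sy_odd (h : GI i) {m n : ℤ} (hm : ¬ (2 : ℤ) ∣ m) :
    ¬ (2 : 𝓞 K) ∣ (m : 𝓞 K) + (n : 𝓞 K) * i := by
  rw [Sy_two, h.int_dvd]
  exact fun h1 => hm h1.1

/-- the units congruent to `1` modulo `2` -/
private theorem Sy_w (h : GI i) {c : ZMod 4} (hc : (2 : 𝓞 K) ∣ w i c - 1) : c = 0 ∨ c = 2 := by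
  have h1 : ∀ d : ZMod 4, d = 0 ∨ d = 1 ∨ d = 2 ∨ d = 3 := by decide
  rcases h1 c with rfl | rfl | rfl | rfl
  · exact Or.inl rfl
  · exfalso
    rw [h.w_one] at hc
    refine Sy_odd h (m := -1) (n := 1) (by decide) ?_
    have e : i - 1 = ((-1 : ℤ) : 𝓞 K) + ((1 : ℤ) : 𝓞 K) * i := by push_cast; ring
    rwa [e] at hc
  · exact Or.inr rfl
  · exfalso
    rw [h.w_three] at hc
    refine Sy_odd h (m := -1) (n := -1) (by decide) ?_
    have e : -i - 1 = ((-1 : ℤ) : 𝓞 K) + ((-1 : ℤ) : 𝓞 K) * i := by push_cast; ring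
    rwa [e] at hc

/-- a generator congruent to `1` modulo `2 (1 + i)` -/
theorem exists_prim [IsPrincipalIdealRing (𝓞 K)] (h : GI i) {P : Ideal (𝓞 K)} (hP : G4 P) :
    ∃ β : 𝓞 K, P = Ideal.span {β} ∧ 2 * (1 + i) ∣ β - 1 := by
  obtain ⟨β, hβ, c, hc⟩ := Sy_gen h hP
  obtain ⟨x, y, rfl⟩ := h.gen c
  rcases Int.even_or_odd (x + y) with h1 | h1
  · refine ⟨β, hβ, ?_⟩
    rw [hc]
    exact mul_dvd_mul_left 2 (Sy_even h h1)
  · refine ⟨-β, ?_, ?_⟩
    · rw [Ideal.span_singleton_neg]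
      exact hβ
    · have h2 : Even ((-1 - x) + (-y)) := by
        obtain ⟨a, ha⟩ := h1
        exact ⟨-a - 1, by linarith⟩
      have h3 : -β - 1 = 2 * (((-1 - x : ℤ) : 𝓞 K) + ((-y : ℤ) : 𝓞 K) * i) := by
        push_cast
        linear_combination -hc
      rw [h3]
      exact mul_dvd_mul_left 2 (Sy_even h h2)

theorem prim_unique (h : GI i) {β β' : 𝓞 K} (hβ : 2 * (1 + i) ∣ β - 1)
    (hβ' : 2 * (1 + i) ∣ β' - 1) (e : Ideal.span {β} = Ideal.span {β'}) : β = β' := by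
  obtain ⟨u, hu⟩ := Ideal.span_singleton_eq_span_singleton.1 e
  obtain ⟨c, hc⟩ := h.unit u.isUnit
  rw [hc] at hu
  have h1 : 2 * (1 + i) ∣ w i c - 1 := by
    have h2 : w i c - 1 = (β' - 1) - (β - 1) * w i c := by rw [← hu]; ring
    rw [h2]
    exact dvd_sub hβ' (Dvd.dvd.mul_right hβ _)
  rcases Sy_w h ((dvd_mul_right _ _).trans h1) with rfl | rfl
  · rw [w_zero, mul_one] at hu
    exact hu
  · exfalso
    rw [h.w_two] at h1
    obtain ⟨z, hz⟩ := h1
    refine Sy_odd h (m := -1) (n := 1) (by decide) ⟨z, ?_⟩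
    have h2 : (2 : 𝓞 K) ≠ 0 := two_ne_zero
    have h3 : (1 + i) * z = -1 := by
      apply mul_left_cancel₀ h2
      linear_combination -hz
    push_cast
    linear_combination (-1 + i) * h3 - z * h.sq

/-- induction over the elements congruent to `1` modulo `2` -/
theorem ind [IsPrincipalIdealRing (𝓞 K)] (h : GI i) {M : 𝓞 K → Prop} (h1 : M 1) (h2 : M (-1))
    (hmul : ∀ β γ : 𝓞 K, (2 : 𝓞 K) ∣ β - 1 → (2 : 𝓞 K) ∣ γ - 1 → γ ≠ 0 →
      G4 (Ideal.span {β}) → M γ → M (β * γ)) (α : 𝓞 K) (hα : (2 : 𝓞 K) ∣ α - 1) (h0 : α ≠ 0) :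
    M α := by
  have key : ∀ n : ℕ, ∀ α : 𝓞 K, (2 : 𝓞 K) ∣ α - 1 → α ≠ 0 →
      Ideal.absNorm (Ideal.span {α}) = n → M α := by
    intro n
    induction n using Nat.strong_induction_on with
    | _ n ih =>
      intro α hα h0 hn
      by_cases hu : IsUnit α
      · obtain ⟨c, rfl⟩ := h.unit hu
        rcases Sy_w h hα with rfl | rfl
        · rw [w_zero]
          exact h1
        · rw [h.w_two]
          exact h2
      · have htop : Ideal.span {α} ≠ ⊤ := fun h3 => hu (Ideal.span_singleton_eq_top.1 h3)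
        obtain ⟨P, hPm, hPle⟩ := Ideal.exists_le_maximal _ htop
        have hαP : α ∈ P := hPle (Ideal.mem_span_singleton_self α)
        have hPp : P.IsPrime := hPm.isPrime
        have hP2 : (2 : 𝓞 K) ∉ P := by
          intro h3
          obtain ⟨z, hz⟩ := hα
          apply hPp.ne_top
          rw [Ideal.eq_top_iff_one]
          have h4 : (1 : 𝓞 K) = α - 2 * z := by rw [← hz]; ring
          rw [h4]
          exact P.sub_mem hαP (P.mul_mem_right _ h3)
        have hP0 : P ≠ ⊥ := by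
          intro h3
          rw [h3, Ideal.mem_bot] at hαP
          exact h0 hαP
        have hG : G4 P := ⟨hPp, hP0, hP2⟩
        obtain ⟨β, hβ, hβ1⟩ := Sy_gen h hG
        rw [hβ, Ideal.mem_span_singleton] at hαP
        obtain ⟨γ, rfl⟩ := hαP
        have hγ0 : γ ≠ 0 := right_ne_zero_of_mul h0
        have hγ1 : (2 : 𝓞 K) ∣ γ - 1 := by
          have h4 : γ - 1 = (β * γ - 1) - (β - 1) * γ := by ring
          rw [h4]
          exact dvd_sub hα (Dvd.dvd.mul_right hβ1 _)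
        rw [hβ] at hG
        refine hmul β γ hβ1 hγ1 hγ0 hG (ih (Ideal.absNorm (Ideal.span {γ})) ?_ γ hγ1 hγ0 rfl)
        rw [← hn, ← Ideal.span_singleton_mul_span_singleton, map_mul]
        have h5 := hG.one_lt
        have h6 : 0 < Ideal.absNorm (Ideal.span {γ}) := by
          rw [Nat.pos_iff_ne_zero, Ne, Ideal.absNorm_eq_zero_iff, Ideal.span_singleton_eq_bot]
          exact hγ0
        exact lt_mul_of_one_lt_left h6 h5
  exact key _ α hα h0 rfl

end Pool.Agent.Lib.MP_1a91b9_nuX.HQ
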